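import Pool.Agent.Lib_helper58.ID.Defs

/-!
# MP_bc6371_lc: auxiliary definitions used by the blocks
-/

namespace Pool.Agent.Lib_helper58.ID

open Cardinal

/-- `P` is first order, uniformly in all structures -/
def Dfn (C : Srt → Type) (Γ : List Srt)
    (P : ∀ M : Str, (∀ s, C s → M.car s) → Tup M.car Γ → Prop) : Prop :=
  ∃ φ : Fml C Γ, ∀ (M : Str) (e : ∀ s, C s → M.car s) (v : Tup M.car Γ), P M e v ↔ Sat M e φ v

/-- `t` is a term, uniformly in all structures -/
def IsT (C : Srt → Type) (Γ : List Srt) (s : Srt)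
    (t : ∀ M : Str, (∀ s, C s → M.car s) → Tup M.car Γ → M.car s) : Prop :=
  ∃ τ : Tm C Γ s, ∀ (M : Str) (e : ∀ s, C s → M.car s) (v : Tup M.car Γ), t M e v = τ.val e v

/-- `t` is a tuple of terms, uniformly in all structures -/
def IsTs (C : Srt → Type) (Γ Δ : List Srt)
    (t : ∀ M : Str, (∀ s, C s → M.car s) → Tup M.car Γ → Tup M.car Δ) : Prop :=
  ∀ (s : Srt) (x : Var Δ s), IsT C Γ s (fun M e v => (t M e v).get x)

/-- first part of a concatenation -/
def Tup.fst {M : Srt → Type} : ∀ {Γ Δ : List Srt}, Tup M (Γ ++ Δ) → Tup M Γ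
  | [], _, _ => ()
  | _ :: _, _, v => (v.1, Tup.fst v.2)

/-- second part of a concatenation -/
def Tup.snd {M : Srt → Type} : ∀ {Γ Δ : List Srt}, Tup M (Γ ++ Δ) → Tup M Δ
  | [], _, v => v
  | _ :: Γ, _, v => Tup.snd (Γ := Γ) v.2

/-- all entries of the tuple are in `A` -/
def Tup.In {U : Str} (A : Par U) {Γ : List Srt} (v : Tup U.car Γ) : Prop :=
  ∀ (s : Srt) (x : Var Γ s), v.get x ∈ A s

/-- a set of elements of sort `a` definable over `A` -/
def Def1 (U : Str) (A : Par U) {a : Srt} (D : Set (U.car a)) : Prop :=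
  DefOver U A [a] {v | v.1 ∈ D}

/-- the set coded by `X` -/
def Str.ext (M : Str) {a : Srt} (X : M.car (.pow a)) : Set (M.car a) := {x | M.mem a x X}

/-- the relation coded by `f` -/
def Str.rel (M : Str) {a b : Srt} (f : M.car (.pow (.prod a b))) (x : M.car a) (y : M.car b) :
    Prop := ∃ z, M.pair a b x y z ∧ M.mem _ z f

/-- the set coded by `X` embeds into the set coded by `Y`, by a coded relation -/
def Str.le (M : Str) {a b : Srt} (X : M.car (.pow a)) (Y : M.car (.pow b)) : Prop :=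
  ∃ f : M.car (.pow (.prod a b)), (∀ x, M.mem a x X → ∃ y, M.mem b y Y ∧ M.rel f x y) ∧
    ∀ x x' y, M.rel f x y → M.rel f x' y → x = x'

/-- the set coded by `X` has at least `n` elements -/
def Str.Big (M : Str) {a : Srt} : ℕ → M.car (.pow a) → Prop
  | 0, _ => True
  | n + 1, X => ∃ x, M.mem a x X ∧ ∃ Y : M.car (.pow a),
      (∀ y, M.mem a y Y ↔ M.mem a y X ∧ y ≠ x) ∧ M.Big n Y

/-- `N` meets every nonempty `N`-definable set (so `N` is an elementary substructure) -/
def Closed (U : Str) (N : Par U) : Prop :=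
  ∀ (a : Srt) (D : Set (U.car a)), Def1 U N D → D.Nonempty → ∃ x ∈ D, x ∈ N a

/-- the sort coding tuples of the context `Γ` -/
def cd : List Srt → Srt
  | [] => .pow .base
  | s :: Γ => .prod s (cd Γ)

/-- `c` is the code of the tuple `v` -/
def Str.IsCode (M : Str) : ∀ {Γ : List Srt}, Tup M.car Γ → M.car (cd Γ) → Prop
  | [], _, c => ∀ x : M.car .base, ¬ M.mem .base x c
  | s :: Γ, v, c => ∃ d : M.car (cd Γ), Str.IsCode M (Γ := Γ) v.2 d ∧ M.pair s (cd Γ) v.1 d c

end Pool.Agent.Lib_helper58.ID
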