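import Pool.Agent.Lib_helper58.ID.TR1

/-! MP_bc6371_lc, block TR2: cardinalities in models of `T`. -/

namespace Pool.Agent.Lib_helper58.ID

open Cardinal

theorem TR2_finite (m : ℕ) : ∀ s : Srt, Finite (fcar m s)
  | .base => inferInstanceAs (Finite (Fin (m + 1)))
  | .prod a b => by
    have := TR2_finite m a
    have := TR2_finite m b
    exact inferInstanceAs (Finite (fcar m a × fcar m b))
  | .pow a => by
    have := TR2_finite m a
    exact inferInstanceAs (Finite (Set (fcar m a)))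

theorem TR2_rel (m : ℕ) {a b : Srt} (f : Set (fcar m a × fcar m b)) (x : fcar m a) (y : fcar m b) :
    (F m).rel (a := a) (b := b) f x y ↔ (x, y) ∈ f := by
  constructor
  · rintro ⟨z, hz, hzf⟩
    have h1 : z = (x, y) := hz
    have h2 : z ∈ f := hzf
    rwa [h1] at h2
  · intro h
    exact ⟨(x, y), rfl, h⟩

theorem TR2_le (m : ℕ) {a b : Srt} (X : Set (fcar m a)) (Y : Set (fcar m b)) :
    (F m).le (a := a) (b := b) X Y ↔ X.ncard ≤ Y.ncard := by
  classical
  have := TR2_finite m a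
  have := TR2_finite m b
  constructor
  · rintro ⟨f, h1, h2⟩
    have h1' : ∀ x : fcar m a, ∃ y : fcar m b, x ∈ X → y ∈ Y ∧ (F m).rel (a := a) (b := b) f x y := by
      intro x
      by_cases hx : x ∈ X
      · obtain ⟨y, hy, hxy⟩ := h1 x hx
        exact ⟨y, fun _ => ⟨hy, hxy⟩⟩
      · have : Nonempty (fcar m b) := by
          by_contra hne
          by_cases hX : X.Nonempty
          · obtain ⟨x', hx'⟩ := hX
            obtain ⟨y, hy, -⟩ := h1 x' hx'
            exact hne ⟨y⟩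
          · exact hne (TR2_ne m b)
        exact ⟨Classical.arbitrary _, fun h => absurd h hx⟩
    choose g hg using h1'
    refine Set.ncard_le_ncard_of_injOn g (fun x hx => (hg x hx).1) (fun x hx x' hx' hxx => ?_)
      (Set.toFinite Y)
    refine h2 x x' (g x) (hg x hx).2 ?_
    rw [hxx]
    exact (hg x' hx').2
  · intro h
    obtain ⟨Z, hZY, hZ⟩ := Set.exists_subset_card_eq h
    have hc : Nat.card X = Nat.card Z := by
      rw [Nat.card_coe_set_eq, Nat.card_coe_set_eq, hZ]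
    let g : X ≃ Z := (Finite.card_eq.1 hc).some
    let f : Set (fcar m a × fcar m b) := {w | ∃ h : w.1 ∈ X, w.2 = (g ⟨w.1, h⟩ : fcar m b)}
    refine ⟨f, fun x hx => ⟨(g ⟨x, hx⟩ : fcar m b), hZY (g ⟨x, hx⟩).2, ?_⟩, fun x x' y hx hx' => ?_⟩
    · exact (TR2_rel m f x _).2 ⟨hx, rfl⟩
    · obtain ⟨h1, h2⟩ := (TR2_rel m f x y).1 hx
      obtain ⟨h3, h4⟩ := (TR2_rel m f x' y).1 hx'
      have h5 : g ⟨x, h1⟩ = g ⟨x', h3⟩ := Subtype.ext (h2.symm.trans h4)
      exact congrArg Subtype.val (g.injective h5)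
where
  TR2_ne (m : ℕ) : ∀ s : Srt, Nonempty (fcar m s)
    | .base => inferInstanceAs (Nonempty (Fin (m + 1)))
    | .prod a b => by
      have := TR2_ne m a
      have := TR2_ne m b
      exact inferInstanceAs (Nonempty (fcar m a × fcar m b))
    | .pow a => ⟨(∅ : Set (fcar m a))⟩

/-- counting in structures where points can be removed from coded sets -/
theorem TR2_big (M : Str) (hM : ∀ (a : Srt) (X : M.car (.pow a)) (x : M.car a), ∃ Y : M.car (.pow a),
    ∀ y, M.mem a y Y ↔ M.mem a y X ∧ y ≠ x) {a : Srt} (n : ℕ) :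
    ∀ X : M.car (.pow a), M.Big n X ↔ (n : ℕ∞) ≤ (M.ext X).encard := by
  induction n with
  | zero => intro X; simp [Str.Big]
  | succ n ih =>
    intro X
    have key : ∀ (x : M.car a) (Y : M.car (.pow a)), M.mem a x X → (∀ y, M.mem a y Y ↔ M.mem a y X ∧ y ≠ x) →
        (M.ext Y).encard + 1 = (M.ext X).encard := by
      intro x Y hx hY
      have h1 : M.ext Y = M.ext X \ {x} := by
        ext y
        exact hY y
      rw [h1]
      exact Set.encard_sdiff_singleton_add_one hx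
    constructor
    · rintro ⟨x, hx, Y, hY, hb⟩
      rw [← key x Y hx hY]
      push_cast
      exact add_le_add_left ((ih Y).1 hb) 1
    · intro h
      have hne : (M.ext X).Nonempty := by
        rw [← Set.encard_ne_zero]
        intro h0
        rw [h0] at h
        simp at h
      obtain ⟨x, hx⟩ := hne
      obtain ⟨Y, hY⟩ := hM a X x
      refine ⟨x, hx, Y, hY, (ih Y).2 ?_⟩
      rw [← key x Y hx hY] at h
      push_cast at h
      exact (ENat.add_le_add_iff_right ENat.one_ne_top).1 h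

theorem TR2_rem (m : ℕ) (a : Srt) (X : (F m).car (.pow a)) (x : (F m).car a) :
    ∃ Y : (F m).car (.pow a), ∀ y, (F m).mem a y Y ↔ (F m).mem a y X ∧ y ≠ x :=
  ⟨{y | (F m).mem a y X ∧ y ≠ x}, fun _ => Iff.rfl⟩

theorem TR2_ext (m : ℕ) {a : Srt} (X : Set (fcar m a)) : (F m).ext (a := a) X = X := rfl

theorem TR2_bigF (m : ℕ) {a : Srt} (n : ℕ) (X : Set (fcar m a)) :
    (F m).Big (a := a) n X ↔ n ≤ X.ncard := by
  have := TR2_finite m a
  have h1 : X.encard = (X.ncard : ℕ∞) := (Set.toFinite X).cast_ncard_eq.symm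
  have h2 : (n : ℕ∞) ≤ X.encard ↔ n ≤ X.ncard := by
    rw [h1]
    exact Nat.cast_le
  exact (TR2_big (F m) (TR2_rem m) n X).trans h2

section TR
variable {U : Str} (hU : IsModel U)
include hU

theorem TR2_remU (a : Srt) (X : U.car (.pow a)) (x : U.car a) :
    ∃ Y : U.car (.pow a), ∀ y, U.mem a y Y ↔ U.mem a y X ∧ y ≠ x := by
  have hP : Dfn NoC [] (fun M _ _ => ∀ (X : M.car (.pow a)) (x : M.car a), ∃ Y : M.car (.pow a),
      ∀ y, M.mem a y Y ↔ M.mem a y X ∧ y ≠ x) := by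
    refine Dfn.all (Dfn.all (Dfn.ex (Dfn.all ?_)))
    refine Dfn.iff (Dfn.mem IsT.zero IsT.zero.succ) (Dfn.and (Dfn.mem IsT.zero IsT.zero.succ.succ.succ)
      (Dfn.not (Dfn.eq IsT.zero IsT.zero.succ.succ)))
  exact transfer hU hP (Filter.Eventually.of_forall fun m _ X x => TR2_rem m a X x)
    (fun _ c => c.elim) X x

theorem TR_big {a : Srt} (n : ℕ) (X : U.car (.pow a)) : U.Big n X ↔ n ≤ (U.ext X).encard :=
  TR2_big U (TR2_remU hU) n X

theorem TR_base_inf : Infinite (U.car .base) := by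
  have h : ∀ n : ℕ, ∃ X : U.car (.pow .base), U.Big n X := by
    intro n
    have hP : Dfn NoC [] (fun M _ _ => ∃ X : M.car (.pow .base), M.Big n X) :=
      Dfn.ex (Dfn.big n IsT.zero)
    refine transfer hU hP ?_ (fun _ c => c.elim)
    have h1 : ∀ᶠ m in Filter.cofinite, n ≤ m := by
      rw [Nat.cofinite_eq_atTop]
      exact Filter.eventually_ge_atTop n
    have h2 : ∀ᶠ m in (Filter.hyperfilter ℕ : Filter ℕ), n ≤ m := Filter.hyperfilter_le_cofinite h1
    refine h2.mono fun m hm _ => ⟨(Set.univ : Set (fcar m .base)), ?_⟩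
    rw [TR2_bigF]
    have : (Set.univ : Set (fcar m .base)).ncard = m + 1 := by
      rw [Set.ncard_univ]
      exact Nat.card_fin (m + 1)
    omega
  by_contra hfin
  have : Finite (U.car .base) := not_infinite_iff_finite.1 hfin
  obtain ⟨X, hX⟩ := h (Nat.card (U.car .base) + 1)
  rw [TR_big hU, ← (Set.toFinite (U.ext X)).cast_ncard_eq] at hX
  have h1 : Nat.card (U.car .base) + 1 ≤ (U.ext X).ncard := by exact_mod_cast hX
  have h2 : (U.ext X).ncard ≤ Nat.card (U.car .base) := by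
    rw [← Set.ncard_univ]
    exact Set.ncard_le_ncard (Set.subset_univ _) (Set.toFinite _)
  omega

theorem TR_le_refl {a : Srt} (X : U.car (.pow a)) : U.le X X := by
  have hP : Dfn NoC [] (fun M _ _ => ∀ X : M.car (.pow a), M.le X X) :=
    Dfn.all (Dfn.le IsT.zero IsT.zero)
  exact transfer hU hP (Filter.Eventually.of_forall fun m _ X => (TR2_le m X X).2 le_rfl)
    (fun _ c => c.elim) X

theorem TR_le_trans {a b c : Srt} {X : U.car (.pow a)} {Y : U.car (.pow b)} {Z : U.car (.pow c)}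
    (h : U.le X Y) (h' : U.le Y Z) : U.le X Z := by
  have hP : Dfn NoC [] (fun M _ _ => ∀ (X : M.car (.pow a)) (Y : M.car (.pow b)) (Z : M.car (.pow c)),
      M.le X Y → M.le Y Z → M.le X Z) :=
    Dfn.all (Dfn.all (Dfn.all (Dfn.imp (Dfn.le IsT.zero.succ.succ IsT.zero.succ)
      (Dfn.imp (Dfn.le IsT.zero.succ IsT.zero) (Dfn.le IsT.zero.succ.succ IsT.zero)))))
  exact transfer hU hP (Filter.Eventually.of_forall fun m _ X Y Z h h' =>
    (TR2_le m X Z).2 (((TR2_le m X Y).1 h).trans ((TR2_le m Y Z).1 h'))) (fun _ c => c.elim) X Y Z h h'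

theorem TR_le_total {a b : Srt} (X : U.car (.pow a)) (Y : U.car (.pow b)) :
    U.le X Y ∨ U.le Y X := by
  have hP : Dfn NoC [] (fun M _ _ => ∀ (X : M.car (.pow a)) (Y : M.car (.pow b)),
      M.le X Y ∨ M.le Y X) :=
    Dfn.all (Dfn.all (Dfn.or (Dfn.le IsT.zero.succ IsT.zero) (Dfn.le IsT.zero IsT.zero.succ)))
  exact transfer hU hP (Filter.Eventually.of_forall fun m _ X Y =>
    (le_total (Set.ncard (show Set (fcar m a) from X)) (Set.ncard (show Set (fcar m b) from Y))).imp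
      (TR2_le m X Y).2 (TR2_le m Y X).2) (fun _ c => c.elim) X Y

theorem TR_big_le {a b : Srt} {X : U.car (.pow a)} {Y : U.car (.pow b)} {n : ℕ}
    (h : U.Big n X) (h' : U.le X Y) : U.Big n Y := by
  have hP : Dfn NoC [] (fun M _ _ => ∀ (X : M.car (.pow a)) (Y : M.car (.pow b)),
      M.Big n X → M.le X Y → M.Big n Y) :=
    Dfn.all (Dfn.all (Dfn.imp (Dfn.big n IsT.zero.succ) (Dfn.imp (Dfn.le IsT.zero.succ IsT.zero)
      (Dfn.big n IsT.zero))))
  exact transfer hU hP (Filter.Eventually.of_forall fun m _ X Y h h' =>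
    (TR2_bigF m n Y).2 (((TR2_bigF m n X).1 h).trans ((TR2_le m X Y).1 h')))
    (fun _ c => c.elim) X Y h h'

/-- a member of minimal cardinality -/
theorem TR_min {a : Srt} (Ψ : Set (U.car (.pow a))) (hΨ : Def1 U (allPar U) Ψ)
    (hne : Ψ.Nonempty) : ∃ X ∈ Ψ, ∀ Y ∈ Ψ, U.le X Y := by
  obtain ⟨φ, hφ⟩ := hΨ
  have hm : ∀ X : U.car (.pow a), X ∈ Ψ ↔ Sat U (fun _ c => c.1) φ ((X, ()) : Tup U.car [.pow a]) := by
    intro X
    have := Set.ext_iff.1 hφ ((X, ()) : Tup U.car [.pow a])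
    exact this
  have hs1 : ∀ Γ : List Srt, Dfn (fun s => {x // x ∈ allPar U s}) (.pow a :: Γ)
      (fun M e (v : Tup M.car (.pow a :: Γ)) => Sat M e φ ((v.1, ()) : Tup M.car [.pow a])) := fun Γ =>
    (Dfn.sat φ).substV (Δ := .pow a :: Γ)
      (t := fun M _ (v : Tup M.car (.pow a :: Γ)) => ((v.1, ()) : Tup M.car [.pow a]))
      (IsTs.cons IsT.zero IsTs.nil)
  have hP : Dfn (fun s => {x // x ∈ allPar U s}) [] (fun M e _ =>
      (∃ X : M.car (.pow a), Sat M e φ ((X, ()) : Tup M.car [.pow a])) →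
      ∃ X : M.car (.pow a), Sat M e φ ((X, ()) : Tup M.car [.pow a]) ∧
        ∀ Y : M.car (.pow a), Sat M e φ ((Y, ()) : Tup M.car [.pow a]) → M.le X Y) :=
    Dfn.imp (Dfn.ex (hs1 [])) (Dfn.ex (Dfn.and (hs1 []) (Dfn.all (Dfn.imp (hs1 _)
      (Dfn.le IsT.zero.succ IsT.zero)))))
  have h := transfer hU hP (Filter.Eventually.of_forall fun m e => ?_) (fun _ c => c.1)
  · obtain ⟨X, hX, hX2⟩ := h (hne.imp fun X hX => (hm X).1 hX)
    exact ⟨X, (hm X).2 hX, fun Y hY => hX2 Y ((hm Y).1 hY)⟩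
  · intro hex
    classical
    have hex' : ∃ n : ℕ, ∃ X : Set (fcar m a), Sat (F m) e φ ((X, ()) : Tup (F m).car [.pow a]) ∧
        X.ncard = n := by
      obtain ⟨X, hX⟩ := hex
      exact ⟨_, X, hX, rfl⟩
    obtain ⟨X, hX, hXn⟩ := Nat.find_spec hex'
    refine ⟨X, hX, fun Y hY => (TR2_le m X Y).2 ?_⟩
    rw [hXn]
    exact Nat.find_min' hex' ⟨Y, hY, rfl⟩

end TR

end Pool.Agent.Lib_helper58.ID
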