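import Mathlib

/-! # The finite lemma (Bogolyubov's argument in `F_2^V`) -/

namespace Pool.Agent.Lib_helper58.ID

open scoped symmDiff

section FB

variable {V : Type} [Fintype V] [DecidableEq V]

/-- The characters of the group of the subsets of `V`. -/
def FB_chi (S x : Finset V) : ℤ := ∏ v ∈ S, if v ∈ x then (-1) else 1

theorem FB_chi_mul (S x y : Finset V) : FB_chi S (x ∆ y) = FB_chi S x * FB_chi S y := by
  rw [FB_chi, FB_chi, FB_chi, ← Finset.prod_mul_distrib]
  refine Finset.prod_congr rfl fun v _ => ?_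
  by_cases h1 : v ∈ x <;> by_cases h2 : v ∈ y <;> simp [Finset.mem_symmDiff, h1, h2]

theorem FB_chi_cases (S x : Finset V) : FB_chi S x = 1 ∨ FB_chi S x = -1 := by
  rw [FB_chi]
  refine Finset.prod_induction _ (fun z : ℤ => z = 1 ∨ z = -1) ?_ (Or.inl rfl) ?_
  · rintro a b (rfl | rfl) (rfl | rfl) <;> simp
  · intro v _
    by_cases h : v ∈ x <;> simp [h]

theorem FB_chi_sum (x : Finset V) : ∑ S : Finset V, FB_chi S x = if x = ∅ then 2 ^ Fintype.card V else 0 := by
  have h1 : ∏ v : V, (1 + if v ∈ x then (-1 : ℤ) else 1) = ∑ S : Finset V, FB_chi S x := by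
    rw [Finset.prod_one_add, Finset.powerset_univ]
    rfl
  rw [← h1]
  by_cases h : x = ∅
  · rw [if_pos h, h]
    simp [Finset.prod_const]
  · rw [if_neg h]
    obtain ⟨v, hv⟩ := Finset.nonempty_iff_ne_empty.2 h
    refine Finset.prod_eq_zero (Finset.mem_univ v) ?_
    rw [if_pos hv]
    rfl

/-- Fourier coefficient. -/
def FB_f (A : Finset (Finset V)) (S : Finset V) : ℤ := ∑ a ∈ A, FB_chi S a

theorem FB_parseval (A : Finset (Finset V)) :
    ∑ S : Finset V, FB_f A S ^ 2 = 2 ^ Fintype.card V * A.card := by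
  have h1 : ∀ S : Finset V, FB_f A S ^ 2 = ∑ a ∈ A, ∑ b ∈ A, FB_chi S (a ∆ b) := by
    intro S
    rw [sq, FB_f, Finset.sum_mul_sum]
    refine Finset.sum_congr rfl fun a _ => Finset.sum_congr rfl fun b _ => ?_
    rw [FB_chi_mul]
  rw [Finset.sum_congr rfl fun S _ => h1 S, Finset.sum_comm]
  have h2 : ∀ a ∈ A, ∑ S : Finset V, ∑ b ∈ A, FB_chi S (a ∆ b) = 2 ^ Fintype.card V := by
    intro a ha
    rw [Finset.sum_comm]
    rw [Finset.sum_eq_single a]
    · rw [FB_chi_sum, if_pos (by simp)]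
    · intro b _ hb
      rw [FB_chi_sum, if_neg]
      intro h
      exact hb (symmDiff_eq_bot.1 h).symm
    · intro h
      exact absurd ha h
  rw [Finset.sum_congr rfl h2, Finset.sum_const, nsmul_eq_mul, mul_comm]

theorem FB_four (A : Finset (Finset V)) (x : Finset V)
    (h : 0 < ∑ S : Finset V, FB_chi S x * FB_f A S ^ 4) :
    ∃ a ∈ A, ∃ b ∈ A, ∃ c ∈ A, ∃ d ∈ A, x = (a ∆ b) ∆ (c ∆ d) := by
  by_contra hne
  push Not at hne
  have h1 : ∀ S : Finset V, FB_chi S x * FB_f A S ^ 4 =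
      ∑ a ∈ A, ∑ b ∈ A, ∑ c ∈ A, ∑ d ∈ A, FB_chi S (x ∆ ((a ∆ b) ∆ (c ∆ d))) := by
    intro S
    have h2 : ∑ a ∈ A, ∑ b ∈ A, FB_chi S (a ∆ b) = FB_f A S * FB_f A S := by
      rw [FB_f, Finset.sum_mul_sum]
      refine Finset.sum_congr rfl fun a _ => Finset.sum_congr rfl fun b _ => ?_
      rw [FB_chi_mul]
    have h3 : ∀ a b, ∑ c ∈ A, ∑ d ∈ A, FB_chi S (x ∆ ((a ∆ b) ∆ (c ∆ d))) =
        FB_chi S x * FB_chi S (a ∆ b) * (FB_f A S * FB_f A S) := by
      intro a b
      rw [← h2, Finset.mul_sum]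
      refine Finset.sum_congr rfl fun c _ => ?_
      rw [Finset.mul_sum]
      refine Finset.sum_congr rfl fun d _ => ?_
      rw [FB_chi_mul, FB_chi_mul, mul_assoc]
    simp only [h3]
    simp only [← Finset.sum_mul, ← Finset.mul_sum, h2]
    ring
  have h4 : ∑ S : Finset V, FB_chi S x * FB_f A S ^ 4 = 0 := by
    rw [Finset.sum_congr rfl fun S _ => h1 S, Finset.sum_comm]
    refine Finset.sum_eq_zero fun a ha => ?_
    rw [Finset.sum_comm]
    refine Finset.sum_eq_zero fun b hb => ?_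
    rw [Finset.sum_comm]
    refine Finset.sum_eq_zero fun c hc => ?_
    rw [Finset.sum_comm]
    refine Finset.sum_eq_zero fun d hd => ?_
    rw [FB_chi_sum, if_neg]
    intro h5
    exact hne a ha b hb c hc d hd (symmDiff_eq_bot.1 h5)
  rw [h4] at h
  exact lt_irrefl _ h

/-- The large Fourier coefficients. -/
noncomputable def FB_spec (A : Finset (Finset V)) : Finset (Finset V) :=
  Finset.univ.filter fun S => (A.card : ℤ) ^ 3 ≤ 2 ^ Fintype.card V * FB_f A S ^ 2

theorem FB_spec_card (A : Finset (Finset V)) (r : ℕ) (h0 : 0 < A.card)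
    (h : 2 ^ Fintype.card V ≤ r * A.card) : (FB_spec A).card ≤ r ^ 2 := by
  have h1 : ((FB_spec A).card : ℤ) * (A.card : ℤ) ^ 3 ≤
      2 ^ Fintype.card V * (2 ^ Fintype.card V * A.card) := by
    rw [← FB_parseval, Finset.mul_sum, ← nsmul_eq_mul, ← Finset.sum_const]
    calc ∑ _S ∈ FB_spec A, (A.card : ℤ) ^ 3
        ≤ ∑ S ∈ FB_spec A, 2 ^ Fintype.card V * FB_f A S ^ 2 :=
          Finset.sum_le_sum fun S hS => (Finset.mem_filter.1 hS).2
      _ ≤ ∑ S, 2 ^ Fintype.card V * FB_f A S ^ 2 :=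
          Finset.sum_le_sum_of_subset_of_nonneg (Finset.subset_univ _)
            fun S _ _ => by positivity
  have h2 : (2 : ℤ) ^ Fintype.card V ≤ r * A.card := by exact_mod_cast h
  have h3 : (0 : ℤ) < A.card := by exact_mod_cast h0
  have h4 : ((FB_spec A).card : ℤ) * (A.card : ℤ) ^ 3 ≤ (r : ℤ) ^ 2 * (A.card : ℤ) ^ 3 := by
    refine h1.trans ?_
    have h5 : (0 : ℤ) < 2 ^ Fintype.card V := by positivity
    calc (2 : ℤ) ^ Fintype.card V * (2 ^ Fintype.card V * A.card)
        ≤ (r * A.card) * ((r * A.card) * A.card) := by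
          have h6 : (2 : ℤ) ^ Fintype.card V * A.card ≤ (r * A.card) * A.card :=
            mul_le_mul_of_nonneg_right h2 h3.le
          exact mul_le_mul h2 h6 (by positivity) (by positivity)
      _ = (r : ℤ) ^ 2 * (A.card : ℤ) ^ 3 := by ring
  have h5 : ((FB_spec A).card : ℤ) ≤ (r : ℤ) ^ 2 := le_of_mul_le_mul_right h4 (by positivity)
  exact_mod_cast h5

theorem FB_pos (A : Finset (Finset V)) (h0 : 0 < A.card) (x : Finset V)
    (hx : ∀ S ∈ FB_spec A, FB_chi S x = 1) : 0 < ∑ S : Finset V, FB_chi S x * FB_f A S ^ 4 := by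
  have hN : (0 : ℤ) < 2 ^ Fintype.card V := by positivity
  have hA : (0 : ℤ) < A.card := by exact_mod_cast h0
  have hAN : (A.card : ℤ) ≤ 2 ^ Fintype.card V := by
    have h1 := Finset.card_le_univ A
    rw [Fintype.card_finset] at h1
    exact_mod_cast h1
  have hf0 : FB_f A ∅ = A.card := by
    simp [FB_f, FB_chi]
  have hmem : (∅ : Finset V) ∈ FB_spec A := by
    rw [FB_spec, Finset.mem_filter]
    refine ⟨Finset.mem_univ _, ?_⟩
    rw [hf0]
    nlinarith [sq_nonneg (A.card : ℤ), mul_le_mul_of_nonneg_right hAN (sq_nonneg (A.card : ℤ))]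
  -- lower bound termwise
  have h1 : ∀ S : Finset V, 2 ^ Fintype.card V * (FB_chi S x * FB_f A S ^ 4) ≥
      (if S = ∅ then 2 ^ Fintype.card V * (A.card : ℤ) ^ 4 + (A.card : ℤ) ^ 3 * FB_f A S ^ 2 else 0)
        - (A.card : ℤ) ^ 3 * FB_f A S ^ 2 := by
    intro S
    by_cases hS0 : S = ∅
    · rw [if_pos hS0, hx S (hS0 ▸ hmem), hS0, hf0]
      linarith
    · rw [if_neg hS0]
      by_cases hS : S ∈ FB_spec A
      · rw [hx S hS]
        have : 0 ≤ 2 ^ Fintype.card V * (1 * FB_f A S ^ 4) := by positivity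
        have h3 : 0 ≤ (A.card : ℤ) ^ 3 * FB_f A S ^ 2 := by positivity
        linarith
      · have h3 : 2 ^ Fintype.card V * FB_f A S ^ 2 < (A.card : ℤ) ^ 3 := by
          rw [FB_spec, Finset.mem_filter, not_and, not_le] at hS
          exact hS (Finset.mem_univ _)
        have h4 : 2 ^ Fintype.card V * FB_f A S ^ 4 ≤ (A.card : ℤ) ^ 3 * FB_f A S ^ 2 := by
          have := mul_le_mul_of_nonneg_right h3.le (sq_nonneg (FB_f A S))
          calc 2 ^ Fintype.card V * FB_f A S ^ 4 = 2 ^ Fintype.card V * FB_f A S ^ 2 * FB_f A S ^ 2 := by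
                ring
            _ ≤ _ := this
        rcases FB_chi_cases S x with h5 | h5
        · rw [h5]
          have : 0 ≤ 2 ^ Fintype.card V * (1 * FB_f A S ^ 4) := by positivity
          have h6 : 0 ≤ (A.card : ℤ) ^ 3 * FB_f A S ^ 2 := by positivity
          linarith
        · rw [h5]
          linarith
  have h2 : ∑ S : Finset V, 2 ^ Fintype.card V * (FB_chi S x * FB_f A S ^ 4) ≥
      2 ^ Fintype.card V * (A.card : ℤ) ^ 4 + (A.card : ℤ) ^ 3 * (A.card : ℤ) ^ 2 -
        (A.card : ℤ) ^ 3 * (2 ^ Fintype.card V * A.card) := by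
    refine le_trans ?_ (Finset.sum_le_sum fun S _ => h1 S)
    rw [Finset.sum_sub_distrib, Finset.sum_ite_eq' Finset.univ (∅ : Finset V), if_pos (Finset.mem_univ _),
      ← Finset.mul_sum, FB_parseval, hf0]
  rw [← Finset.mul_sum] at h2
  have h3 : 0 < 2 ^ Fintype.card V * ∑ S : Finset V, FB_chi S x * FB_f A S ^ 4 := by
    have h4 : 0 < (A.card : ℤ) ^ 3 * (A.card : ℤ) ^ 2 := by positivity
    nlinarith
  exact (mul_pos_iff_of_pos_left hN).1 h3

/-- A small set with the same values of the given characters as the whole set. -/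
theorem FB_small (C : Finset (Finset V)) : ∃ T : Finset V, T.card ≤ C.card ∧
    ∀ S ∈ C, FB_chi S T = FB_chi S Finset.univ := by
  classical
  obtain ⟨T, hT, hmin⟩ := Finset.exists_min_image
    (Finset.univ.filter fun T : Finset V => ∀ S ∈ C, FB_chi S T = FB_chi S Finset.univ)
    Finset.card ⟨Finset.univ, by simp⟩
  rw [Finset.mem_filter] at hT
  refine ⟨T, ?_, hT.2⟩
  by_contra hlt
  push Not at hlt
  have h1 : (T.powerset.image fun P => C.filter fun S => FB_chi S P = 1).card < T.powerset.card := by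
    calc _ ≤ C.powerset.card := by
          refine Finset.card_le_card ?_
          intro D hD
          rw [Finset.mem_image] at hD
          obtain ⟨P, _, rfl⟩ := hD
          exact Finset.mem_powerset.2 (Finset.filter_subset _ _)
      _ = 2 ^ C.card := Finset.card_powerset _
      _ < 2 ^ T.card := Nat.pow_lt_pow_right (by norm_num) hlt
      _ = _ := (Finset.card_powerset _).symm
  obtain ⟨P, hP, Q, hQ, hPQ, he⟩ := Finset.exists_ne_map_eq_of_card_lt_of_maps_to h1
    (fun P hP => Finset.mem_image_of_mem _ hP)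
  have hR : ∀ S ∈ C, FB_chi S (P ∆ Q) = 1 := by
    intro S hS
    rw [FB_chi_mul]
    have h2 : FB_chi S P = 1 ↔ FB_chi S Q = 1 := by
      have h3 := Finset.ext_iff.1 he S
      simp only [Finset.mem_filter, hS, true_and] at h3
      exact h3
    rcases FB_chi_cases S P with h3 | h3
    · rw [h3, h2.1 h3]
      rfl
    · rcases FB_chi_cases S Q with h4 | h4
      · rw [h2.2 h4, h4]
        rfl
      · rw [h3, h4]
        rfl
  have hsub : P ∆ Q ⊆ T := by
    intro v hv
    rw [Finset.mem_symmDiff] at hv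
    rcases hv with hv | hv
    · exact Finset.mem_powerset.1 hP hv.1
    · exact Finset.mem_powerset.1 hQ hv.1
  have hne : (P ∆ Q).Nonempty := by
    rw [Finset.nonempty_iff_ne_empty]
    intro h
    exact hPQ (symmDiff_eq_bot.1 h)
  have h4 := hmin (T ∆ (P ∆ Q)) (by
    rw [Finset.mem_filter]
    refine ⟨Finset.mem_univ _, fun S hS => ?_⟩
    rw [FB_chi_mul, hR S hS, mul_one, hT.2 S hS])
  have h5 : (T ∆ (P ∆ Q)).card < T.card := by
    refine Finset.card_lt_card ?_
    obtain ⟨v, hv⟩ := hne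
    refine ⟨?_, ?_⟩
    · intro w hw
      rw [Finset.mem_symmDiff] at hw
      rcases hw with hw | hw
      · exact hw.1
      · exact hsub hw.1
    · intro h
      have h6 := h (hsub hv)
      rw [Finset.mem_symmDiff] at h6
      rcases h6 with h6 | h6
      · exact h6.2 hv
      · exact h6.2 (hsub hv)
  omega

end FB

theorem FB_bogo {V : Type} [Finite V] (r : ℕ) (c : Set V → Fin r) :
    ∃ D₁ D₁' D₂ D₂' : Set V, c D₁ = c D₁' ∧ c D₂ = c D₂' ∧
      {x | (x ∈ D₁ ↔ x ∈ D₁') ∧ (x ∈ D₂ ↔ x ∈ D₂')}.ncard ≤ r ^ 2 := by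
  classical
  have := Fintype.ofFinite V
  have hr : 0 < r := lt_of_le_of_lt (Nat.zero_le _) (c ∅).2
  obtain ⟨j, -, hj⟩ : ∃ j ∈ (Finset.univ : Finset (Fin r)), 2 ^ Fintype.card V ≤
      r * (Finset.univ.filter fun a : Finset V => c (a : Set V) = j).card := by
    by_contra hcon
    push Not at hcon
    have h1 : (Finset.univ : Finset (Finset V)).card = ∑ j : Fin r,
        (Finset.univ.filter fun a : Finset V => c (a : Set V) = j).card :=
      Finset.card_eq_sum_card_fiberwise fun _ _ => Finset.mem_coe.2 (Finset.mem_univ _)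
    rw [Finset.card_univ, Fintype.card_finset] at h1
    have h2 : r * 2 ^ Fintype.card V < r * 2 ^ Fintype.card V := by
      calc r * 2 ^ Fintype.card V = ∑ j : Fin r,
            r * (Finset.univ.filter fun a : Finset V => c (a : Set V) = j).card := by
            rw [← Finset.mul_sum, ← h1]
        _ < ∑ _j : Fin r, 2 ^ Fintype.card V :=
            Finset.sum_lt_sum_of_nonempty ⟨⟨0, hr⟩, Finset.mem_univ _⟩ fun j hj => hcon j hj
        _ = r * 2 ^ Fintype.card V := by
            rw [Finset.sum_const, Finset.card_univ, Fintype.card_fin, smul_eq_mul]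
    exact lt_irrefl _ h2
  set A := Finset.univ.filter fun a : Finset V => c (a : Set V) = j with hA
  have h0 : 0 < A.card := by
    rcases Nat.eq_zero_or_pos A.card with h | h
    · rw [h, mul_zero] at hj
      exact absurd hj (by
        have : 0 < 2 ^ Fintype.card V := by positivity
        omega)
    · exact h
  obtain ⟨T, hT1, hT2⟩ := FB_small (FB_spec A)
  have hpos := FB_pos A h0 (Finset.univ ∆ T) (fun S hS => by
    rw [FB_chi_mul, hT2 S hS]
    rcases FB_chi_cases S Finset.univ with h | h <;> rw [h] <;> rfl)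
  obtain ⟨a, ha, b, hb, a', ha', b', hb', hab⟩ := FB_four A _ hpos
  rw [hA, Finset.mem_filter] at ha hb ha' hb'
  refine ⟨a, b, a', b', ha.2.trans hb.2.symm, ha'.2.trans hb'.2.symm, ?_⟩
  have hsub : {x | (x ∈ (a : Set V) ↔ x ∈ (b : Set V)) ∧ (x ∈ (a' : Set V) ↔ x ∈ (b' : Set V))} ⊆
      (T : Set V) := by
    intro x hx
    obtain ⟨hx1, hx2⟩ := hx
    simp only [Finset.mem_coe] at hx1 hx2 ⊢
    by_contra hxT
    have h1 : x ∈ Finset.univ ∆ T := by
      rw [Finset.mem_symmDiff]
      exact Or.inl ⟨Finset.mem_univ _, hxT⟩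
    rw [hab, Finset.mem_symmDiff, Finset.mem_symmDiff, Finset.mem_symmDiff] at h1
    tauto
  calc _ ≤ (T : Set V).ncard := Set.ncard_le_ncard hsub (Finset.finite_toSet T)
    _ = T.card := Set.ncard_coe_finset T
    _ ≤ (FB_spec A).card := hT1
    _ ≤ r ^ 2 := FB_spec_card A r h0 hj

end Pool.Agent.Lib_helper58.ID
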