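import Pool.Agent.Lib_helper58.ID.TR1
import Pool.Agent.Lib_helper58.ID.FB

/-!
# MP_bc6371_lc, block TR3: the finite lemma transferred
-/

set_option autoImplicit false

namespace Pool.Agent.Lib_helper58.ID

open Cardinal

theorem TR3_finite (m : ℕ) : ∀ a : Srt, Finite (fcar m a)
  | .base => inferInstanceAs (Finite (Fin (m + 1)))
  | .prod a b => by
      have := TR3_finite m a
      have := TR3_finite m b
      exact inferInstanceAs (Finite (fcar m a × fcar m b))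
  | .pow a => by
      have := TR3_finite m a
      exact inferInstanceAs (Finite (Set (fcar m a)))

theorem TR3_big (m : ℕ) {a : Srt} : ∀ (n : ℕ) (X : Set (fcar m a)),
    (F m).Big (a := a) n X → n ≤ X.ncard := by
  intro n
  have := TR3_finite m a
  induction n with
  | zero => intro X _; exact Nat.zero_le _
  | succ n ih =>
      intro X hX
      obtain ⟨x, hx, Y, hY, hB⟩ := hX
      have hx' : x ∈ X := hx
      have hY' : (Y : Set (fcar m a)) = X \ {x} := Set.ext fun y => hY y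
      have h1 := ih Y hB
      have h2 : (X \ {x}).ncard + 1 = X.ncard := Set.ncard_sdiff_singleton_add_one hx' (Set.toFinite _)
      rw [hY'] at h1
      omega

theorem TR3_le (m : ℕ) {a b : Srt} (X : Set (fcar m a)) (Y : Set (fcar m b))
    (h : X.ncard ≤ Y.ncard) : (F m).le (a := a) (b := b) X Y := by
  classical
  have := TR3_finite m a
  have := TR3_finite m b
  have : Fintype X := Fintype.ofFinite _
  have : Fintype Y := Fintype.ofFinite _
  have h' : Fintype.card X ≤ Fintype.card Y := by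
    rw [← Nat.card_eq_fintype_card, ← Nat.card_eq_fintype_card]
    exact h
  obtain ⟨g⟩ := Function.Embedding.nonempty_of_card_le h'
  refine ⟨({z : fcar m a × fcar m b | ∃ h : z.1 ∈ X, (g ⟨z.1, h⟩ : fcar m b) = z.2} :
    Set (fcar m a × fcar m b)), ?_, ?_⟩
  · intro x hx
    have hx' : x ∈ X := hx
    exact ⟨(g ⟨x, hx'⟩ : fcar m b), (g ⟨x, hx'⟩).2, (x, (g ⟨x, hx'⟩ : fcar m b)), rfl, hx', rfl⟩
  · rintro x x' y ⟨z, hz, h1, h2⟩ ⟨z', hz', h1', h2'⟩
    have e : z = (x, y) := hz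
    have e' : z' = (x', y) := hz'
    subst e e'
    have : g ⟨x, h1⟩ = g ⟨x', h1'⟩ := Subtype.ext (h2.trans h2'.symm)
    have := g.injective this
    exact congrArg Subtype.val this

theorem TR_bogo {U : Str} (hU : IsModel U) {a c : Srt} (s : ℕ) (Ψ : Fin s → Set (U.car (.pow a)))
    (hΨ : ∀ j, Def1 U (allPar U) (Ψ j)) (S : U.car (.pow c)) (hS : U.Big (4 ^ s) S) :
    ∃ D₁ D₁' D₂ D₂' E : U.car (.pow a),
      (∀ j, (D₁ ∈ Ψ j ↔ D₁' ∈ Ψ j) ∧ (D₂ ∈ Ψ j ↔ D₂' ∈ Ψ j)) ∧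
      (∀ x, U.mem a x E ↔ ((U.mem a x D₁ ↔ U.mem a x D₁') ∧ (U.mem a x D₂ ↔ U.mem a x D₂'))) ∧
      U.le E S := by
  choose φ hφ using hΨ
  let C : Srt → Type := fun s => {x // x ∈ allPar U s}
  let S' : C (.pow c) := ⟨S, trivial⟩
  have key := transfer (C := C) hU (P := fun M e => M.Big (4 ^ s) (e (.pow c) S') →
    ∃ D₁ D₁' D₂ D₂' E : M.car (.pow a),
      (∀ j : Fin s, ((Sat M e (φ j) ((D₁, ()) : Tup M.car [.pow a]) ↔
          Sat M e (φ j) ((D₁', ()) : Tup M.car [.pow a])) ∧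
        (Sat M e (φ j) ((D₂, ()) : Tup M.car [.pow a]) ↔
          Sat M e (φ j) ((D₂', ()) : Tup M.car [.pow a])))) ∧
      (∀ x, M.mem a x E ↔ ((M.mem a x D₁ ↔ M.mem a x D₁') ∧ (M.mem a x D₂ ↔ M.mem a x D₂'))) ∧
      M.le E (e (.pow c) S')) ?_ ?_ (fun _ a => a.1) hS
  · obtain ⟨D₁, D₁', D₂, D₂', E, h1, h2, h3⟩ := key
    refine ⟨D₁, D₁', D₂, D₂', E, fun j => ?_, h2, h3⟩
    have hj : ∀ D : U.car (.pow a), (D ∈ Ψ j ↔
        Sat U (fun _ a => a.1) (φ j) ((D, ()) : Tup U.car [.pow a])) := by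
      intro D
      have := Set.ext_iff.1 (hφ j) ((D, ()) : Tup U.car [.pow a])
      exact this
    rw [hj, hj, hj, hj]
    exact h1 j
  · refine Dfn.imp (Dfn.big _ (IsT.cst S')) ?_
    refine Dfn.ex (Dfn.ex (Dfn.ex (Dfn.ex (Dfn.ex ?_))))
    refine Dfn.and (Dfn.allFin fun j => ?_) (Dfn.and ?_ ?_)
    · refine Dfn.and (Dfn.iff ?_ ?_) (Dfn.iff ?_ ?_)
      · exact Dfn.substV (Dfn.sat (φ j)) (IsTs.cons (IsT.zero.succ.succ.succ.succ) IsTs.nil)
      · exact Dfn.substV (Dfn.sat (φ j)) (IsTs.cons (IsT.zero.succ.succ.succ) IsTs.nil)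
      · exact Dfn.substV (Dfn.sat (φ j)) (IsTs.cons (IsT.zero.succ.succ) IsTs.nil)
      · exact Dfn.substV (Dfn.sat (φ j)) (IsTs.cons (IsT.zero.succ) IsTs.nil)
    · refine Dfn.all ?_
      exact Dfn.iff (Dfn.mem IsT.zero IsT.zero.succ)
        (Dfn.and (Dfn.iff (Dfn.mem IsT.zero IsT.zero.succ.succ.succ.succ.succ)
          (Dfn.mem IsT.zero IsT.zero.succ.succ.succ.succ))
          (Dfn.iff (Dfn.mem IsT.zero IsT.zero.succ.succ.succ)
          (Dfn.mem IsT.zero IsT.zero.succ.succ)))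
    · exact Dfn.le IsT.zero (IsT.cst S')
  · refine Filter.Eventually.of_forall fun m e hB => ?_
    classical
    have := TR3_finite m a
    have hc : Fintype.card (Set (Fin s)) = 2 ^ s := by
      rw [Fintype.card_set, Fintype.card_fin]
    let q : Set (Fin s) ≃ Fin (2 ^ s) := Fintype.equivFinOfCardEq hc
    let col : Set (fcar m a) → Fin (2 ^ s) := fun D => q {j | Sat (F m) e (φ j)
      ((D, ()) : Tup (F m).car [.pow a])}
    obtain ⟨D₁, D₁', D₂, D₂', h1, h2, h3⟩ := FB_bogo (V := fcar m a) (2 ^ s) col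
    have e1 := Set.ext_iff.1 (q.injective h1)
    have e2 := Set.ext_iff.1 (q.injective h2)
    refine ⟨D₁, D₁', D₂, D₂', ({x | (x ∈ D₁ ↔ x ∈ D₁') ∧ (x ∈ D₂ ↔ x ∈ D₂')} :
      Set (fcar m a)), fun j => ⟨e1 j, e2 j⟩, fun x => Iff.rfl, ?_⟩
    refine TR3_le m _ _ (h3.trans ?_)
    have := TR3_big m _ _ hB
    refine le_trans (le_of_eq ?_) this
    rw [← pow_mul, mul_comm, pow_mul]
    norm_num

end Pool.Agent.Lib_helper58.ID
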