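import Pool.Agent.Lib_helper58.ID.CT2
import Pool.Agent.Lib_helper58.ID.TR2
import Pool.Agent.Lib_helper58.ID.TR3

/-!
# MP_bc6371_lc: block TH (invariant types are thin)
-/

namespace Pool.Agent.Lib_helper58.ID

open Cardinal

theorem TH_mem {U : Str} {A : Par U} {a : Srt} (D : U.car (.pow a)) (hD : D ∈ A (.pow a)) :
    DefOver U A [a] {v | v.1 ∈ U.ext D} := by
  have h : Dfn (fun s => {x // x ∈ A s}) [a]
      (fun M e v => M.mem a v.1 (e (.pow a) ⟨D, hD⟩)) :=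
    Dfn.mem IsT.zero (IsT.cst _)
  exact DefOver.of_dfn h (fun _ x => x.1) (fun _ x => x.2)

theorem TH_iff {U : Str} {A : Par U} {Γ : List Srt} {P Q : Set (Tup U.car Γ)}
    (hP : DefOver U A Γ P) (hQ : DefOver U A Γ Q) :
    DefOver U A Γ {v | v ∈ P ↔ v ∈ Q} := by
  have h := (hP.inter hQ).union (hP.compl.inter hQ.compl)
  have he : {v | v ∈ P ↔ v ∈ Q} = (P ∩ Q) ∪ (Pᶜ ∩ Qᶜ) := by
    ext v
    simp only [Set.mem_ofPred_eq, Set.mem_union, Set.mem_inter_iff, Set.mem_compl_iff]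
    tauto
  rw [he]
  exact h

theorem TH_typ_iff {U : Str} {a : Srt} (p : Typ U (allPar U) [a]) (D D' : U.car (.pow a))
    (h : {v : Tup U.car [a] | v.1 ∈ U.ext D} ∈ p.sets ↔
      {v : Tup U.car [a] | v.1 ∈ U.ext D'} ∈ p.sets) :
    {v : Tup U.car [a] | v.1 ∈ U.ext D ↔ v.1 ∈ U.ext D'} ∈ p.sets := by
  have hd : DefOver U (allPar U) [a] {v | v.1 ∈ U.ext D} := TH_mem D trivial
  have hd' : DefOver U (allPar U) [a] {v | v.1 ∈ U.ext D'} := TH_mem D' trivial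
  have hdd : DefOver U (allPar U) [a] {v | v.1 ∈ U.ext D ↔ v.1 ∈ U.ext D'} := TH_iff hd hd'
  by_cases h1 : {v : Tup U.car [a] | v.1 ∈ U.ext D} ∈ p.sets
  · refine p.mono _ (p.inter _ h1 _ (h.1 h1)) _ hdd ?_
    rintro v ⟨hv, hv'⟩
    exact iff_of_true hv hv'
  · have h2 : {v : Tup U.car [a] | v.1 ∈ U.ext D'} ∉ p.sets := fun hh => h1 (h.2 hh)
    have h3 := (p.ultra _ hd).resolve_left h1
    have h4 := (p.ultra _ hd').resolve_left h2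
    refine p.mono _ (p.inter _ h3 _ h4) _ hdd ?_
    rintro v ⟨hv, hv'⟩
    exact iff_of_false hv hv'

theorem TH_inv {U : Str} {a : Srt} {N : Par U} {p : Set (Set (Tup U.car [a]))}
    (hp : InvOver U N p) (D D' : U.car (.pow a))
    (h : ∀ Ψ : Set (U.car (.pow a)), Def1 U N Ψ → (D ∈ Ψ ↔ D' ∈ Ψ)) :
    {v : Tup U.car [a] | v.1 ∈ U.ext D} ∈ p ↔ {v : Tup U.car [a] | v.1 ∈ U.ext D'} ∈ p := by
  have hR : DefOver U (noPar U) ([a] ++ [.pow a])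
      {v : Tup U.car [a, .pow a] | U.mem a v.1 v.2.1} := by
    have h : Dfn (fun s => {x // x ∈ noPar U s}) [a, .pow a]
        (fun M _ v => M.mem a v.1 v.2.1) := Dfn.mem IsT.zero (IsT.succ IsT.zero)
    exact DefOver.of_dfn h (fun _ x => x.1) (fun _ x => x.2)
  exact hp [.pow a] _ hR (D, ()) (D', ()) (fun E hE => h {x | (x, ()) ∈ E} hE)

theorem TH_thin {κ : Cardinal.{0}} (hκ : ℵ₀ < κ) {U : Str} (hU : IsModel U)
    (hs : Saturated κ U) {a c : Srt} {N : Par U} (hN : Small κ N)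
    (p : Typ U (allPar U) [a]) (hp : InvOver U N p.sets) (V : U.car (.pow a))
    (hV : {v : Tup U.car [a] | v.1 ∈ U.ext V} ∈ p.sets) (S : U.car (.pow c))
    (hS : (U.ext S).Infinite) :
    ∃ E : U.car (.pow a), U.ext E ⊆ U.ext V ∧ {v : Tup U.car [a] | v.1 ∈ U.ext E} ∈ p.sets ∧
      U.le E S := by
  classical
  obtain ⟨B, hB, hSB⟩ := CT_one hκ (U := U) ({S} : Set (U.car (.pow c)))
    (by rw [Cardinal.mk_singleton]; exact Cardinal.one_lt_aleph0.trans hκ)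
  have hS' : S ∈ B (.pow c) := hSB rfl
  let A : Par U := fun s => N s ∪ B s
  have hA : Small κ A := CT_sup hκ hN hB
  let Γ : List Srt := [.pow a, .pow a, .pow a, .pow a, .pow a]
  let W1 : Set (Tup U.car Γ) := {v | ∀ x, U.mem a x v.2.2.2.2.1 ↔
      ((U.mem a x v.1 ↔ U.mem a x v.2.1) ∧ (U.mem a x v.2.2.1 ↔ U.mem a x v.2.2.2.1))}
  let W2 : Set (Tup U.car Γ) := {v | U.le v.2.2.2.2.1 S}
  let W : Set (U.car (.pow a)) → Set (Tup U.car Γ) := fun Ψ =>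
    {v | (v.1 ∈ Ψ ↔ v.2.1 ∈ Ψ) ∧ (v.2.2.1 ∈ Ψ ↔ v.2.2.2.1 ∈ Ψ) ∧ v ∈ W1 ∧ v ∈ W2}
  let 𝓕 : Set (Set (Tup U.car Γ)) := {D | DefOver U A Γ D ∧ ∃ Ψ, Def1 U N Ψ ∧ W Ψ ⊆ D}
  have hne : (⋂₀ 𝓕).Nonempty := by
    refine hs A hA Γ 𝓕 (fun D hD => hD.1) ?_
    intro 𝓖 h𝓖 hfin
    have h1 : ∀ D : {D // D ∈ 𝓖}, ∃ Ψ, Def1 U N Ψ ∧ W Ψ ⊆ D.1 := fun D => (h𝓖 D.2).2
    choose f hf hf' using h1
    have : Finite {D // D ∈ 𝓖} := hfin
    obtain ⟨s, ⟨e⟩⟩ := Finite.exists_equiv_fin {D // D ∈ 𝓖}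
    have hbig : U.Big (4 ^ s) S := by
      rw [TR_big hU, hS.encard_eq]
      exact le_top
    obtain ⟨D₁, D₁', D₂, D₂', E, hE1, hE2, hE3⟩ := TR_bogo hU s (fun j => f (e.symm j))
      (fun j => (hf (e.symm j)).mono (fun s x _ => trivial)) S hbig
    refine ⟨(D₁, D₁', D₂, D₂', E, ()), ?_⟩
    intro D hD
    apply hf' ⟨D, hD⟩
    have h2 := hE1 (e ⟨D, hD⟩)
    rw [e.symm_apply_apply] at h2
    exact ⟨h2.1, h2.2, hE2, hE3⟩
  obtain ⟨v, hv⟩ := hne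
  have hNA : ∀ s, N s ⊆ A s := fun s => Set.subset_union_left
  have hBA : ∀ s, B s ⊆ A s := fun s => Set.subset_union_right
  have hv1 : v ∈ W1 := by
    apply hv
    refine ⟨?_, Set.univ, ?_, fun w hw => hw.2.2.1⟩
    · have h : Dfn (fun s => {x // x ∈ A s}) Γ
          (fun M _ v => ∀ x, M.mem a x v.2.2.2.2.1 ↔
            ((M.mem a x v.1 ↔ M.mem a x v.2.1) ∧ (M.mem a x v.2.2.1 ↔ M.mem a x v.2.2.2.1))) :=
        Dfn.all (Dfn.iff (Dfn.mem IsT.zero (IsT.succ (IsT.succ (IsT.succ (IsT.succ (IsT.succ IsT.zero))))))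
          (Dfn.and (Dfn.iff (Dfn.mem IsT.zero (IsT.succ IsT.zero))
            (Dfn.mem IsT.zero (IsT.succ (IsT.succ IsT.zero))))
            (Dfn.iff (Dfn.mem IsT.zero (IsT.succ (IsT.succ (IsT.succ IsT.zero))))
            (Dfn.mem IsT.zero (IsT.succ (IsT.succ (IsT.succ (IsT.succ IsT.zero))))))))
      exact DefOver.of_dfn h (fun _ x => x.1) (fun _ x => x.2)
    · exact DefOver.univ
  have hv2 : v ∈ W2 := by
    apply hv
    refine ⟨?_, Set.univ, ?_, fun w hw => hw.2.2.2⟩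
    · have h : Dfn (fun s => {x // x ∈ A s}) Γ
          (fun M e v => M.le v.2.2.2.2.1 (e (.pow c) ⟨S, hBA _ hS'⟩)) :=
        Dfn.le (IsT.succ (IsT.succ (IsT.succ (IsT.succ IsT.zero)))) (IsT.cst _)
      exact DefOver.of_dfn h (fun _ x => x.1) (fun _ x => x.2)
    · exact DefOver.univ
  have hv3 : ∀ Ψ : Set (U.car (.pow a)), Def1 U N Ψ → (v.1 ∈ Ψ ↔ v.2.1 ∈ Ψ) := by
    intro Ψ hΨ
    have hm : {w : Tup U.car Γ | w.1 ∈ Ψ ↔ w.2.1 ∈ Ψ} ∈ 𝓕 := by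
      refine ⟨?_, Ψ, hΨ, fun w hw => hw.1⟩
      have hΨ' : DefOver U A [.pow a] {v | v.1 ∈ Ψ} := DefOver.mono hΨ hNA
      have g1 : DefOver U A Γ {w | w.1 ∈ Ψ} :=
        DefOver.pre hΨ' (Δ := Γ)
            (t := fun M _ v => ((v.1, ()) : Tup M.car [.pow a]))
          (IsTs.cons IsT.zero IsTs.nil)
      have g2 : DefOver U A Γ {w | w.2.1 ∈ Ψ} :=
        DefOver.pre hΨ' (Δ := Γ)
            (t := fun M _ v => ((v.2.1, ()) : Tup M.car [.pow a]))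
          (IsTs.cons (IsT.succ IsT.zero) IsTs.nil)
      exact TH_iff g1 g2
    exact hv _ hm
  have hv4 : ∀ Ψ : Set (U.car (.pow a)), Def1 U N Ψ → (v.2.2.1 ∈ Ψ ↔ v.2.2.2.1 ∈ Ψ) := by
    intro Ψ hΨ
    have hm : {w : Tup U.car Γ | w.2.2.1 ∈ Ψ ↔ w.2.2.2.1 ∈ Ψ} ∈ 𝓕 := by
      refine ⟨?_, Ψ, hΨ, fun w hw => hw.2.1⟩
      have hΨ' : DefOver U A [.pow a] {v | v.1 ∈ Ψ} := DefOver.mono hΨ hNA
      have g1 : DefOver U A Γ {w | w.2.2.1 ∈ Ψ} :=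
        DefOver.pre hΨ' (Δ := Γ)
            (t := fun M _ v => ((v.2.2.1, ()) : Tup M.car [.pow a]))
          (IsTs.cons (IsT.succ (IsT.succ IsT.zero)) IsTs.nil)
      have g2 : DefOver U A Γ {w | w.2.2.2.1 ∈ Ψ} :=
        DefOver.pre hΨ' (Δ := Γ)
            (t := fun M _ v => ((v.2.2.2.1, ()) : Tup M.car [.pow a]))
          (IsTs.cons (IsT.succ (IsT.succ (IsT.succ IsT.zero))) IsTs.nil)
      exact TH_iff g1 g2
    exact hv _ hm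
  have k1 := TH_typ_iff p _ _ (TH_inv hp _ _ hv3)
  have k2 := TH_typ_iff p _ _ (TH_inv hp _ _ hv4)
  have k3 : {w : Tup U.car [a] | w.1 ∈ U.ext v.2.2.2.2.1} ∈ p.sets := by
    refine p.mono _ (p.inter _ k1 _ k2) _ (TH_mem (A := allPar U) _ trivial) ?_
    rintro w ⟨hw1, hw2⟩
    exact (hv1 w.1).2 ⟨hw1, hw2⟩
  have hdE : DefOver U (allPar U) [a] {w | w.1 ∈ U.ext v.2.2.2.2.1 ∩ U.ext V} :=
    (TH_mem (A := allPar U) _ trivial).inter (TH_mem (A := allPar U) V trivial)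
  obtain ⟨E, hE⟩ := TR_compr hU (U.ext v.2.2.2.2.1 ∩ U.ext V) hdE
  refine ⟨E, ?_, ?_, ?_⟩
  · rw [hE]; exact Set.inter_subset_right
  · rw [hE]
    exact p.inter _ k3 _ hV
  · obtain ⟨f, hf1, hf2⟩ := hv2
    refine ⟨f, ?_, hf2⟩
    intro x hx
    have : x ∈ U.ext E := hx
    rw [hE] at this
    exact hf1 x this.1

end Pool.Agent.Lib_helper58.ID
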