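import Pool.Agent.Lib_helper58.ID.ST2
import Pool.Agent.Lib_helper58.ID.TH

/-!
# MP_bc6371_lc: block CO1 (invariant types of single elements are coheirs)
-/

namespace Pool.Agent.Lib_helper58.ID

open Cardinal

theorem CO_sing {U : Str} {N : Par U} {a : Srt} (c : U.car a) (hc : c ∈ N a) :
    Def1 U N {x : U.car a | x = c} := by
  have h : Dfn (fun s => {x // x ∈ N s}) [a] (fun _ e v => v.1 = e a ⟨c, hc⟩) :=
    Dfn.eq IsT.zero (IsT.cst _)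
  exact DefOver.of_dfn h (fun _ a => a.1) (fun _ c => c.2)

theorem CO_finDef {U : Str} {N : Par U} {a : Srt} (D : Set (U.car a)) (hD : D.Finite)
    (hN : D ⊆ N a) : Def1 U N D := by
  induction D, hD using Set.Finite.induction_on with
  | empty => exact DefOver.empty (U := U) (A := N) (Γ := [a])
  | @insert c D _ _ ih =>
    have h1 := CO_sing (N := N) c (hN (Set.mem_insert _ _))
    have h2 := ih ((Set.subset_insert _ _).trans hN)
    exact DefOver.union h1 h2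

/-- finite definable sets are contained in a closed parameter set -/
theorem CO_finN {U : Str} {N : Par U} (hc : Closed U N) {a : Srt} (D : Set (U.car a))
    (hD : D.Finite) (hdef : Def1 U N D) : D ⊆ N a := by
  intro x hx
  by_contra hxN
  have h1 : Def1 U N (D ∩ N a) :=
    CO_finDef _ (hD.subset Set.inter_subset_left) Set.inter_subset_right
  have h2 : Def1 U N (D ∩ (D ∩ N a)ᶜ) := DefOver.inter hdef (DefOver.compl h1)
  obtain ⟨y, hy, hyN⟩ := hc a _ h2 ⟨x, hx, fun h => hxN h.2⟩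
  exact hy.2 ⟨hy.1, hyN⟩

/-- the pairs of disjoint coded sets -/
theorem CO_disj {U : Str} {N : Par U} (a : Srt) :
    DefOver U N [.pow a, .pow a]
      {v : Tup U.car [.pow a, .pow a] | ∀ x, U.mem a x v.1 → ¬ U.mem a x v.2.1} := by
  have h : Dfn (fun s => {x // x ∈ N s}) [.pow a, .pow a]
      (fun M _ v => ∀ x, M.mem a x v.1 → ¬ M.mem a x v.2.1) :=
    Dfn.all (Dfn.imp (Dfn.mem IsT.zero (IsT.succ IsT.zero))
      (Dfn.not (Dfn.mem IsT.zero (IsT.succ (IsT.succ IsT.zero)))))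
  exact DefOver.of_dfn h (fun _ a => a.1) (fun _ c => c.2)

theorem CO_pull1 {U : Str} {N : Par U} {s t : Srt} {D : Set (Tup U.car [s])}
    (h : DefOver U N [s] D) : DefOver U N [s, t] {v : Tup U.car [s, t] | (v.1, ()) ∈ D} :=
  DefOver.pre (Δ := [s, t]) h (t := fun M _ (v : Tup M.car [s, t]) => ((v.1, ()) : Tup M.car [s]))
    (IsTs.cons IsT.zero IsTs.nil)

theorem CO_pull2 {U : Str} {N : Par U} {s t : Srt} {D : Set (Tup U.car [t])}
    (h : DefOver U N [t] D) : DefOver U N [s, t] {v : Tup U.car [s, t] | (v.2.1, ()) ∈ D} :=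
  DefOver.pre (Δ := [s, t]) h (t := fun M _ (v : Tup M.car [s, t]) => ((v.2.1, ()) : Tup M.car [t]))
    (IsTs.cons (IsT.succ IsT.zero) IsTs.nil)

/-- members of minimal cardinality -/
theorem CO_minDef {U : Str} {N : Par U} {a : Srt} (Ψ : Set (U.car (.pow a)))
    (hΨ : Def1 U N Ψ) : Def1 U N {X | X ∈ Ψ ∧ ∀ Y ∈ Ψ, U.le X Y} := by
  obtain ⟨φ, hφ⟩ := hΨ
  have hφ' : ∀ Y : U.car (.pow a), Y ∈ Ψ ↔ Sat U (fun _ a => a.1) φ (Y, ()) := fun Y => by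
    have := Set.ext_iff.1 hφ (Y, ())
    exact this
  have h : Dfn (fun s => {x // x ∈ N s}) [.pow a]
      (fun M e v => Sat M e φ (v.1, ()) ∧ ∀ Y, Sat M e φ (Y, ()) → M.le v.1 Y) := by
    refine Dfn.and ?_ (Dfn.all (Dfn.imp ?_ ?_))
    · exact Dfn.substV (Δ := [.pow a]) (Dfn.sat φ)
        (t := fun M _ (v : Tup M.car [.pow a]) => ((v.1, ()) : Tup M.car [.pow a]))
        (IsTs.cons IsT.zero IsTs.nil)
    · exact Dfn.substV (Δ := [.pow a, .pow a]) (Dfn.sat φ)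
        (t := fun M _ (v : Tup M.car [.pow a, .pow a]) => ((v.1, ()) : Tup M.car [.pow a]))
        (IsTs.cons IsT.zero IsTs.nil)
    · exact Dfn.le (IsT.succ IsT.zero) IsT.zero
  have h2 := DefOver.of_dfn (A := N) h (fun _ a => a.1) (fun _ c => c.2)
  have h3 : {v : Tup U.car [.pow a] | v.1 ∈ {X | X ∈ Ψ ∧ ∀ Y ∈ Ψ, U.le X Y}} =
      {v | Sat U (fun _ a => a.1) φ (v.1, ()) ∧
        ∀ Y, Sat U (fun _ a => a.1) φ (Y, ()) → U.le v.1 Y} := by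
    ext v
    simp only [Set.mem_ofPred_eq, hφ']
  rw [Def1, h3]
  exact h2

/-- compactness: a definable set of coded sets, any two of which meet -/
theorem CO_meet {κ : Cardinal.{0}} {U : Str} (hs : Saturated κ U) {a : Srt} {N : Par U}
    (hN : Small κ N) (E : U.car (.pow a))
    (h : ∀ X Y : U.car (.pow a), (∀ Ψ, Def1 U N Ψ → E ∈ Ψ → X ∈ Ψ) →
      (∀ Ψ, Def1 U N Ψ → E ∈ Ψ → Y ∈ Ψ) → ∃ x, U.mem a x X ∧ U.mem a x Y) :
    ∃ Ψ : Set (U.car (.pow a)), Def1 U N Ψ ∧ E ∈ Ψ ∧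
      ∀ X ∈ Ψ, ∀ Y ∈ Ψ, ∃ x, U.mem a x X ∧ U.mem a x Y := by
  classical
  by_contra hcon
  push Not at hcon
  set d : Set (Tup U.car [.pow a, .pow a]) :=
    {v | ∀ x, U.mem a x v.1 → ¬ U.mem a x v.2.1} with hd
  have key := hs N hN [.pow a, .pow a]
    {G | ∃ Ψ : Set (U.car (.pow a)), Def1 U N Ψ ∧ E ∈ Ψ ∧
      G = {v : Tup U.car [.pow a, .pow a] | (v.1 ∈ Ψ ∧ v.2.1 ∈ Ψ) ∧ v ∈ d}} ?_ ?_
  · obtain ⟨v, hv⟩ := key
    have hv' : ∀ Ψ, Def1 U N Ψ → E ∈ Ψ → (v.1 ∈ Ψ ∧ v.2.1 ∈ Ψ) ∧ v ∈ d := fun Ψ h1 h2 =>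
      Set.mem_sInter.1 hv _ ⟨Ψ, h1, h2, rfl⟩
    obtain ⟨x, hx1, hx2⟩ := h v.1 v.2.1 (fun Ψ h1 h2 => (hv' Ψ h1 h2).1.1)
      (fun Ψ h1 h2 => (hv' Ψ h1 h2).1.2)
    have huniv : Def1 U N (Set.univ : Set (U.car (.pow a))) :=
      DefOver.univ (U := U) (A := N) (Γ := [.pow a])
    exact (hv' _ huniv (Set.mem_univ _)).2 x hx1 hx2
  · rintro _ ⟨Ψ, h1, h2, rfl⟩
    exact DefOver.inter (DefOver.inter (CO_pull1 h1) (CO_pull2 h1)) (CO_disj a)
  · intro 𝓖 h𝓖 hfin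
    -- the intersection of the finitely many formulas
    have hΨ : ∀ G ∈ 𝓖, ∃ Ψ : Set (U.car (.pow a)), Def1 U N Ψ ∧ E ∈ Ψ ∧
      G = {v : Tup U.car [.pow a, .pow a] | (v.1 ∈ Ψ ∧ v.2.1 ∈ Ψ) ∧ v ∈ d} :=
      fun G hG => h𝓖 hG
    have hmain : ∃ Ψ : Set (U.car (.pow a)), Def1 U N Ψ ∧ E ∈ Ψ ∧
        {v : Tup U.car [.pow a, .pow a] | (v.1 ∈ Ψ ∧ v.2.1 ∈ Ψ) ∧ v ∈ d} ⊆ ⋂₀ 𝓖 := by
      clear h𝓖
      induction 𝓖, hfin using Set.Finite.induction_on with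
      | empty =>
        exact ⟨Set.univ, DefOver.univ (U := U) (A := N) (Γ := [.pow a]), Set.mem_univ _,
          by simp⟩
      | @insert G 𝓖 _ _ ih =>
        obtain ⟨Ψ₁, h1, h2, h3⟩ := ih (fun G' hG' => hΨ G' (Set.mem_insert_of_mem _ hG'))
        obtain ⟨Ψ₂, g1, g2, g3⟩ := hΨ G (Set.mem_insert _ _)
        refine ⟨Ψ₂ ∩ Ψ₁, DefOver.inter g1 h1, ⟨g2, h2⟩, ?_⟩
        intro v hv
        rw [Set.sInter_insert]
        refine ⟨?_, h3 ⟨⟨hv.1.1.2, hv.1.2.2⟩, hv.2⟩⟩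
        rw [g3]
        exact ⟨⟨hv.1.1.1, hv.1.2.1⟩, hv.2⟩
    obtain ⟨Ψ, h1, h2, h3⟩ := hmain
    obtain ⟨X, hX, Y, hY, hXY⟩ := hcon Ψ h1 h2
    exact ⟨(X, Y, ()), h3 ⟨⟨hX, hY⟩, fun x hx => hXY x hx⟩⟩

theorem CO_coheir1 {κ : Cardinal.{0}} (hκ : ℵ₀ < κ) {U : Str} (hU : IsModel U)
    (hs : Saturated κ U) {a : Srt} {N : Par U} (hN : Small κ N) (hc : Closed U N)
    (p : Typ U (allPar U) [a]) (hp : InvOver U N p.sets) :
    ∀ D ∈ p.sets, ∃ v ∈ D, v.1 ∈ N a := by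
  intro D hD
  obtain ⟨V, hV⟩ := TR_compr hU {x : U.car a | (x, ()) ∈ D} (by
    have h := p.dfn D hD
    exact h)
  have hVp : {v : Tup U.car [a] | v.1 ∈ U.ext V} ∈ p.sets := by
    rw [hV]
    exact hD
  obtain ⟨S, hS, hSN⟩ := ST_small hκ hU hs hN
  obtain ⟨E, hEV, hEp, hES⟩ := TH_thin hκ hU hs hN p hp V hVp S hS
  -- every realisation of the type of `E` over `N` is in `p`
  have hreal : ∀ X : U.car (.pow a), (∀ Ψ, Def1 U N Ψ → E ∈ Ψ → X ∈ Ψ) →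
      {v : Tup U.car [a] | v.1 ∈ U.ext X} ∈ p.sets := by
    intro X hX
    have hR : DefOver U (noPar U) ([a] ++ [.pow a])
        {v : Tup U.car [a, .pow a] | U.mem a v.1 v.2.1} :=
      DefOver.of_dfn (A := noPar U) (C := NoC) (Γ := [a, .pow a])
        (P := fun M _ v => M.mem a v.1 v.2.1)
        (Dfn.mem IsT.zero (IsT.succ IsT.zero)) (fun _ c => c.elim) (fun _ c => c.elim)
    have hsame : SameTp U N (Δ := [.pow a]) (E, ()) (X, ()) := by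
      intro G hG
      constructor
      · intro hE
        exact hX {Y | (Y, ()) ∈ G} hG hE
      · intro hX'
        by_contra hE
        exact hX {Y | (Y, ()) ∈ Gᶜ} (DefOver.compl hG) hE hX'
    exact (hp [.pow a] _ hR (E, ()) (X, ()) hsame).1 hEp
  obtain ⟨Ψ, hΨ, hEΨ, hmeet⟩ := CO_meet hs hN E (by
    intro X Y hX hY
    have h1 := p.inter _ (hreal X hX) _ (hreal Y hY)
    by_contra hcon
    push Not at hcon
    apply p.nempty
    have h2 : {v : Tup U.car [a] | v.1 ∈ U.ext X} ∩ {v : Tup U.car [a] | v.1 ∈ U.ext Y} = ∅ := by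
      ext v
      simp only [Set.mem_inter_iff, Set.mem_ofPred_eq, Set.mem_empty_iff_false, iff_false, not_and]
      exact fun hv => hcon v.1 hv
    rw [h2] at h1
    exact h1)
  -- a member of minimal cardinality in `N`
  obtain ⟨X₀, hX₀, hX₀min⟩ := TR_min hU Ψ (DefOver.mono hΨ (fun s => Set.subset_univ _)) ⟨E, hEΨ⟩
  obtain ⟨E₀, hE₀, hE₀N⟩ := hc (.pow a) _ (CO_minDef Ψ hΨ) ⟨X₀, hX₀, hX₀min⟩
  have hle : U.le E₀ S := TR_le_trans hU (hE₀.2 E hEΨ) hES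
  have hfin : (U.ext E₀).Finite := by
    by_contra hinf
    exact hSN a E₀ hE₀N hinf hle
  have hsub : U.ext E₀ ⊆ N a := by
    refine CO_finN hc _ hfin ?_
    have h : Dfn (fun s => {x // x ∈ N s}) [a] (fun M e v => M.mem a v.1 (e _ ⟨E₀, hE₀N⟩)) :=
      Dfn.mem IsT.zero (IsT.cst _)
    exact DefOver.of_dfn h (fun _ a => a.1) (fun _ c => c.2)
  obtain ⟨x, hx1, hx2⟩ := hmeet E₀ hE₀.1 E hEΨ
  refine ⟨(x, ()), ?_, hsub hx1⟩
  have h3 : x ∈ U.ext V := hEV hx2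
  rw [hV] at h3
  exact h3

end Pool.Agent.Lib_helper58.ID
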