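import Pool.Agent.Lib_helper58.ID.TR1

/-!
# MP_bc6371_lc, block TR4: codes of tuples
-/

namespace Pool.Agent.Lib_helper58.ID

open Cardinal

section TR
variable {U : Str} (hU : IsModel U)
include hU

/-- codes of tuples -/
theorem TR_code_ex {Γ : List Srt} (v : Tup U.car Γ) : ∃ c, U.IsCode v c := by
  induction Γ with
  | nil =>
    obtain ⟨X, hX⟩ := TR_compr hU (∅ : Set (U.car .base)) (by
      obtain ⟨φ, hφ⟩ := DefOver.empty (U := U) (A := allPar U) (Γ := [.base])
      exact ⟨φ, hφ⟩)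
    refine ⟨X, fun x hx => ?_⟩
    have h1 : x ∈ U.ext X := hx
    rw [hX] at h1
    exact h1
  | cons s Γ ih =>
    obtain ⟨d, hd⟩ := ih v.2
    obtain ⟨c, hc⟩ := TR_pair_ex hU v.1 d
    exact ⟨c, d, hd, hc⟩

theorem TR_code_fun {Γ : List Srt} {v : Tup U.car Γ} {c c' : U.car (cd Γ)}
    (h : U.IsCode v c) (h' : U.IsCode v c') : c = c' := by
  induction Γ with
  | nil =>
    refine TR_ext hU ?_
    ext x
    exact ⟨fun hx => absurd hx (h x), fun hx => absurd hx (h' x)⟩
  | cons s Γ ih =>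
    obtain ⟨d, hd, hc⟩ := h
    obtain ⟨d', hd', hc'⟩ := h'
    have e : d = d' := ih hd hd'
    subst e
    exact TR_pair_fun hU hc hc'

theorem TR_code_inj {Γ : List Srt} {v v' : Tup U.car Γ} {c : U.car (cd Γ)}
    (h : U.IsCode v c) (h' : U.IsCode v' c) : v = v' := by
  induction Γ with
  | nil => rfl
  | cons s Γ ih =>
    obtain ⟨d, hd, hc⟩ := h
    obtain ⟨d', hd', hc'⟩ := h'
    obtain ⟨e1, e2⟩ := TR_pair_inj hU hc hc'
    subst e2
    exact Prod.ext e1 (ih hd hd')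

end TR

end Pool.Agent.Lib_helper58.ID
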