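import Pool.Agent.Lib_helper58.ID.CO1
import Pool.Agent.Lib_helper58.ID.TR4

/-!
# MP_bc6371_lc: block CO2 (invariant types of tuples are coheirs)
-/

namespace Pool.Agent.Lib_helper58.ID

open Cardinal

/-- the set of tuples with code in `D` -/
def CO_code (U : Str) {Γ : List Srt} (D : Set (Tup U.car [cd Γ])) : Set (Tup U.car Γ) :=
  {v | ∃ c, U.IsCode v c ∧ ((c, ()) : Tup U.car [cd Γ]) ∈ D}

/-- the set of codes of tuples in `D` -/
def CO_dec (U : Str) {Γ : List Srt} (D : Set (Tup U.car Γ)) : Set (Tup U.car [cd Γ]) :=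
  {w | ∃ v : Tup U.car Γ, U.IsCode v w.1 ∧ v ∈ D}

theorem CO_code_dfn {U : Str} {A : Par U} {Γ : List Srt} {D : Set (Tup U.car [cd Γ])}
    (h : DefOver U A [cd Γ] D) : DefOver U A Γ (CO_code U D) := by
  obtain ⟨φ, hφ⟩ := h
  have h1 : Dfn (fun s => {x // x ∈ A s}) Γ
      (fun M e v => ∃ c, M.IsCode v c ∧ Sat M e φ (c, ())) := by
    refine Dfn.ex (Dfn.and (Dfn.isCode (IsTs.succ IsTs.id) IsT.zero) ?_)
    exact Dfn.substV (Δ := cd Γ :: Γ) (Dfn.sat φ)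
      (t := fun M _ (v : Tup M.car (cd Γ :: Γ)) => ((v.1, ()) : Tup M.car [cd Γ]))
      (IsTs.cons IsT.zero IsTs.nil)
  have h2 := DefOver.of_dfn (A := A) h1 (fun _ a => a.1) (fun _ c => c.2)
  have h3 : CO_code U D = {v | ∃ c, U.IsCode v c ∧ Sat U (fun _ a => a.1) φ (c, ())} := by
    rw [hφ]
    rfl
  rw [h3]
  exact h2

theorem CO_dec_dfn {U : Str} {A : Par U} {Γ : List Srt} {D : Set (Tup U.car Γ)}
    (h : DefOver U A Γ D) : DefOver U A [cd Γ] (CO_dec U D) := by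
  obtain ⟨φ, hφ⟩ := h
  have h1 : Dfn (fun s => {x // x ∈ A s}) [cd Γ]
      (fun M e w => ∃ v : Tup M.car Γ, M.IsCode v w.1 ∧ Sat M e φ v) := by
    refine Dfn.exT (Dfn.and (Dfn.isCode (IsTs.fst IsTs.id) ?_) ?_)
    · exact (IsTs.snd (Δ := Γ) (Δ' := [cd Γ]) IsTs.id) (cd Γ) Var.z
    · exact Dfn.substV (Dfn.sat φ) (IsTs.fst IsTs.id)
  have h2 := DefOver.of_dfn (A := A) h1 (fun _ a => a.1) (fun _ c => c.2)
  have h3 : CO_dec U D = {w | ∃ v : Tup U.car Γ, U.IsCode v w.1 ∧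
      Sat U (fun _ a => a.1) φ v} := by
    rw [hφ]
    rfl
  rw [h3]
  exact h2

theorem CO_code_inter {U : Str} (hU : IsModel U) {Γ : List Srt} (D D' : Set (Tup U.car [cd Γ])) :
    CO_code U (D ∩ D') = CO_code U D ∩ CO_code U D' := by
  ext v
  constructor
  · rintro ⟨c, h1, h2, h3⟩
    exact ⟨⟨c, h1, h2⟩, ⟨c, h1, h3⟩⟩
  · rintro ⟨⟨c, h1, h2⟩, ⟨c', h1', h2'⟩⟩
    obtain rfl := TR_code_fun hU h1 h1'
    exact ⟨c, h1, h2, h2'⟩

theorem CO_code_compl {U : Str} (hU : IsModel U) {Γ : List Srt} (D : Set (Tup U.car [cd Γ])) :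
    CO_code U Dᶜ = (CO_code U D)ᶜ := by
  ext v
  constructor
  · rintro ⟨c, h1, h2⟩ ⟨c', h1', h2'⟩
    obtain rfl := TR_code_fun hU h1 h1'
    exact h2 h2'
  · intro h
    obtain ⟨c, hc⟩ := TR_code_ex hU v
    exact ⟨c, hc, fun h2 => h ⟨c, hc, h2⟩⟩

theorem CO_code_empty {U : Str} {Γ : List Srt} :
    CO_code U (∅ : Set (Tup U.car [cd Γ])) = ∅ := by
  ext v
  constructor
  · rintro ⟨c, _, h2⟩
    exact h2
  · intro h
    exact h.elim

theorem CO_code_mono {U : Str} {Γ : List Srt} {D D' : Set (Tup U.car [cd Γ])} (h : D ⊆ D') :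
    CO_code U D ⊆ CO_code U D' := by
  rintro v ⟨c, h1, h2⟩
  exact ⟨c, h1, h h2⟩

theorem CO_code_dec {U : Str} (hU : IsModel U) {Γ : List Srt} (D : Set (Tup U.car Γ)) :
    CO_code U (CO_dec U D) = D := by
  ext v
  constructor
  · rintro ⟨c, h1, v', h2, h3⟩
    obtain rfl := TR_code_inj hU h1 h2
    exact h3
  · intro h
    obtain ⟨c, hc⟩ := TR_code_ex hU v
    exact ⟨c, hc, v, hc, h⟩

/-- the type of the code -/
noncomputable def CO_typ {U : Str} (hU : IsModel U) {Γ : List Srt} (p : Typ U (allPar U) Γ) :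
    Typ U (allPar U) [cd Γ] where
  sets := {D | DefOver U (allPar U) [cd Γ] D ∧ CO_code U D ∈ p.sets}
  dfn := fun D hD => hD.1
  inter := fun D hD D' hD' => ⟨DefOver.inter hD.1 hD'.1, by
    rw [CO_code_inter hU]
    exact p.inter _ hD.2 _ hD'.2⟩
  mono := fun D hD D' hD' hsub =>
    ⟨hD', p.mono _ hD.2 _ (CO_code_dfn hD') (CO_code_mono hsub)⟩
  nempty := fun h => p.nempty (by
    have h2 := h.2
    rw [CO_code_empty] at h2
    exact h2)
  ultra := fun D hD => by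
    rcases p.ultra _ (CO_code_dfn hD) with h | h
    · exact Or.inl ⟨hD, h⟩
    · refine Or.inr ⟨DefOver.compl hD, ?_⟩
      rw [CO_code_compl hU]
      exact h

theorem CO_typ_inv {U : Str} (hU : IsModel U) {Γ : List Srt} (p : Typ U (allPar U) Γ)
    {N : Par U} (hp : InvOver U N p.sets) : InvOver U N (CO_typ hU p).sets := by
  intro Δ R hR b b' hbb
  have hall : ∀ b : Tup U.car Δ, DefOver U (allPar U) [cd Γ]
      {x : Tup U.car [cd Γ] | x.app b ∈ R} := fun b =>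
    DefOver.fibre (DefOver.mono hR (fun s => Set.empty_subset _)) b (fun _ _ => Set.mem_univ _)
  have hR' : DefOver U (noPar U) (Γ ++ Δ)
      {z : Tup U.car (Γ ++ Δ) | ∃ c, U.IsCode (Tup.fst (Γ := Γ) (Δ := Δ) z) c ∧
        ((c, Tup.snd (Γ := Γ) (Δ := Δ) z) : Tup U.car (cd Γ :: Δ)) ∈ R} := by
    obtain ⟨φ, hφ⟩ := hR
    have h1 : Dfn (fun s => {x // x ∈ noPar U s}) (Γ ++ Δ)
        (fun M e z => ∃ c, M.IsCode (Tup.fst (Γ := Γ) (Δ := Δ) z) c ∧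
          Sat M e φ (c, Tup.snd (Γ := Γ) (Δ := Δ) z)) := by
      refine Dfn.ex (Dfn.and (Dfn.isCode ?_ IsT.zero) ?_)
      · exact IsTs.fst (Δ := Γ) (Δ' := Δ) (IsTs.succ IsTs.id)
      · exact Dfn.substV (Δ := cd Γ :: (Γ ++ Δ)) (Dfn.sat φ)
          (t := fun M _ (v : Tup M.car (cd Γ :: (Γ ++ Δ))) =>
            ((v.1, Tup.snd (Γ := Γ) (Δ := Δ) v.2) : Tup M.car (cd Γ :: Δ)))
          (IsTs.cons IsT.zero (IsTs.snd (Δ := Γ) (Δ' := Δ) (IsTs.succ IsTs.id)))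
    have h2 := DefOver.of_dfn (A := noPar U) h1 (fun _ a => a.1) (fun _ c => c.2)
    rw [hφ]
    exact h2
  have hset : ∀ b : Tup U.car Δ, CO_code U {x : Tup U.car [cd Γ] | x.app b ∈ R} =
      {v : Tup U.car Γ | v.app b ∈ {z : Tup U.car (Γ ++ Δ) |
        ∃ c, U.IsCode (Tup.fst (Γ := Γ) (Δ := Δ) z) c ∧
        ((c, Tup.snd (Γ := Γ) (Δ := Δ) z) : Tup U.car (cd Γ :: Δ)) ∈ R}} := by
    intro b
    ext v
    simp only [CO_code, Set.mem_ofPred_eq, Tup.fst_app, Tup.snd_app]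
    rfl
  have hiff := hp Δ _ hR' b b' hbb
  rw [← hset b, ← hset b'] at hiff
  constructor
  · intro h
    exact ⟨hall b', hiff.1 h.2⟩
  · intro h
    exact ⟨hall b, hiff.2 h.2⟩

theorem CO_coheir {κ : Cardinal.{0}} (hκ : ℵ₀ < κ) {U : Str} (hU : IsModel U)
    (hs : Saturated κ U) {Γ : List Srt} {N : Par U} (hN : Small κ N) (hc : Closed U N)
    (p : Typ U (allPar U) Γ) (hp : InvOver U N p.sets) :
    ∀ D ∈ p.sets, ∃ v ∈ D, v.In N := by
  intro D hD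
  have hq : CO_dec U D ∈ (CO_typ hU p).sets := by
    refine ⟨CO_dec_dfn (p.dfn D hD), ?_⟩
    rw [CO_code_dec hU]
    exact hD
  obtain ⟨w, ⟨v, hv, hvD⟩, hwN⟩ := CO_coheir1 hκ hU hs hN hc (CO_typ hU p)
    (CO_typ_inv hU p hp) _ hq
  refine ⟨v, hvD, fun s x => ?_⟩
  have hdef : Def1 U N {y : U.car s | ∃ v' : Tup U.car Γ, U.IsCode v' w.1 ∧ v'.get x = y} := by
    have h1 : Dfn (fun s => {x // x ∈ N s}) [s]
        (fun M e u => ∃ v' : Tup M.car Γ, M.IsCode v' (e _ ⟨w.1, hwN⟩) ∧ v'.get x = u.1) := by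
      refine Dfn.exT (Dfn.and (Dfn.isCode (IsTs.fst IsTs.id) (IsT.cst _)) (Dfn.eq ?_ ?_))
      · exact (IsTs.fst (Δ := Γ) (Δ' := [s]) IsTs.id) s x
      · exact (IsTs.snd (Δ := Γ) (Δ' := [s]) IsTs.id) s Var.z
    exact DefOver.of_dfn (A := N) h1 (fun _ a => a.1) (fun _ c => c.2)
  have hfin : {y : U.car s | ∃ v' : Tup U.car Γ, U.IsCode v' w.1 ∧ v'.get x = y}.Finite := by
    refine (Set.finite_singleton (v.get x)).subset ?_
    rintro y ⟨v', hv', rfl⟩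
    rw [TR_code_inj hU hv' hv]
    exact Set.mem_singleton _
  exact CO_finN hc _ hfin hdef ⟨v, hv, rfl⟩

end Pool.Agent.Lib_helper58.ID
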