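import Pool.Agent.Lib_helper58.ID.SY

/-!
# MP_bc6371_lc: block CT1 (the number of formulas; Löwenheim-Skolem hull)
-/

namespace Pool.Agent.Lib_helper58.ID.H44

open Cardinal Pool.Agent.Lib_helper58.ID

/-- a code of a sort -/
def CT1_code : Srt → ℕ
  | .base => 0
  | .prod a b => 2 * Nat.pair (CT1_code a) (CT1_code b) + 1
  | .pow a => 2 * CT1_code a + 2

theorem CT1_code_inj : ∀ a b : Srt, CT1_code a = CT1_code b → a = b := by
  intro a
  induction a with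
  | base =>
    intro b h
    cases b with
    | base => rfl
    | prod c d => simp only [CT1_code] at h; omega
    | pow c => simp only [CT1_code] at h; omega
  | prod a a' ih ih' =>
    intro b h
    cases b with
    | base => simp only [CT1_code] at h; omega
    | prod c d =>
      simp only [CT1_code] at h
      have h1 : Nat.pair (CT1_code a) (CT1_code a') = Nat.pair (CT1_code c) (CT1_code d) := by omega
      obtain ⟨h2, h3⟩ := Nat.pair_eq_pair.1 h1
      rw [ih _ h2, ih' _ h3]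
    | pow c => simp only [CT1_code] at h; omega
  | pow a ih =>
    intro b h
    cases b with
    | base => simp only [CT1_code] at h; omega
    | prod c d => simp only [CT1_code] at h; omega
    | pow c =>
      simp only [CT1_code] at h
      rw [ih c (by omega)]

instance CT1_srt : Countable Srt :=
  Function.Injective.countable (f := CT1_code) fun a b h => CT1_code_inj a b h

/-- the index of a variable -/
def CT1_idx : ∀ {Γ : List Srt} {s : Srt}, Var Γ s → ℕ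
  | _, _, .z => 0
  | _, _, .s x => CT1_idx x + 1

theorem CT1_idx_inj : ∀ {Γ : List Srt} {s : Srt} (x y : Var Γ s), CT1_idx x = CT1_idx y → x = y := by
  intro Γ s x
  induction x with
  | z =>
    intro y h
    cases y with
    | z => rfl
    | s y => simp only [CT1_idx] at h; omega
  | s x ih =>
    intro y h
    cases y with
    | z => simp only [CT1_idx] at h; omega
    | s y =>
      simp only [CT1_idx] at h
      rw [ih y (by omega)]

instance CT1_var {Γ : List Srt} {s : Srt} : Countable (Var Γ s) :=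
  Function.Injective.countable (f := CT1_idx) fun x y h => CT1_idx_inj x y h

section card
variable {μ : Cardinal.{0}} (hμ : ℵ₀ ≤ μ)
include hμ

theorem CT1_sum {X Y : Type} (hX : #X ≤ μ) (hY : #Y ≤ μ) : #(X ⊕ Y) ≤ μ := by
  rw [mk_sum, lift_id, lift_id]
  exact add_le_of_le hμ hX hY

theorem CT1_prod {X Y : Type} (hX : #X ≤ μ) (hY : #Y ≤ μ) : #(X × Y) ≤ μ := by
  rw [mk_prod, lift_id, lift_id]
  exact (mul_le_mul' hX hY).trans (mul_eq_self hμ).le

theorem CT1_sig {ι : Type} [Countable ι] {X : ι → Type} (h : ∀ i, #(X i) ≤ μ) :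
    #(Σ i, X i) ≤ μ := by
  rw [mk_sigma]
  refine (sum_le_sum _ (fun _ => μ) h).trans ?_
  rw [sum_const']
  exact (mul_le_mul' ((mk_le_aleph0 (α := ι)).trans hμ) le_rfl).trans (mul_eq_self hμ).le

theorem CT1_cnt {X : Type} [Countable X] : #X ≤ μ := (mk_le_aleph0 (α := X)).trans hμ

end card

/-- the depth of a formula -/
def CT1_dep {C : Srt → Type} : ∀ {Γ : List Srt}, Fml C Γ → ℕ
  | _, .bot => 0
  | _, .eq _ _ => 0
  | _, .mem _ _ => 0
  | _, .pair _ _ _ => 0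
  | _, .imp φ ψ => max (CT1_dep φ) (CT1_dep ψ) + 1
  | _, .all _ φ => CT1_dep φ + 1

/-- the data of a formula -/
abbrev CT1_dat (C : Srt → Type) (n : ℕ) (Γ : List Srt) : Type :=
  Unit ⊕ (Σ s, Tm C Γ s × Tm C Γ s) ⊕ (Σ a, Tm C Γ a × Tm C Γ (.pow a)) ⊕
    (Σ a : Srt, Σ b : Srt, Tm C Γ a × Tm C Γ b × Tm C Γ (.prod a b)) ⊕
    ({φ : Fml C Γ // CT1_dep φ < n} × {φ : Fml C Γ // CT1_dep φ < n}) ⊕
    (Σ s : Srt, {φ : Fml C (s :: Γ) // CT1_dep φ < n})

/-- the formula with the given data -/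
def CT1_mk {C : Srt → Type} {n : ℕ} {Γ : List Srt} : CT1_dat C n Γ → Fml C Γ
  | .inl _ => .bot
  | .inr (.inl ⟨_, t, t'⟩) => .eq t t'
  | .inr (.inr (.inl ⟨_, t, t'⟩)) => .mem t t'
  | .inr (.inr (.inr (.inl ⟨_, _, t, t', t''⟩))) => .pair t t' t''
  | .inr (.inr (.inr (.inr (.inl ⟨φ, ψ⟩)))) => .imp φ.1 ψ.1
  | .inr (.inr (.inr (.inr (.inr ⟨s, φ⟩)))) => .all s φ.1

theorem CT1_mk_surj {C : Srt → Type} {n : ℕ} {Γ : List Srt} (φ : Fml C Γ)
    (h : CT1_dep φ < n + 1) : ∃ d : CT1_dat C n Γ, CT1_mk d = φ := by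
  cases φ with
  | bot => exact ⟨.inl (), rfl⟩
  | eq t t' => exact ⟨.inr (.inl ⟨_, t, t'⟩), rfl⟩
  | mem t t' => exact ⟨.inr (.inr (.inl ⟨_, t, t'⟩)), rfl⟩
  | pair t t' t'' => exact ⟨.inr (.inr (.inr (.inl ⟨_, _, t, t', t''⟩))), rfl⟩
  | imp φ ψ =>
    simp only [CT1_dep] at h
    exact ⟨.inr (.inr (.inr (.inr (.inl ⟨⟨φ, by omega⟩, ⟨ψ, by omega⟩⟩)))), rfl⟩
  | all s φ =>
    simp only [CT1_dep] at h
    exact ⟨.inr (.inr (.inr (.inr (.inr ⟨s, ⟨φ, by omega⟩⟩)))), rfl⟩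

theorem CT1_tm {C : Srt → Type} {μ : Cardinal.{0}} (hμ : ℵ₀ ≤ μ) (hC : ∀ s, #(C s) ≤ μ)
    (Γ : List Srt) (s : Srt) : #(Tm C Γ s) ≤ μ := by
  have h : #(Tm C Γ s) ≤ #(C s ⊕ Var Γ s) := by
    refine mk_le_of_surjective (f := fun z : C s ⊕ Var Γ s => Sum.elim Tm.cst Tm.var z) ?_
    intro t
    cases t with
    | cst c => exact ⟨.inl c, rfl⟩
    | var x => exact ⟨.inr x, rfl⟩
  exact h.trans (CT1_sum hμ (hC s) (CT1_cnt hμ))

theorem CT1_fml_dep {C : Srt → Type} {μ : Cardinal.{0}} (hμ : ℵ₀ ≤ μ) (hC : ∀ s, #(C s) ≤ μ)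
    (n : ℕ) : ∀ Γ : List Srt, #{φ : Fml C Γ // CT1_dep φ < n} ≤ μ := by
  induction n with
  | zero =>
    intro Γ
    have : IsEmpty {φ : Fml C Γ // CT1_dep φ < 0} := ⟨fun φ => by have := φ.2; omega⟩
    rw [mk_eq_zero]
    exact zero_le
  | succ n ih =>
    intro Γ
    have h : #{φ : Fml C Γ // CT1_dep φ < n + 1} ≤ #(CT1_dat C n Γ) := by
      refine (mk_le_of_injective (f := fun φ : {φ : Fml C Γ // CT1_dep φ < n + 1} =>
        (CT1_mk_surj φ.1 φ.2).choose) ?_)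
      intro φ ψ h
      apply Subtype.ext
      rw [← (CT1_mk_surj φ.1 φ.2).choose_spec, ← (CT1_mk_surj ψ.1 ψ.2).choose_spec]
      exact congrArg CT1_mk h
    have ht := CT1_tm hμ hC Γ
    refine h.trans (CT1_sum hμ (CT1_cnt hμ) (CT1_sum hμ ?_ (CT1_sum hμ ?_ (CT1_sum hμ ?_
      (CT1_sum hμ ?_ ?_)))))
    · exact CT1_sig hμ fun s => CT1_prod hμ (ht _) (ht _)
    · exact CT1_sig hμ fun s => CT1_prod hμ (ht _) (ht _)
    · exact CT1_sig hμ fun a => CT1_sig hμ fun b =>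
        CT1_prod hμ (ht _) (CT1_prod hμ (ht _) (ht _))
    · exact CT1_prod hμ (ih Γ) (ih Γ)
    · exact CT1_sig hμ fun s => ih (s :: Γ)

theorem CT1_fml {C : Srt → Type} {μ : Cardinal.{0}} (hμ : ℵ₀ ≤ μ) (hC : ∀ s, #(C s) ≤ μ)
    (Γ : List Srt) : #(Fml C Γ) ≤ μ := by
  have h : #(Fml C Γ) ≤ #(Σ n : ℕ, {φ : Fml C Γ // CT1_dep φ < n}) :=
    mk_le_of_surjective (f := fun z : Σ n : ℕ, {φ : Fml C Γ // CT1_dep φ < n} => z.2.1)
      fun φ => ⟨⟨CT1_dep φ + 1, φ, Nat.lt_succ_self _⟩, rfl⟩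
  exact h.trans (CT1_sig hμ fun n => CT1_fml_dep hμ hC n Γ)

theorem CT1_def {U : Str} {A : Par U} {μ : Cardinal.{0}} (hμ : ℵ₀ ≤ μ)
    (hA : #(Σ s, {x // x ∈ A s}) ≤ μ) (Γ : List Srt) :
    #{D : Set (Tup U.car Γ) // DefOver U A Γ D} ≤ μ := by
  have hC : ∀ s, #{x // x ∈ A s} ≤ μ := fun s =>
    (mk_le_of_injective (f := fun x : {x // x ∈ A s} => (⟨s, x⟩ : Σ s, {x // x ∈ A s}))
      fun x y h => by simpa using h).trans hA
  refine (mk_le_of_surjective (f := fun φ : Fml (fun s => {x // x ∈ A s}) Γ =>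
    (⟨{v | Sat U (fun _ a => a.1) φ v}, φ, rfl⟩ : {D : Set (Tup U.car Γ) // DefOver U A Γ D}))
    ?_).trans (CT1_fml hμ hC Γ)
  rintro ⟨D, φ, rfl⟩
  exact ⟨φ, rfl⟩

/-- one step of the hull -/
noncomputable def CT1_next (U : Str) (N : Par U) : Par U := fun a =>
  N a ∪ Set.range fun D : {D : Set (U.car a) // Def1 U N D ∧ D.Nonempty} => D.2.2.some

theorem CT1_next_card {U : Str} {N : Par U} {μ : Cardinal.{0}} (hμ : ℵ₀ ≤ μ)
    (hN : #(Σ s, {x // x ∈ N s}) ≤ μ) : #(Σ s, {x // x ∈ CT1_next U N s}) ≤ μ := by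
  refine CT1_sig hμ fun a => ?_
  refine (mk_union_le _ _).trans (add_le_of_le hμ ?_ ?_)
  · exact (mk_le_of_injective (f := fun x : {x // x ∈ N a} => (⟨a, x⟩ : Σ s, {x // x ∈ N s}))
      fun x y h => by simpa using h).trans hN
  · refine mk_range_le.trans ?_
    refine (mk_le_of_injective (f := fun D : {D : Set (U.car a) // Def1 U N D ∧ D.Nonempty} =>
      (⟨{v : Tup U.car [a] | v.1 ∈ D.1}, D.2.1⟩ :
        {D : Set (Tup U.car [a]) // DefOver U N [a] D})) ?_).trans (CT1_def hμ hN [a])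
    intro D D' h
    apply Subtype.ext
    ext x
    have h1 := congrArg Subtype.val h
    have h2 : ((x, ()) : Tup U.car [a]) ∈ {v : Tup U.car [a] | v.1 ∈ D.1} ↔
        ((x, ()) : Tup U.car [a]) ∈ {v : Tup U.car [a] | v.1 ∈ D'.1} :=
      Set.ext_iff.1 h1 (x, ())
    exact h2

/-- the stages of the hull -/
noncomputable def CT1_stage {U : Str} (A : Par U) : ℕ → Par U
  | 0 => A
  | n + 1 => CT1_next U (CT1_stage A n)

theorem CT1_stage_mono {U : Str} (A : Par U) {m n : ℕ} (h : m ≤ n) (s : Srt) :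
    CT1_stage A m s ⊆ CT1_stage A n s := by
  induction n, h using Nat.le_induction with
  | base => exact subset_rfl
  | succ n _ ih => exact ih.trans Set.subset_union_left

theorem CT1_stage_card {U : Str} {A : Par U} {μ : Cardinal.{0}} (hμ : ℵ₀ ≤ μ)
    (hA : #(Σ s, {x // x ∈ A s}) ≤ μ) (n : ℕ) : #(Σ s, {x // x ∈ CT1_stage A n s}) ≤ μ := by
  induction n with
  | zero => exact hA
  | succ n ih => exact CT1_next_card hμ ih

theorem CT1_stage_in {U : Str} (A : Par U) : ∀ {Δ : List Srt} (b : Tup U.car Δ),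
    (b.In fun s => ⋃ n, CT1_stage A n s) → ∃ n, b.In (CT1_stage A n) := by
  intro Δ
  induction Δ with
  | nil =>
    intro b _
    exact ⟨0, fun s x => nomatch x⟩
  | cons t Δ ih =>
    intro b hb
    obtain ⟨n, hn⟩ := ih b.2 fun s x => hb s (.s x)
    obtain ⟨m, hm⟩ := Set.mem_iUnion.1 (hb t .z)
    refine ⟨max m n, fun s x => ?_⟩
    cases x with
    | z => exact CT1_stage_mono A (le_max_left m n) _ hm
    | s x => exact CT1_stage_mono A (le_max_right m n) _ (hn s x)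

end Pool.Agent.Lib_helper58.ID.H44

namespace Pool.Agent.Lib_helper58.ID

open Cardinal Pool.Agent.Lib_helper58.ID.H44

theorem CT_count {κ : Cardinal.{0}} (hκ : ℵ₀ < κ) {U : Str} {A : Par U} (hA : Small κ A)
    (Γ : List Srt) : #{D : Set (Tup U.car Γ) // DefOver U A Γ D} < κ :=
  (CT1_def (μ := max ℵ₀ #(Σ s, {x // x ∈ A s})) (le_max_left _ _) (le_max_right _ _) Γ).trans_lt
    (max_lt hκ hA)

theorem CT_hull {κ : Cardinal.{0}} (hκ : ℵ₀ < κ) {U : Str} {A : Par U} (hA : Small κ A) :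
    ∃ N : Par U, (∀ s, A s ⊆ N s) ∧ Small κ N ∧ Closed U N := by
  refine ⟨fun s => ⋃ n, CT1_stage A n s, fun s => Set.subset_iUnion (fun n => CT1_stage A n s) 0,
    ?_, ?_⟩
  · have hμ : ℵ₀ ≤ max ℵ₀ #(Σ s, {x // x ∈ A s}) := le_max_left _ _
    refine lt_of_le_of_lt (b := max ℵ₀ #(Σ s, {x // x ∈ A s})) ?_ (max_lt hκ hA)
    refine CT1_sig hμ fun s => ?_
    refine (mk_le_of_surjective (f := fun z : Σ n : ℕ, {x // x ∈ CT1_stage A n s} =>
      (⟨z.2.1, Set.mem_iUnion.2 ⟨z.1, z.2.2⟩⟩ : {x // x ∈ ⋃ n, CT1_stage A n s})) ?_).trans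
      (CT1_sig hμ fun n => ?_)
    · rintro ⟨x, hx⟩
      obtain ⟨n, hn⟩ := Set.mem_iUnion.1 hx
      exact ⟨⟨n, x, hn⟩, rfl⟩
    · exact (mk_le_of_injective (f := fun x : {x // x ∈ CT1_stage A n s} =>
        (⟨s, x⟩ : Σ s, {x // x ∈ CT1_stage A n s})) fun x y h => by simpa using h).trans
        (CT1_stage_card hμ (le_max_right _ _) n)
  · intro a D hD hne
    obtain ⟨Δ, R, b, hR, hb, hDR⟩ := DefOver.fin hD
    obtain ⟨n, hn⟩ := CT1_stage_in A b hb
    have h1 : Def1 U (CT1_stage A n) D := by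
      unfold Def1
      rw [hDR]
      exact DefOver.fibre (hR.mono fun s => Set.empty_subset _) b hn
    refine ⟨hne.some, hne.some_mem, Set.mem_iUnion.2 ⟨n + 1, Or.inr ⟨⟨D, h1, hne⟩, rfl⟩⟩⟩

end Pool.Agent.Lib_helper58.ID
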