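import Pool.Agent.Lib_helper58.ID.CT1

/-!
# MP_bc6371_lc: block CT2 (small parameter sets)
-/

namespace Pool.Agent.Lib_helper58.ID

open Cardinal Pool.Agent.Lib_helper58.ID.H44

/-- the entries of a tuple -/
def CT2_ent {U : Str} {Γ : List Srt} (v : Tup U.car Γ) : Par U :=
  fun s => Set.range fun x : Var Γ s => v.get x

theorem CT2_ent_finite {U : Str} : ∀ {Γ : List Srt} (v : Tup U.car Γ),
    Finite (Σ s, {x // x ∈ CT2_ent v s}) := by
  intro Γ v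
  have hv : Finite (Σ s, Var Γ s) := by
    induction Γ with
    | nil =>
      have : IsEmpty (Σ s, Var [] s) := ⟨fun z => nomatch z.2⟩
      infer_instance
    | cons t Γ ih =>
      have := ih v.2
      refine Finite.of_surjective (α := Option (Σ s, Var Γ s))
        (fun z => match z with
          | none => ⟨t, .z⟩
          | some z => ⟨z.1, .s z.2⟩) ?_
      rintro ⟨s, x⟩
      cases x with
      | z => exact ⟨none, rfl⟩
      | s x => exact ⟨some ⟨s, x⟩, rfl⟩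
  refine Finite.of_surjective (α := Σ s, Var Γ s) (fun z => ⟨z.1, v.get z.2, z.2, rfl⟩) ?_
  rintro ⟨s, x, y, rfl⟩
  exact ⟨⟨s, y⟩, rfl⟩

theorem CT_finpar {U : Str} {A : Par U} {Γ : List Srt}
    {D : Set (Tup U.car Γ)} (h : DefOver U A Γ D) :
    ∃ A₀ : Par U, (∀ s, A₀ s ⊆ A s) ∧ Finite (Σ s, {x // x ∈ A₀ s}) ∧ DefOver U A₀ Γ D := by
  obtain ⟨Δ, R, b, hR, hb, rfl⟩ := DefOver.fin h
  refine ⟨CT2_ent b, ?_, CT2_ent_finite b, ?_⟩
  · rintro s _ ⟨x, rfl⟩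
    exact hb s x
  · exact DefOver.fibre (hR.mono fun s => Set.empty_subset _) b fun s x => ⟨x, rfl⟩

theorem CT2_bound {κ : Cardinal.{0}} (hκ : ℵ₀ < κ) {J : Type} (hJ : #J < κ) {X : J → Type}
    (hX : ∀ j, #(X j) ≤ ℵ₀) : #(Σ j, X j) < κ := by
  rw [mk_sigma]
  refine lt_of_le_of_lt (sum_le_sum _ (fun _ => ℵ₀) hX) ?_
  rw [sum_const']
  refine lt_of_le_of_lt (b := max ℵ₀ #J) ?_ (max_lt hκ hJ)
  exact (mul_le_mul' (le_max_right ℵ₀ #J) (le_max_left ℵ₀ #J)).trans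
    (mul_eq_self (le_max_left ℵ₀ #J)).le

/-- unions of few finite parameter sets -/
theorem CT_union {κ : Cardinal.{0}} (hκ : ℵ₀ < κ) {U : Str} {J : Type} (hJ : #J < κ)
    (A : J → Par U) (hA : ∀ j, Finite (Σ s, {x // x ∈ A j s})) :
    Small κ (fun s => ⋃ j, A j s) := by
  refine lt_of_le_of_lt ?_ (CT2_bound hκ hJ (X := fun j => Σ s, {x // x ∈ A j s})
    fun j => by have := hA j; exact mk_le_aleph0)
  refine mk_le_of_surjective (f := fun z : Σ j, Σ s, {x // x ∈ A j s} =>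
    (⟨z.2.1, z.2.2.1, Set.mem_iUnion.2 ⟨z.1, z.2.2.2⟩⟩ : Σ s, {x // x ∈ ⋃ j, A j s})) ?_
  rintro ⟨s, x, hx⟩
  obtain ⟨j, hj⟩ := Set.mem_iUnion.1 hx
  exact ⟨⟨j, s, x, hj⟩, rfl⟩

theorem CT_sup {κ : Cardinal.{0}} (hκ : ℵ₀ < κ) {U : Str} {A B : Par U} (hA : Small κ A)
    (hB : Small κ B) : Small κ (fun s => A s ∪ B s) := by
  unfold Small at hA hB ⊢
  refine lt_of_le_of_lt ?_ (add_lt_of_lt hκ.le hA hB)
  rw [← lift_id #(Σ s, {x // x ∈ A s}), ← lift_id #(Σ s, {x // x ∈ B s}), ← mk_sum]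
  refine mk_le_of_surjective (f := fun z : (Σ s, {x // x ∈ A s}) ⊕ (Σ s, {x // x ∈ B s}) =>
    (Sum.elim (fun z => ⟨z.1, z.2.1, Or.inl z.2.2⟩) (fun z => ⟨z.1, z.2.1, Or.inr z.2.2⟩) z :
      Σ s, {x // x ∈ A s ∪ B s})) ?_
  rintro ⟨s, x, hx | hx⟩
  · exact ⟨.inl ⟨s, x, hx⟩, rfl⟩
  · exact ⟨.inr ⟨s, x, hx⟩, rfl⟩

/-- a small set of tuples -/
theorem CT_tup {κ : Cardinal.{0}} (hκ : ℵ₀ < κ) {U : Str} {Γ : List Srt}
    (X : Set (Tup U.car Γ)) (hX : #X < κ) : ∃ A : Par U, Small κ A ∧ ∀ v ∈ X, v.In A :=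
  ⟨fun s => ⋃ v : X, CT2_ent v.1 s, CT_union hκ hX (fun v => CT2_ent v.1)
    fun v => CT2_ent_finite v.1, fun v hv _ x => Set.mem_iUnion.2 ⟨⟨v, hv⟩, x, rfl⟩⟩

/-- a small set of elements of one sort as a parameter set -/
theorem CT_one {κ : Cardinal.{0}} (hκ : ℵ₀ < κ) {U : Str} {a : Srt} (X : Set (U.car a))
    (hX : #X < κ) : ∃ A : Par U, Small κ A ∧ X ⊆ A a := by
  obtain ⟨A, hA, h⟩ := CT_tup hκ (Γ := [a]) (U := U)
    ((fun x : U.car a => ((x, ()) : Tup U.car [a])) '' X) (lt_of_le_of_lt mk_image_le hX)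
  exact ⟨A, hA, fun x hx => h _ ⟨x, hx, rfl⟩ a .z⟩

theorem CT_inN {κ : Cardinal.{0}} (hκ : ℵ₀ < κ) {U : Str} {A : Par U} (hA : Small κ A)
    (Γ : List Srt) : #{v : Tup U.car Γ // v.In A} < κ := by
  have key : #{v : Tup U.car Γ // v.In A} ≤ max ℵ₀ #(Σ s, {x // x ∈ A s}) := by
    induction Γ with
    | nil =>
      have : Finite {v : Tup U.car [] // v.In A} :=
        @Subtype.finite _ (inferInstanceAs (Finite Unit)) _
      exact mk_le_aleph0.trans (le_max_left _ _)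
    | cons t Γ ih =>
      refine (mk_le_of_injective (f := fun v : {v : Tup U.car (t :: Γ) // v.In A} =>
        ((⟨v.1.1, v.2 t .z⟩, ⟨v.1.2, fun s x => v.2 s (.s x)⟩) :
          {x // x ∈ A t} × {v : Tup U.car Γ // v.In A})) ?_).trans
        (CT1_prod (le_max_left _ _) ?_ ih)
      · rintro ⟨v, hv⟩ ⟨w, hw⟩ h
        have h1 := congrArg (fun z : {x // x ∈ A t} × {v : Tup U.car Γ // v.In A} => z.1.1) h
        have h2 := congrArg (fun z : {x // x ∈ A t} × {v : Tup U.car Γ // v.In A} => z.2.1) h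
        exact Subtype.ext (Prod.ext h1 h2)
      · exact (mk_le_of_injective (f := fun x : {x // x ∈ A t} =>
          (⟨t, x⟩ : Σ s, {x // x ∈ A s})) fun x y h => by simpa using h).trans (le_max_right _ _)
  exact key.trans_lt (max_lt hκ hA)

end Pool.Agent.Lib_helper58.ID
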