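import Pool.Agent.Lib_helper58.ID.SY

/-!
# MP_bc6371_lc, block TR1: first order facts transferred from the finite structures
-/

namespace Pool.Agent.Lib_helper58.ID

open Cardinal

/-- the carriers of the finite structures are nonempty -/
theorem TR1_fcar (m : ℕ) : ∀ s : Srt, Nonempty (fcar m s)
  | .base => ⟨(0 : Fin (m + 1))⟩
  | .prod a b => by
      obtain ⟨x⟩ := TR1_fcar m a
      obtain ⟨y⟩ := TR1_fcar m b
      exact ⟨((x, y) : fcar m a × fcar m b)⟩
  | .pow a => ⟨(∅ : Set (fcar m a))⟩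

/-- transfer of a sentence -/
theorem TR1_tr {U : Str} (hU : IsModel U) {P : Str → Prop}
    (hP : Dfn NoC [] (fun M _ _ => P M)) (h : ∀ m, P (F m)) : P U :=
  transfer (C := NoC) (P := fun M _ => P M) hU hP (Filter.Eventually.of_forall fun m _ => h m)
    (fun _ c => c.elim)

section TR
variable {U : Str} (hU : IsModel U)
include hU

theorem TR_nonempty (s : Srt) : Nonempty (U.car s) := by
  have h : ∃ _x : U.car s, True := TR1_tr (P := fun M => ∃ _x : M.car s, True) hU
    (Dfn.ex Dfn.true) (fun m => by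
      obtain ⟨x⟩ := TR1_fcar m s
      exact ⟨x, trivial⟩)
  obtain ⟨x, -⟩ := h
  exact ⟨x⟩

theorem TR_ext {a : Srt} {X Y : U.car (.pow a)} (h : U.ext X = U.ext Y) : X = Y := by
  have h1 : ∀ X Y : U.car (.pow a), (∀ x, U.mem a x X ↔ U.mem a x Y) → X = Y :=
    TR1_tr (P := fun M => ∀ X Y : M.car (.pow a), (∀ x, M.mem a x X ↔ M.mem a x Y) → X = Y) hU
      (Dfn.all
        (Dfn.all
          (Dfn.imp (Dfn.all
            (Dfn.iff (Dfn.mem IsT.zero (IsT.succ (IsT.succ IsT.zero)))
              (Dfn.mem IsT.zero (IsT.succ IsT.zero))))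
            (Dfn.eq (IsT.succ IsT.zero) IsT.zero)))) (fun m X Y h => Set.ext h)
  refine h1 X Y fun x => ?_
  have h2 : x ∈ U.ext X ↔ x ∈ U.ext Y := by rw [h]
  exact h2

theorem TR_pair_ex {a b : Srt} (x : U.car a) (y : U.car b) : ∃ z, U.pair a b x y z := by
  have h1 : ∀ (x : U.car a) (y : U.car b), ∃ z, U.pair a b x y z :=
    TR1_tr (P := fun M => ∀ (x : M.car a) (y : M.car b), ∃ z, M.pair a b x y z) hU
      (Dfn.all
        (Dfn.all
          (Dfn.ex
            (Dfn.pair (IsT.succ (IsT.succ IsT.zero)) (IsT.succ IsT.zero) IsT.zero))))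
      (fun m x y => ⟨((x, y) : fcar m a × fcar m b), rfl⟩)
  exact h1 x y

theorem TR_pair_fun {a b : Srt} {x : U.car a} {y : U.car b} {z z' : U.car (.prod a b)}
    (h : U.pair a b x y z) (h' : U.pair a b x y z') : z = z' := by
  have h1 : ∀ (x : U.car a) (y : U.car b) (z z' : U.car (.prod a b)),
      U.pair a b x y z → U.pair a b x y z' → z = z' :=
    TR1_tr (P := fun M => ∀ (x : M.car a) (y : M.car b) (z z' : M.car (.prod a b)),
        M.pair a b x y z → M.pair a b x y z' → z = z') hU
      (Dfn.all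
        (Dfn.all
          (Dfn.all
            (Dfn.all
              (Dfn.imp (Dfn.pair (IsT.succ (IsT.succ (IsT.succ IsT.zero)))
                (IsT.succ (IsT.succ IsT.zero)) (IsT.succ IsT.zero))
                (Dfn.imp (Dfn.pair (IsT.succ (IsT.succ (IsT.succ IsT.zero)))
                  (IsT.succ (IsT.succ IsT.zero)) IsT.zero)
                  (Dfn.eq (IsT.succ IsT.zero) IsT.zero)))))))
      (fun m x y z z' h h' => by
        have h1 : z = ((x, y) : fcar m a × fcar m b) := h
        have h2 : z' = ((x, y) : fcar m a × fcar m b) := h'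
        rw [h1, h2])
  exact h1 x y z z' h h'

theorem TR_pair_surj {a b : Srt} (z : U.car (.prod a b)) : ∃ x y, U.pair a b x y z := by
  have h1 : ∀ z : U.car (.prod a b), ∃ x y, U.pair a b x y z :=
    TR1_tr (P := fun M => ∀ z : M.car (.prod a b), ∃ x y, M.pair a b x y z) hU
      (Dfn.all
        (Dfn.ex
          (Dfn.ex
            (Dfn.pair (IsT.succ IsT.zero) IsT.zero (IsT.succ (IsT.succ IsT.zero))))))
      (fun m z => ⟨Prod.fst (α := fcar m a) (β := fcar m b) z,
        Prod.snd (α := fcar m a) (β := fcar m b) z, rfl⟩)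
  exact h1 z

theorem TR_pair_inj {a b : Srt} {x x' : U.car a} {y y' : U.car b} {z : U.car (.prod a b)}
    (h : U.pair a b x y z) (h' : U.pair a b x' y' z) : x = x' ∧ y = y' := by
  have h1 : ∀ (x x' : U.car a) (y y' : U.car b) (z : U.car (.prod a b)),
      U.pair a b x y z → U.pair a b x' y' z → x = x' ∧ y = y' :=
    TR1_tr (P := fun M => ∀ (x x' : M.car a) (y y' : M.car b) (z : M.car (.prod a b)),
        M.pair a b x y z → M.pair a b x' y' z → x = x' ∧ y = y') hU
      (Dfn.all
        (Dfn.all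
          (Dfn.all
            (Dfn.all
              (Dfn.all
                (Dfn.imp (Dfn.pair (IsT.succ (IsT.succ (IsT.succ (IsT.succ IsT.zero))))
                  (IsT.succ (IsT.succ IsT.zero)) IsT.zero)
                  (Dfn.imp (Dfn.pair (IsT.succ (IsT.succ (IsT.succ IsT.zero)))
                    (IsT.succ IsT.zero) IsT.zero)
                    (Dfn.and (Dfn.eq (IsT.succ (IsT.succ (IsT.succ (IsT.succ IsT.zero))))
                      (IsT.succ (IsT.succ (IsT.succ IsT.zero))))
                      (Dfn.eq (IsT.succ (IsT.succ IsT.zero)) (IsT.succ IsT.zero))))))))))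
      (fun m x x' y y' z h h' => by
        have h1 : z = ((x, y) : fcar m a × fcar m b) := h
        have h2 : z = ((x', y') : fcar m a × fcar m b) := h'
        have h3 : ((x, y) : fcar m a × fcar m b) = (x', y') := h1.symm.trans h2
        exact ⟨congrArg Prod.fst h3, congrArg Prod.snd h3⟩)
  exact h1 x x' y y' z h h'

/-- comprehension -/
theorem TR_compr {a : Srt} (D : Set (U.car a)) (hD : Def1 U (allPar U) D) :
    ∃ X : U.car (.pow a), U.ext X = D := by
  obtain ⟨φ, hφ⟩ := hD
  have h1 := transfer (C := fun s => {x // x ∈ allPar U s})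
    (P := fun M e => ∃ X : M.car (.pow a), ∀ x, M.mem a x X ↔ Sat M e φ (x, ())) hU
    (Dfn.ex
      (Dfn.all
        (Dfn.iff (Dfn.mem IsT.zero (IsT.succ IsT.zero))
          (Dfn.substV (Δ := [a, .pow a]) (Dfn.sat φ) (t := fun M e v => ((v.1, ()) : Tup M.car [a])) (IsTs.cons IsT.zero IsTs.nil)))))
    (Filter.Eventually.of_forall fun m e =>
      ⟨({x | Sat (F m) e φ (x, ())} : Set (fcar m a)), fun x => Iff.rfl⟩)
    (fun _ c => c.1)
  obtain ⟨X, hX⟩ := h1
  refine ⟨X, ?_⟩
  ext x
  have h2 : ((x, ()) : Tup U.car [a]) ∈ {v : Tup U.car [a] | v.1 ∈ D} ↔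
      ((x, ()) : Tup U.car [a]) ∈ {v | Sat U (fun _ a => a.1) φ v} := by rw [hφ]
  exact (hX x).trans h2.symm

/-- comprehension for relations -/
theorem TR_comprR {a b : Srt} (R : Set (Tup U.car [a, b])) (hR : DefOver U (allPar U) [a, b] R) :
    ∃ f : U.car (.pow (.prod a b)), ∀ x y, U.rel f x y ↔ (x, y, ()) ∈ R := by
  obtain ⟨φ, hφ⟩ := hR
  have h1 := transfer (C := fun s => {x // x ∈ allPar U s})
    (P := fun M e => ∃ f : M.car (.pow (.prod a b)), ∀ x y, M.rel f x y ↔ Sat M e φ (x, y, ())) hU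
    (Dfn.ex
      (Dfn.all
        (Dfn.all
          (Dfn.iff (Dfn.rel (IsT.succ (IsT.succ IsT.zero)) (IsT.succ IsT.zero) IsT.zero)
            (Dfn.substV (Δ := [b, a, .pow (.prod a b)]) (Dfn.sat φ)
              (t := fun M e v => ((v.2.1, v.1, ()) : Tup M.car [a, b]))
              (IsTs.cons (IsT.succ IsT.zero) (IsTs.cons IsT.zero IsTs.nil)))))))
    (Filter.Eventually.of_forall fun m e =>
      ⟨({z | Sat (F m) e φ (z.1, z.2, ())} : Set (fcar m a × fcar m b)), fun x y => by
        constructor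
        · rintro ⟨z, hz, hz'⟩
          have hz1 : z = ((x, y) : fcar m a × fcar m b) := hz
          subst hz1
          exact hz'
        · intro h
          exact ⟨((x, y) : fcar m a × fcar m b), rfl, h⟩⟩)
    (fun _ c => c.1)
  obtain ⟨f, hf⟩ := h1
  refine ⟨f, fun x y => ?_⟩
  rw [hf, hφ]
  rfl

end TR

end Pool.Agent.Lib_helper58.ID
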