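import Pool.Agent.Lib_helper58.ID.CT2
import Pool.Agent.Lib_helper58.ID.TR1
import Pool.Agent.Lib_helper58.ID.TR4

/-!
# Block ST1: ST_sep, ST_fam (helper83)
-/

namespace Pool.Agent.Lib_helper58.ID

open Cardinal

private theorem ST1_single {U : Str} {a b : Srt} (x : U.car a) (y : U.car b) :
    DefOver U (allPar U) [a, b] {v | v.1 = x ∧ v.2.1 = y} := by
  have h : Dfn (fun s => U.car s) [a, b] (fun _ e v => v.1 = e a x ∧ v.2.1 = e b y) :=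
    Dfn.and (Dfn.eq IsT.zero (IsT.cst (C := fun s => U.car s) x))
      (Dfn.eq (IsT.succ IsT.zero) (IsT.cst (C := fun s => U.car s) y))
  exact DefOver.of_dfn (A := allPar U) h (fun _ z => z) (fun _ _ => trivial)

private theorem ST1_finite {U : Str} {a b : Srt} (E : Set (Tup U.car [a, b])) (hE : E.Finite) :
    DefOver U (allPar U) [a, b] E := by
  refine Set.Finite.induction_on (motive := fun E _ => DefOver U (allPar U) [a, b] E) E hE
    DefOver.empty ?_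
  intro v E _ _ ih
  have h := (ST1_single (U := U) v.1 v.2.1).union ih
  have e : insert v E = {w : Tup U.car [a, b] | w.1 = v.1 ∧ w.2.1 = v.2.1} ∪ E := by
    ext w
    constructor
    · rintro (h | h)
      · subst h
        exact Or.inl ⟨rfl, rfl⟩
      · exact Or.inr h
    · rintro (⟨h1, h2⟩ | h)
      · refine Or.inl ?_
        obtain ⟨w1, w2, w3⟩ := w
        obtain ⟨v1, v2, v3⟩ := v
        have h1' : w1 = v1 := h1
        have h2' : w2 = v2 := h2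
        subst h1' h2'
        rfl
      · exact Or.inr h
  rw [e]
  exact h

private theorem ST1_def {U : Str} {A : Par U} {a b : Srt} (c : U.car a) (hc : c ∈ A a)
    (E : Set (U.car b)) (hE : E.Finite) (hEA : E ⊆ A b) :
    DefOver U A [.pow (.prod a b)] {v | ∀ d, U.rel v.1 c d ↔ d ∈ E} := by
  obtain ⟨n, f, hf⟩ : ∃ (n : ℕ) (f : Fin n → U.car b), Set.range f = E := by
    have := hE.fintype
    refine ⟨Fintype.card E, fun j => ((Fintype.equivFin E).symm j : U.car b), ?_⟩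
    ext x
    constructor
    · rintro ⟨j, rfl⟩
      exact ((Fintype.equivFin E).symm j).2
    · intro hx
      exact ⟨Fintype.equivFin E ⟨x, hx⟩, by simp⟩
  have hfA : ∀ j, f j ∈ A b := fun j => hEA (hf ▸ ⟨j, rfl⟩)
  have h : Dfn (fun s => {x // x ∈ A s}) [.pow (.prod a b)] (fun M e v =>
      ∀ d, (M.rel v.1 (e a ⟨c, hc⟩) d ↔ ¬ ∀ j : Fin n, ¬ d = e b ⟨f j, hfA j⟩)) := by
    refine Dfn.all (s := b) (P := fun (M : Str) (e : ∀ s, {x // x ∈ A s} → M.car s)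
      (v : Tup M.car [.pow (.prod a b)]) (d : M.car b) =>
      (M.rel v.1 (e a ⟨c, hc⟩) d ↔ ¬ ∀ j : Fin n, ¬ d = e b ⟨f j, hfA j⟩)) ?_
    refine Dfn.iff ?_ (Dfn.not (Dfn.allFin fun j => Dfn.not (Dfn.eq IsT.zero
      (IsT.cst (C := fun s => {x // x ∈ A s}) ⟨f j, hfA j⟩))))
    exact Dfn.rel (IsT.succ IsT.zero) (IsT.cst (C := fun s => {x // x ∈ A s}) ⟨c, hc⟩) IsT.zero
  have h2 := DefOver.of_dfn (A := A) h (fun _ z => z.1) (fun _ z => z.2)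
  have e : {v : Tup U.car [.pow (.prod a b)] | ∀ d, U.rel v.1 c d ↔ d ∈ E} =
      {v | ∀ d, (U.rel v.1 c d ↔ ¬ ∀ j : Fin n, ¬ d = f j)} := by
    ext v
    refine forall_congr' fun d => iff_congr Iff.rfl ?_
    rw [← hf]
    simp only [Set.mem_range, not_forall, not_not]
    exact ⟨fun ⟨j, hj⟩ => ⟨j, hj.symm⟩, fun ⟨j, hj⟩ => ⟨j, hj.symm⟩⟩
  rw [e]
  exact h2

section ST
variable {κ : Cardinal.{0}} (hκ : ℵ₀ < κ) {U : Str} (hU : IsModel U) (hs : Saturated κ U)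
include hκ hU hs

/-- a small family of finite sets of tuples is cut out by one definable relation -/
theorem ST_fam {Γ Δ : List Srt} (I : Set (Tup U.car Γ)) (hI : #I < κ)
    (S : Tup U.car Γ → Set (Tup U.car Δ)) (hf : ∀ i ∈ I, (S i).Finite) :
    ∃ R : Set (Tup U.car (Γ ++ Δ)), DefOver U (allPar U) (Γ ++ Δ) R ∧
      ∀ i ∈ I, ∀ y, i.app y ∈ R ↔ y ∈ S i := by
  choose cG hcG using fun v : Tup U.car Γ => TR_code_ex hU v
  choose cD hcD using fun v : Tup U.car Δ => TR_code_ex hU v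
  have iG : ∀ v w, cG v = cG w → v = w := fun v w h =>
    TR_code_inj hU (hcG v) (by rw [h]; exact hcG w)
  have iD : ∀ v w, cD v = cD w → v = w := fun v w h =>
    TR_code_inj hU (hcD v) (by rw [h]; exact hcD w)
  obtain ⟨A₁, hA₁, hX₁⟩ := CT_one hκ (U := U) (a := cd Γ) (cG '' I) (mk_image_le.trans_lt hI)
  have hcard : #(⋃ i : I, S i) < κ := by
    refine (mk_iUnion_le _).trans_lt (mul_lt_of_lt hκ.le hI ?_)
    refine lt_of_le_of_lt (ciSup_le' fun i => ?_) hκ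
    exact (lt_aleph0_iff_set_finite.2 (hf i.1 i.2)).le
  obtain ⟨A₂, hA₂, hX₂⟩ := CT_one hκ (U := U) (a := cd Δ) (cD '' ⋃ i : I, S i)
    (mk_image_le.trans_lt hcard)
  have hA := CT_sup hκ hA₁ hA₂
  have hG : ∀ i ∈ I, cG i ∈ A₁ (cd Γ) ∪ A₂ (cd Γ) := fun i hi => Or.inl (hX₁ ⟨i, hi, rfl⟩)
  have hD : ∀ i ∈ I, cD '' S i ⊆ A₁ (cd Δ) ∪ A₂ (cd Δ) := by
    rintro i hi _ ⟨y, hy, rfl⟩
    exact Or.inr (hX₂ ⟨y, Set.mem_iUnion.2 ⟨⟨i, hi⟩, hy⟩, rfl⟩)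
  obtain ⟨F, hF⟩ : ∃ F : Tup U.car Γ → Set (Tup U.car [.pow (.prod (cd Γ) (cd Δ))]),
      F = fun i => {v | ∀ d, U.rel v.1 (cG i) d ↔ d ∈ cD '' S i} := ⟨_, rfl⟩
  have hdef : ∀ D ∈ F '' I, DefOver U (fun s => A₁ s ∪ A₂ s) _ D := by
    rintro _ ⟨i, hi, rfl⟩
    rw [hF]
    exact ST1_def (A := fun s => A₁ s ∪ A₂ s) (cG i) (hG i hi) (cD '' S i) ((hf i hi).image _)
      (hD i hi)
  have hfin : ∀ 𝓖 : Set (Set (Tup U.car [.pow (.prod (cd Γ) (cd Δ))])), 𝓖 ⊆ F '' I → 𝓖.Finite →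
      (⋂₀ 𝓖).Nonempty := by
    intro 𝓖 h𝓖 hfi
    choose k hk hk' using fun D : 𝓖 => h𝓖 D.2
    have := hfi.to_subtype
    obtain ⟨R₀, hR₀⟩ : ∃ R₀ : Set (Tup U.car [cd Γ, cd Δ]),
        R₀ = ⋃ D : 𝓖, (fun d => (cG (k D), d, ())) '' (cD '' S (k D)) := ⟨_, rfl⟩
    have hfinR : R₀.Finite := by
      rw [hR₀]
      exact Set.finite_iUnion fun D => ((hf _ (hk D)).image _).image _
    obtain ⟨f, hfR⟩ := TR_comprR hU R₀ (ST1_finite R₀ hfinR)
    refine ⟨(f, ()), ?_⟩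
    intro D hD'
    have hkD : F (k ⟨D, hD'⟩) = D := hk' ⟨D, hD'⟩
    rw [← hkD, hF]
    intro d
    show U.rel f (cG (k ⟨D, hD'⟩)) d ↔ _
    rw [hfR, hR₀]
    refine Iff.trans (Set.mem_iUnion (x := ((cG (k ⟨D, hD'⟩), d, ()) : Tup U.car [cd Γ, cd Δ]))) ?_
    constructor
    · rintro ⟨D', d', hd', he⟩
      injection he with h1 h2
      injection h2 with h2 h3
      rw [← h2]
      have := iG _ _ h1
      rwa [this] at hd'
    · intro hd
      exact ⟨⟨D, hD'⟩, d, hd, rfl⟩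
  obtain ⟨Z, hZ⟩ := hs _ hA _ (F '' I) hdef hfin
  have hZ' : ∀ i ∈ I, ∀ d, U.rel Z.1 (cG i) d ↔ d ∈ cD '' S i := by
    intro i hi
    have := hZ (F i) ⟨i, hi, rfl⟩
    rw [hF] at this
    exact this
  refine ⟨{v | ∃ c, ∃ d, U.IsCode (Tup.fst (Γ := Γ) (Δ := Δ) v) c ∧
    U.IsCode (Tup.snd (Γ := Γ) (Δ := Δ) v) d ∧ U.rel Z.1 c d}, ?_, ?_⟩
  · have h : Dfn (fun s => U.car s) (Γ ++ Δ) (fun M e v =>
        ∃ c, ∃ d, M.IsCode (Tup.fst (Γ := Γ) (Δ := Δ) v) c ∧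
          M.IsCode (Tup.snd (Γ := Γ) (Δ := Δ) v) d ∧ M.rel (e _ Z.1) c d) := by
      refine Dfn.ex (s := cd Γ) (P := fun (M : Str) (e : ∀ s, U.car s → M.car s)
        (v : Tup M.car (Γ ++ Δ)) (c : M.car (cd Γ)) =>
        ∃ d, M.IsCode (Tup.fst (Γ := Γ) (Δ := Δ) v) c ∧
          M.IsCode (Tup.snd (Γ := Γ) (Δ := Δ) v) d ∧ M.rel (e _ Z.1) c d) ?_
      refine Dfn.ex (s := cd Δ) (Γ := cd Γ :: (Γ ++ Δ)) (P := fun (M : Str)
        (e : ∀ s, U.car s → M.car s) (v : Tup M.car (cd Γ :: (Γ ++ Δ))) (d : M.car (cd Δ)) =>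
        M.IsCode (Tup.fst (Γ := Γ) (Δ := Δ) v.2) v.1 ∧
          M.IsCode (Tup.snd (Γ := Γ) (Δ := Δ) v.2) d ∧ M.rel (e _ Z.1) v.1 d) ?_
      refine Dfn.and (Dfn.isCode (IsTs.fst (IsTs.succ (IsTs.succ IsTs.id)))
        (IsT.succ IsT.zero)) (Dfn.and (Dfn.isCode (IsTs.snd (IsTs.succ (IsTs.succ IsTs.id)))
        IsT.zero) ?_)
      exact Dfn.rel (IsT.cst (C := fun s => U.car s) Z.1) (IsT.succ IsT.zero) IsT.zero
    exact DefOver.of_dfn (A := allPar U) h (fun _ z => z) (fun _ _ => trivial)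
  · intro i hi y
    constructor
    · rintro ⟨c, d, hc, hd, hr⟩
      rw [Tup.fst_app] at hc
      rw [Tup.snd_app] at hd
      have e1 := TR_code_fun hU hc (hcG i)
      have e2 := TR_code_fun hU hd (hcD y)
      subst e1 e2
      obtain ⟨y', hy', e⟩ := (hZ' i hi _).1 hr
      rwa [← iD _ _ e]
    · intro hy
      refine ⟨cG i, cD y, ?_, ?_, (hZ' i hi _).2 ⟨y, hy, rfl⟩⟩
      · rw [Tup.fst_app]
        exact hcG i
      · rw [Tup.snd_app]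
        exact hcD y

theorem ST_sep {Γ : List Srt} (X₀ X₁ : Set (Tup U.car Γ)) (h₀ : #X₀ < κ) (h₁ : #X₁ < κ)
    (hd : Disjoint X₀ X₁) :
    ∃ D : Set (Tup U.car Γ), DefOver U (allPar U) Γ D ∧ X₀ ⊆ D ∧ Disjoint X₁ D := by
  have hI : #((X₀ ∪ X₁ : Set _)) < κ := (mk_union_le _ _).trans_lt (add_lt_of_lt hκ.le h₀ h₁)
  obtain ⟨R, hR, hR'⟩ := ST_fam hκ hU hs (Δ := []) (X₀ ∪ X₁) hI (fun i => {_y | i ∈ X₀})
    (fun i _ => (Set.finite_singleton (() : Tup U.car [])).subset (fun _ _ => rfl))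
  refine ⟨{v | v.app (Δ := []) () ∈ R}, hR.fibre (Δ := []) () (fun s x => nomatch x), ?_, ?_⟩
  · intro v hv
    exact (hR' v (Or.inl hv) ()).2 hv
  · rw [Set.disjoint_left]
    intro v hv hv'
    exact Set.disjoint_left.1 hd ((hR' v (Or.inr hv) ()).1 hv') hv

end ST

end Pool.Agent.Lib_helper58.ID
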