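import Pool.Agent.Lib_helper58.ID.CT2
import Pool.Agent.Lib_helper58.ID.TR2

/-!
# MP_bc6371_lc, block ST2: ST_large, ST_small
-/

namespace Pool.Agent.Lib_helper58.ID

open Cardinal

/-- a singleton with entries in `A` is definable over `A` -/
theorem ST2_single {U : Str} {A : Par U} : ∀ {Γ : List Srt} (v : Tup U.car Γ), v.In A →
    DefOver U A Γ {w | w = v}
  | [], v, _ => by
    have h : ({w | w = v} : Set (Tup U.car [])) = Set.univ := by
      ext w
      exact ⟨fun _ => trivial, fun _ => by cases w; cases v; rfl⟩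
    rw [h]
    exact DefOver.univ
  | s :: Γ, v, hv => by
    have h1 : v.1 ∈ A s := hv s Var.z
    have h2 : Tup.In (Γ := Γ) A v.2 := fun s' x => hv s' (Var.s x)
    have h3 : DefOver U A (s :: Γ) {w : Tup U.car (s :: Γ) | w.1 = v.1} :=
      DefOver.of_dfn (C := fun s => {x // x ∈ A s})
        (P := fun (M : Str) e (w : Tup M.car (s :: Γ)) => w.1 = e s ⟨v.1, h1⟩)
        (Dfn.eq IsT.zero (IsT.cst _)) (fun _ a => a.1) (fun _ a => a.2)
    have h4 : DefOver U A (s :: Γ) {w : Tup U.car (s :: Γ) | w.2 ∈ ({w | w = v.2} : Set (Tup U.car Γ))} :=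
      DefOver.pre (ST2_single (Γ := Γ) v.2 h2) (t := fun (M : Str) _ (w : Tup M.car (s :: Γ)) => (w.2 : Tup M.car Γ)) (IsTs.succ IsTs.id)
    have h5 : ({w | w = v} : Set (Tup U.car (s :: Γ))) =
        {w : Tup U.car (s :: Γ) | w.1 = v.1} ∩
          {w : Tup U.car (s :: Γ) | w.2 ∈ ({w | w = v.2} : Set (Tup U.car Γ))} := by
      ext w
      simp only [Set.mem_ofPred_eq, Set.mem_inter_iff]
      constructor
      · rintro rfl; exact ⟨rfl, rfl⟩
      · rintro ⟨a, b⟩; exact Prod.ext a b
    rw [h5]
    exact DefOver.inter h3 h4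

section ST
variable {κ : Cardinal.{0}} (hκ : ℵ₀ < κ) {U : Str} (hU : IsModel U) (hs : Saturated κ U)
include hκ hU hs

set_option linter.unusedSectionVars false

theorem ST_large {Γ : List Srt} (D : Set (Tup U.car Γ)) (hD : DefOver U (allPar U) Γ D)
    (hinf : D.Infinite) : κ ≤ #D := by
  by_contra hlt
  rw [not_le] at hlt
  obtain ⟨A₀, -, hf, hD₀⟩ := CT_finpar hD
  obtain ⟨A₁, hA₁, hv⟩ := CT_tup hκ D hlt
  have hA₀ : Small κ A₀ := by
    have : #(Σ s, {x // x ∈ A₀ s}) < ℵ₀ := Cardinal.lt_aleph0_of_finite _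
    exact this.trans hκ
  have hA := CT_sup hκ hA₀ hA₁
  set A : Par U := fun s => A₀ s ∪ A₁ s with hAdef
  have hD' : DefOver U A Γ D := hD₀.mono fun s => Set.subset_union_left
  have hv' : ∀ v ∈ D, v.In A := fun v h s x => Or.inr (hv v h s x)
  obtain ⟨w, hw⟩ := hs A hA Γ ({D} ∪ {E | ∃ v ∈ D, E = {w | w = v}ᶜ}) (by
    rintro E (rfl | ⟨v, h, rfl⟩)
    · exact hD'
    · exact (ST2_single v (hv' v h)).compl) (by
    intro 𝓖 h𝓖 hfin
    -- the finitely many points removed
    have hfin' : {v | v ∈ D ∧ ({w | w = v}ᶜ : Set (Tup U.car Γ)) ∈ 𝓖}.Finite := by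
      refine Set.Finite.of_finite_image (f := fun v => ({w | w = v}ᶜ : Set (Tup U.car Γ)))
        (hfin.subset ?_) ?_
      · rintro _ ⟨v, hv, rfl⟩
        exact hv.2
      · intro v _ v' _ h
        have h2 : ({w | w = v} : Set (Tup U.car Γ)) = {w | w = v'} := compl_injective h
        have h3 : v ∈ ({w | w = v'} : Set (Tup U.car Γ)) := h2 ▸ rfl
        exact h3
    obtain ⟨x, hx, hx'⟩ := (hinf.sdiff hfin').nonempty
    refine ⟨x, fun E hE => ?_⟩
    rcases h𝓖 hE with h | ⟨v, hvD, rfl⟩
    · rw [Set.mem_singleton_iff.1 h]; exact hx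
    · intro hxv
      have hxv' : x = v := hxv
      subst hxv'
      exact hx' ⟨hx, hE⟩)
  have h1 : w ∈ D := hw D (Or.inl rfl)
  exact hw _ (Or.inr ⟨w, h1, rfl⟩) rfl

/-- an infinite coded set smaller than all the infinite coded sets of a small `A` -/
theorem ST_small {A : Par U} (hA : Small κ A) : ∃ S : U.car (.pow .base), (U.ext S).Infinite ∧
    ∀ (a : Srt) (S' : U.car (.pow a)), S' ∈ A (.pow a) → (U.ext S').Infinite →
      ¬ U.le S' S := by
  let Γ : List Srt := [.pow .base]
  let B : ℕ → Set (Tup U.car Γ) := fun n => {v | U.Big n v.1}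
  have hB : ∀ n, DefOver U A Γ (B n) := fun n =>
    DefOver.of_dfn (C := fun s => {x // x ∈ A s}) (P := fun M _ (v : Tup M.car Γ) => M.Big n v.1)
      (Dfn.big n IsT.zero) (fun _ a => a.1) (fun _ a => a.2)
  let C : (Σ a : Srt, {S' : U.car (.pow a) // S' ∈ A (.pow a)}) → Set (Tup U.car Γ) :=
    fun q => {v | ¬ U.le q.2.1 v.1}
  have hC : ∀ q, DefOver U A Γ (C q) := fun q =>
    DefOver.of_dfn (C := fun s => {x // x ∈ A s})
      (P := fun M e (v : Tup M.car Γ) => ¬ M.le (e _ q.2) v.1)
      (Dfn.not (Dfn.le (IsT.cst _) IsT.zero)) (fun _ a => a.1) (fun _ a => a.2)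
  obtain ⟨w, hw⟩ := hs A hA Γ (Set.range B ∪ {E | ∃ q, (U.ext q.2.1).Infinite ∧ E = C q}) (by
    rintro E (⟨n, rfl⟩ | ⟨q, -, rfl⟩)
    · exact hB n
    · exact hC q) (by
    intro 𝓖 h𝓖 hfin
    -- a bound for the `n` with `B n ∈ 𝓖`
    have hB' : ∀ m n, m ≤ n → B n ⊆ B m := by
      intro m n hmn v hv
      have h1 : U.Big n v.1 := hv
      rw [TR_big hU] at h1
      change U.Big m v.1
      rw [TR_big hU]
      exact le_trans (by exact_mod_cast hmn) h1
    obtain ⟨N, hN⟩ : ∃ N : ℕ, ∀ E ∈ 𝓖, E ∈ Set.range B → B N ⊆ E := by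
      classical
      have h1 : ∀ E ∈ 𝓖, ∃ n : ℕ, E ∈ Set.range B → B n ⊆ E := by
        intro E _
        by_cases h : E ∈ Set.range B
        · obtain ⟨n, hn⟩ := h
          exact ⟨n, fun _ => hn ▸ subset_rfl⟩
        · exact ⟨0, fun h' => absurd h' h⟩
      choose! f hf using h1
      obtain ⟨N, hN⟩ := (hfin.image f).bddAbove
      refine ⟨N, fun E hE hr => ?_⟩
      exact (hB' _ _ (hN ⟨E, hE, rfl⟩)).trans (hf E hE hr)
    -- a set with exactly `N` elements
    have := TR_base_inf hU
    obtain ⟨X, hX⟩ : ∃ X : Finset (U.car .base), X.card = N :=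
      Infinite.exists_subset_card_eq (U.car .base) N
    obtain ⟨S, hS⟩ := TR_compr hU (a := .base) (X : Set (U.car .base)) (by
      classical
      have h1 : ∀ Y : Finset (U.car .base), Def1 U (allPar U) (Y : Set (U.car .base)) := by
        intro Y
        induction Y using Finset.induction_on with
        | empty =>
          have : ({v : Tup U.car [.base] | v.1 ∈ ((∅ : Finset (U.car .base)) : Set (U.car .base))}) = ∅ := by
            ext v; simp
          unfold Def1
          rw [this]
          exact DefOver.empty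
        | insert y Y _ ih =>
          have : ({v : Tup U.car [.base] | v.1 ∈ ((insert y Y : Finset (U.car .base)) : Set (U.car .base))}) =
              {v : Tup U.car [.base] | v = (y, ())} ∪
                {v : Tup U.car [.base] | v.1 ∈ (Y : Set (U.car .base))} := by
            ext v
            simp only [Finset.coe_insert, Set.mem_insert_iff, Set.mem_ofPred_eq, Set.mem_union]
            constructor
            · rintro (h | h)
              · left
                exact Prod.ext h rfl
              · exact Or.inr h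
            · rintro (h | h)
              · left
                rw [h]
              · exact Or.inr h
          unfold Def1
          rw [this]
          refine DefOver.union (ST2_single _ ?_) ih
          intro s x
          trivial
      exact h1 X)
    have hcard : (U.ext S).encard = N := by
      rw [hS, Set.encard_coe_eq_coe_finsetCard, hX]
    refine ⟨((S, ()) : Tup U.car [.pow .base]), fun E hE => ?_⟩
    by_cases hr : E ∈ Set.range B
    · apply hN E hE hr
      change U.Big N S
      rw [TR_big hU, hcard]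
    · rcases h𝓖 hE with h | ⟨q, hq, rfl⟩
      · exact absurd h hr
      · change ¬ U.le q.2.1 S
        intro hle
        have h1 : U.Big (N + 1) q.2.1 := by
          rw [TR_big hU, hq.encard_eq]
          exact le_top
        have h2 := TR_big_le hU h1 hle
        rw [TR_big hU, hcard] at h2
        have h3 : N + 1 ≤ N := by exact_mod_cast h2
        omega)
  refine ⟨w.1, ?_, ?_⟩
  · rw [← Set.encard_eq_top_iff]
    rw [ENat.eq_top_iff_forall_ge]
    intro n
    have h1 : w ∈ B n := hw _ (Or.inl ⟨n, rfl⟩)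
    have h2 : U.Big n w.1 := h1
    rwa [TR_big hU] at h2
  · intro a S' hS' hinf
    exact hw _ (Or.inr ⟨⟨a, S', hS'⟩, hinf, rfl⟩)
end ST

end Pool.Agent.Lib_helper58.ID
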