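import Pool.Agent.Lib_helper58.ID.PR3
import Pool.Agent.Lib_helper58.ID.ST1
import Pool.Agent.Lib_helper58.ID.ST2

/-!
# MP_bc6371_lc, block CV: idempotency up to domination implies (E)
-/

namespace Pool.Agent.Lib_helper58.ID

open Cardinal

/-- projections of definable sets -/
theorem cv_proj {U : Str} {A : Par U} {Γ Δ : List Srt} {D : Set (Tup U.car (Γ ++ Δ))}
    (h : DefOver U A (Γ ++ Δ) D) : DefOver U A Γ {x | ∃ y : Tup U.car Δ, x.app y ∈ D} := by
  obtain ⟨φ, rfl⟩ := h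
  have h1 : Dfn (fun s => {x // x ∈ A s}) (Δ ++ Γ)
      (fun M e v => Sat M e φ (Tup.app v.snd v.fst)) :=
    Dfn.substV (Dfn.sat φ) (IsTs.app (IsTs.snd IsTs.id) (IsTs.fst IsTs.id))
  have h2 : Dfn (fun s => {x // x ∈ A s}) Γ
      (fun M e v => ∃ y : Tup M.car Δ, Sat M e φ (v.app y)) :=
    Dfn.exT (P := fun M e v y => Sat M e φ (v.app y)) h1
  exact DefOver.of_dfn (A := A) h2 (fun _ a => a.1) fun s c => c.2

section
variable {κ : Cardinal.{0}} (hκ : ℵ₀ < κ) {U : Str} (hU : IsModel U) (hs : Saturated κ U)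
  {I : Type} (hI : #I < κ) (𝒟 : Ultrafilter I) {ι : I → Tup U.car [.base]}
  (p : Typ U (allPar U) [.base])
  (hp : p.sets = {D | DefOver U (allPar U) [.base] D ∧ D ∈ 𝒟.map ι})
include hκ hU hs hI hp

/-- membership in the product -/
theorem cv_tensor {D : Set (Tup U.car ([.base] ++ [.base]))}
    (hD : DefOver U (allPar U) ([.base] ++ [.base]) D)
    (h : ∀ᶠ j in (𝒟 : Filter I), ∀ᶠ i in (𝒟 : Filter I), (ι j).app (ι i) ∈ D) :
    D ∈ tensor κ U p.sets p.sets := by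
  have hr : #(Set.range ι) < κ := lt_of_le_of_lt mk_range_le hI
  obtain ⟨N, hN, hNι⟩ := CT_tup hκ (Set.range ι) hr
  have hco : ∀ D ∈ p.sets, ∃ v ∈ D, v.In N := by
    intro D hD
    rw [hp] at hD
    obtain ⟨i, hi⟩ := (𝒟.nonempty_of_mem (Ultrafilter.mem_map.1 hD.2))
    exact ⟨ι i, hi, hNι _ ⟨i, rfl⟩⟩
  rw [PR_coheir hκ hs p p hN hco hD]
  -- the good points
  obtain ⟨V, hV, h0, h1⟩ := ST_sep hκ hU hs
    (ι '' {j | ∀ᶠ i in (𝒟 : Filter I), (ι j).app (ι i) ∈ D})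
    ({v | v.In N} \ (ι '' {j | ∀ᶠ i in (𝒟 : Filter I), (ι j).app (ι i) ∈ D}))
    (lt_of_le_of_lt (mk_le_mk_of_subset (Set.image_subset_range _ _)) hr)
    (lt_of_le_of_lt (mk_le_mk_of_subset Set.sdiff_subset) (CT_inN hκ hN [.base]))
    (Set.disjoint_sdiff_right)
  refine ⟨V, ?_, ?_⟩
  · rw [hp]
    refine ⟨hV, ?_⟩
    rw [Ultrafilter.mem_map]
    exact Filter.mem_of_superset h fun j hj => h0 ⟨j, hj, rfl⟩
  · intro v hv hvN
    have hv' : v ∈ ι '' {j | ∀ᶠ i in (𝒟 : Filter I), (ι j).app (ι i) ∈ D} := by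
      by_contra hcon
      exact Set.disjoint_left.1 h1 ⟨hvN, hcon⟩ hv
    obtain ⟨j, hj, rfl⟩ := hv'
    rw [hp]
    refine ⟨hD.fibre' (ι j) fun s x => Set.mem_univ _, ?_⟩
    rw [Ultrafilter.mem_map]
    exact hj

end

theorem CV_conv {κ μ : Cardinal.{0}} (hμ : ℵ₀ ≤ μ) (hμκ : μ < κ) {U : Str} (hU : IsModel U)
    (hs : Saturated κ U)
    (h : ∀ p : Typ U (allPar U) [.base],
      (∃ A : Par U, #(Σ s, {x // x ∈ A s}) ≤ μ ∧ InvOver U A p.sets) →
      Dominates κ U p.sets (tensor κ U p.sets p.sets))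
    (I : Type) (𝒟 : Ultrafilter I) (hIμ : #I ≤ μ) : Cov 𝒟 := by
  classical
  have hκ : ℵ₀ < κ := hμ.trans_lt hμκ
  have hI : #I < κ := hIμ.trans_lt hμκ
  -- an injection into the base sort
  have hinfT : (Set.univ : Set (Tup U.car [.base])).Infinite := by
    have := TR_base_inf hU
    rw [Set.infinite_univ_iff]
    exact Infinite.of_injective (fun x : U.car .base => ((x, ()) : Tup U.car [.base]))
      fun x y hxy => (Prod.mk.inj hxy).1
  have hbig : κ ≤ #(Tup U.car [.base]) := by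
    have := ST_large hκ hU hs (Set.univ : Set (Tup U.car [.base])) DefOver.univ hinfT
    rwa [mk_univ] at this
  obtain ⟨ι⟩ : Nonempty (I ↪ Tup U.car [.base]) := Cardinal.le_def _ _ |>.1 (hI.le.trans hbig)
  obtain ⟨p, hp⟩ := PR_uf (allPar U) (𝒟.map ι)
  have hr : #(Set.range ι) < Order.succ μ :=
    lt_of_le_of_lt mk_range_le (Order.lt_succ_iff.2 hIμ)
  obtain ⟨N, hN, hNι⟩ := CT_tup (Order.lt_succ_iff.2 hμ) (Set.range ι) hr
  have hco : ∀ D ∈ p.sets, ∃ v ∈ D, v.In N := by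
    intro D hD
    rw [hp] at hD
    obtain ⟨i, hi⟩ := (𝒟.nonempty_of_mem (Ultrafilter.mem_map.1 hD.2))
    exact ⟨ι i, hi, hNι _ ⟨i, rfl⟩⟩
  obtain ⟨A, hA, hpA, -, r, h1, -, h3⟩ := h p ⟨N, Order.lt_succ_iff.1 hN, PR_inv p hco⟩
  -- the square of I
  let sq : I × I → Tup U.car ([.base] ++ [.base]) := fun w => (ι w.1).app (ι w.2)
  have hsq : Function.Injective sq := by
    intro w w' hw
    have e1 : ι w.1 = ι w'.1 := by
      have := congrArg (Tup.fst (Γ := [.base]) (Δ := [.base])) hw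
      simpa only [sq, Tup.fst_app] using this
    have e2 : ι w.2 = ι w'.2 := by
      have := congrArg (Tup.snd (Γ := [.base]) (Δ := [.base])) hw
      simpa only [sq, Tup.snd_app] using this
    exact Prod.ext (ι.injective e1) (ι.injective e2)
  have hII : #(I × I) < κ := by
    rw [mk_prod, lift_id]
    exact mul_lt_of_lt hκ.le hI hI
  have hrsq : #(Set.range sq) < κ := lt_of_le_of_lt mk_range_le hII
  -- few members of r
  have hrc : #r.sets < κ := by
    refine lt_of_le_of_lt ?_ (CT_count hκ hA ([.base] ++ ([.base] ++ [.base])))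
    exact mk_le_of_injective
      (f := fun D : r.sets => (⟨D.1, r.dfn D.1 D.2⟩ :
        {D : Set (Tup U.car ([.base] ++ ([.base] ++ [.base]))) //
          DefOver U A ([.base] ++ ([.base] ++ [.base])) D}))
      fun D D' hD => Subtype.ext (congrArg (fun x => x.1) hD)
  -- the key step
  obtain ⟨R₀, hR₀, hR₀i⟩ : ∃ R₀ ∈ r.sets, ∀ᶠ i in (𝒟 : Filter I),
      ∀ y, (ι i).app y ∈ R₀ → y ∈ Set.range sq := by
    by_contra hcon
    push Not at hcon
    let W : Set (Tup U.car ([.base] ++ [.base])) :=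
      {w | ∃ (R : r.sets) (i : I) (hw : ∃ y, (ι i).app y ∈ R.1 ∧ y ∉ Set.range sq),
        w = hw.choose}
    have hW : #W < κ := by
      have hWr : W ⊆ Set.range (fun q : {q : r.sets × I //
          ∃ y, (ι q.2).app y ∈ q.1.1 ∧ y ∉ Set.range sq} => q.2.choose) := by
        rintro w ⟨R, i, hw, rfl⟩
        exact ⟨⟨(R, i), hw⟩, rfl⟩
      refine lt_of_le_of_lt (mk_le_mk_of_subset hWr) (lt_of_le_of_lt mk_range_le ?_)
      refine lt_of_le_of_lt (mk_subtype_le _) ?_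
      rw [mk_prod, lift_id, lift_id]
      exact mul_lt_of_lt hκ.le hrc hI
    have hdis : Disjoint (Set.range sq) W := by
      rw [Set.disjoint_left]
      rintro w hw ⟨R, i, hw', rfl⟩
      exact hw'.choose_spec.2 hw
    obtain ⟨D₀, hD₀, hD₀1, hD₀2⟩ := ST_sep hκ hU hs (Set.range sq) W hrsq hW hdis
    have hD₀t : D₀ ∈ tensor κ U p.sets p.sets := by
      refine cv_tensor hκ hU hs hI 𝒟 p hp hD₀ ?_
      exact Filter.Eventually.of_forall fun j => Filter.Eventually.of_forall fun i =>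
        hD₀1 ⟨(j, i), rfl⟩
    obtain ⟨E, hE, R, hR, hER⟩ := h3 D₀ hD₀t
    have hEi : ∀ᶠ i in (𝒟 : Filter I), ι i ∈ E := by
      rw [hp] at hE
      exact Ultrafilter.mem_map.1 hE.2
    have hRi : ∀ᶠ i in (𝒟 : Filter I), ∃ y, (ι i).app y ∈ R ∧ y ∉ Set.range sq := hcon R hR
    obtain ⟨i, hi1, hi2⟩ := (hEi.and hRi).exists
    have hy := hi2.choose_spec
    have hyD : hi2.choose ∈ D₀ := hER _ _ hi1 hy.1
    exact Set.disjoint_left.1 hD₀2 ⟨⟨R, hR⟩, i, hi2, rfl⟩ hyD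
  -- the finite sets
  let S : I → Set (I × I) := fun i => {w | (ι i).app (sq w) ∈ R₀}
  refine ⟨fun i => if hi : (S i).Finite then hi.toFinset else ∅, fun Z hZ => ?_⟩
  -- a definable set with trace Z
  obtain ⟨D, hD, hD1, hD2⟩ := ST_sep hκ hU hs (sq '' Z) (sq '' Zᶜ)
    (lt_of_le_of_lt mk_image_le (lt_of_le_of_lt (mk_set_le _) hII))
    (lt_of_le_of_lt mk_image_le (lt_of_le_of_lt (mk_set_le _) hII))
    ((Set.disjoint_image_iff hsq).2 disjoint_compl_right)
  have hDZ : ∀ w, sq w ∈ D → w ∈ Z := by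
    intro w hw
    by_contra hcon
    exact Set.disjoint_left.1 hD2 ⟨w, hcon, rfl⟩ hw
  have hDt : D ∈ tensor κ U p.sets p.sets := by
    refine cv_tensor hκ hU hs hI 𝒟 p hp hD ?_
    filter_upwards [hZ] with j hj
    filter_upwards [hj] with i hi
    exact hD1 ⟨(j, i), hi, rfl⟩
  obtain ⟨E, hE, R, hR, hER⟩ := h3 D hDt
  have hEi : ∀ᶠ i in (𝒟 : Filter I), ι i ∈ E := by
    rw [hp] at hE
    exact Ultrafilter.mem_map.1 hE.2
  -- the fibres of R ∩ R₀ are not empty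
  have hRR : R ∩ R₀ ∈ r.sets := r.inter _ hR _ hR₀
  have hE' : DefOver U A [.base]
      {x | ∃ y : Tup U.car ([.base] ++ [.base]), x.app y ∈ R ∩ R₀} :=
    cv_proj (Γ := [.base]) (Δ := [.base] ++ [.base]) (r.dfn _ hRR)
  have hE'p : {x : Tup U.car [.base] | ∃ y : Tup U.car ([.base] ++ [.base]),
      x.app y ∈ R ∩ R₀} ∈ p.sets := by
    rcases p.ultra _ (hE'.mono fun s => Set.subset_univ _) with hh | hh
    · exact hh
    · exfalso
      have h4 := h1 _ hh hE'.compl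
      have h5 := r.inter _ hRR _ h4
      have h6 : R ∩ R₀ ∩ {z | ∃ (x : Tup U.car [.base]) (y : Tup U.car ([.base] ++ [.base])),
          z = Tup.app x y ∧ x ∈ {x : Tup U.car [.base] |
            ∃ y : Tup U.car ([.base] ++ [.base]), x.app y ∈ R ∩ R₀}ᶜ} = ∅ := by
        rw [Set.eq_empty_iff_forall_notMem]
        rintro z ⟨hz, x, y, rfl, hx⟩
        exact hx ⟨y, hz⟩
      rw [h6] at h5
      exact r.nempty h5
  have hE'i : ∀ᶠ i in (𝒟 : Filter I), ∃ y : Tup U.car ([.base] ++ [.base]),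
      (ι i).app y ∈ R ∩ R₀ := by
    rw [hp] at hE'p
    exact Ultrafilter.mem_map.1 hE'p.2
  filter_upwards [hEi, hE'i, hR₀i] with i hi1 hi2 hi3
  -- the fibre of R₀ is finite
  have hfin : (S i).Finite := by
    by_contra hinf
    have hinf' : (S i).Infinite := hinf
    have hR₀d : DefOver U (allPar U) ([.base] ++ ([.base] ++ [.base])) R₀ :=
      (r.dfn _ hR₀).mono fun s => Set.subset_univ _
    have hFd : DefOver U (allPar U) ([.base] ++ [.base]) {y | (ι i).app y ∈ R₀} :=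
      DefOver.fibre' (A := allPar U) (Γ := [Srt.base]) (Δ := [Srt.base] ++ [Srt.base]) hR₀d (ι i)
        fun s x => Set.mem_univ _
    have hsub : {y | (ι i).app y ∈ R₀} ⊆ Set.range sq := fun y hy => hi3 y hy
    have hFinf : {y | (ι i).app y ∈ R₀}.Infinite := by
      have : sq '' S i ⊆ {y | (ι i).app y ∈ R₀} := by
        rintro _ ⟨w, hw, rfl⟩
        exact hw
      exact (hinf'.image hsq.injOn).mono this
    have := ST_large hκ hU hs _ hFd hFinf
    exact absurd (lt_of_le_of_lt (this.trans (mk_le_mk_of_subset hsub)) hrsq) (lt_irrefl _)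
  obtain ⟨y, hy1, hy2⟩ := hi2
  obtain ⟨w, rfl⟩ := hi3 y hy2
  refine ⟨w, ?_, hDZ w (hER _ _ hi1 hy1)⟩
  rw [dif_pos hfin]
  exact hfin.mem_toFinset.2 hy2

end Pool.Agent.Lib_helper58.ID
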