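import Mathlib

/-!
# MP_bc6371_lc: definitions (many sorted tower language, types, domination)
Everything lives in `Type`.
-/

namespace Pool.Agent.Lib_helper58.ID

open Cardinal

/-- sorts of the tower language -/
inductive Srt : Type
  | base : Srt
  | prod : Srt → Srt → Srt
  | pow : Srt → Srt
  deriving DecidableEq

/-- structures of the tower language: one membership relation for each sort, and for each two sorts
the graph of the pairing function -/
structure Str where
  car : Srt → Type
  mem : ∀ a : Srt, car a → car (.pow a) → Prop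
  pair : ∀ a b : Srt, car a → car b → car (.prod a b) → Prop

/-- variables of a context -/
inductive Var : List Srt → Srt → Type
  | z {Γ : List Srt} {s : Srt} : Var (s :: Γ) s
  | s {Γ : List Srt} {s t : Srt} : Var Γ s → Var (t :: Γ) s

/-- terms: constants (from `C`) and variables (of the context) -/
inductive Tm (C : Srt → Type) (Γ : List Srt) (s : Srt) : Type
  | cst (c : C s) : Tm C Γ s
  | var (x : Var Γ s) : Tm C Γ s

/-- first order formulas of the tower language with constants from `C` and free variables in the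
context `Γ` -/
inductive Fml (C : Srt → Type) : List Srt → Type
  | bot {Γ : List Srt} : Fml C Γ
  | eq {Γ : List Srt} {s : Srt} (t t' : Tm C Γ s) : Fml C Γ
  | mem {Γ : List Srt} {a : Srt} (t : Tm C Γ a) (t' : Tm C Γ (.pow a)) : Fml C Γ
  | pair {Γ : List Srt} {a b : Srt} (t : Tm C Γ a) (t' : Tm C Γ b) (t'' : Tm C Γ (.prod a b)) :
      Fml C Γ
  | imp {Γ : List Srt} (φ ψ : Fml C Γ) : Fml C Γ
  | all {Γ : List Srt} (s : Srt) (φ : Fml C (s :: Γ)) : Fml C Γ

/-- tuples -/
@[reducible] def Tup (M : Srt → Type) : List Srt → Type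
  | [] => Unit
  | s :: Γ => M s × Tup M Γ

/-- the entry of a tuple at a variable -/
def Tup.get {M : Srt → Type} : ∀ {Γ : List Srt} {s : Srt}, Tup M Γ → Var Γ s → M s
  | _, _, v, .z => v.1
  | _, _, v, .s x => Tup.get v.2 x

/-- value of a term -/
def Tm.val {C M : Srt → Type} {Γ : List Srt} {s : Srt} (e : ∀ s, C s → M s) (v : Tup M Γ) :
    Tm C Γ s → M s
  | .cst c => e s c
  | .var x => v.get x

/-- Tarski's truth definition -/
def Sat (M : Str) {C : Srt → Type} (e : ∀ s, C s → M.car s) :
    ∀ {Γ : List Srt}, Fml C Γ → Tup M.car Γ → Prop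
  | _, .bot, _ => False
  | _, .eq t t', v => t.val e v = t'.val e v
  | _, .mem t t', v => M.mem _ (t.val e v) (t'.val e v)
  | _, .pair t t' t'', v => M.pair _ _ (t.val e v) (t'.val e v) (t''.val e v)
  | _, .imp φ ψ, v => Sat M e φ v → Sat M e ψ v
  | _, .all s φ, v => ∀ x : M.car s, Sat M e φ (x, v)

/-- no constants -/
abbrev NoC : Srt → Type := fun _ => Empty

/-- sentences -/
abbrev Snt : Type := Fml NoC []

/-- truth of a sentence -/
def Str.Models (M : Str) (σ : Snt) : Prop := Sat M (fun _ c => c.elim) σ ()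

/-- carriers of the finite full type structure over `m + 1` points -/
def fcar (m : ℕ) : Srt → Type
  | .base => Fin (m + 1)
  | .prod a b => fcar m a × fcar m b
  | .pow a => Set (fcar m a)

/-- the finite full type structure over `m + 1` points -/
def F (m : ℕ) : Str where
  car := fcar m
  mem := fun a (x : fcar m a) (X : Set (fcar m a)) => x ∈ X
  pair := fun a b (x : fcar m a) (y : fcar m b) (z : fcar m a × fcar m b) => z = (x, y)

/-- the theory `T`: the sentences true in almost all the finite full type structures (for a fixed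
nonprincipal ultrafilter on the natural numbers), that is the theory of their ultraproduct -/
def T : Set Snt := {σ | ∀ᶠ m in (Filter.hyperfilter ℕ : Filter ℕ), (F m).Models σ}

/-- `U` is a model of `T` -/
def IsModel (U : Str) : Prop := ∀ σ ∈ T, U.Models σ

/-- parameter sets: a set of elements in each sort -/
abbrev Par (U : Str) : Type := ∀ s, Set (U.car s)

/-- `D` is definable in `U` with parameters from `A` -/
def DefOver (U : Str) (A : Par U) (Γ : List Srt) (D : Set (Tup U.car Γ)) : Prop :=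
  ∃ φ : Fml (fun s => {x // x ∈ A s}) Γ, D = {v | Sat U (fun _ a => a.1) φ v}

/-- parameter sets with fewer than `κ` elements -/
def Small (κ : Cardinal.{0}) {U : Str} (A : Par U) : Prop := #(Σ s, {x // x ∈ A s}) < κ

/-- all elements -/
def allPar (U : Str) : Par U := fun _ => Set.univ

/-- no elements -/
def noPar (U : Str) : Par U := fun _ => ∅

/-- `U` is `κ`-saturated: every finitely satisfiable family of `A`-definable sets of finite tuples,
`A` of size less than `κ`, has a common point -/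
def Saturated (κ : Cardinal.{0}) (U : Str) : Prop :=
  ∀ A : Par U, Small κ A → ∀ (Γ : List Srt) (𝓕 : Set (Set (Tup U.car Γ))),
    (∀ D ∈ 𝓕, DefOver U A Γ D) →
    (∀ 𝓖 : Set (Set (Tup U.car Γ)), 𝓖 ⊆ 𝓕 → 𝓖.Finite → (⋂₀ 𝓖).Nonempty) → (⋂₀ 𝓕).Nonempty

/-- complete types over `A` in the variables `Γ`, as ultrafilters of `A`-definable sets -/
structure Typ (U : Str) (A : Par U) (Γ : List Srt) where
  sets : Set (Set (Tup U.car Γ))
  dfn : ∀ D ∈ sets, DefOver U A Γ D
  inter : ∀ D ∈ sets, ∀ D' ∈ sets, D ∩ D' ∈ sets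
  mono : ∀ D ∈ sets, ∀ D', DefOver U A Γ D' → D ⊆ D' → D' ∈ sets
  nempty : ∅ ∉ sets
  ultra : ∀ D, DefOver U A Γ D → D ∈ sets ∨ Dᶜ ∈ sets

/-- the concatenation of two tuples -/
def Tup.app {M : Srt → Type} : ∀ {Γ Δ : List Srt}, Tup M Γ → Tup M Δ → Tup M (Γ ++ Δ)
  | [], _, _, w => w
  | _ :: _, _, v, w => (v.1, Tup.app v.2 w)

/-- the two tuples have the same type over `A` -/
def SameTp (U : Str) (A : Par U) {Δ : List Srt} (b b' : Tup U.car Δ) : Prop :=
  ∀ D, DefOver U A Δ D → (b ∈ D ↔ b' ∈ D)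

/-- `A`-invariance of a set of definable sets: for every formula without parameters, in variables
`x` (context `Γ`) and `y` (context `Δ`), with solution set `R`, and all `b`, `b'` with the same type
over `A`, the set `R(x, b)` is in `p` iff `R(x, b')` is -/
def InvOver (U : Str) (A : Par U) {Γ : List Srt} (p : Set (Set (Tup U.car Γ))) : Prop :=
  ∀ (Δ : List Srt) (R : Set (Tup U.car (Γ ++ Δ))), DefOver U (noPar U) (Γ ++ Δ) R →
    ∀ b b' : Tup U.car Δ, SameTp U A b b' →
      ({x | x.app b ∈ R} ∈ p ↔ {x | x.app b' ∈ R} ∈ p)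

/-- invariance over some small set -/
def Invar (κ : Cardinal.{0}) (U : Str) {Γ : List Srt} (p : Set (Set (Tup U.car Γ))) : Prop :=
  ∃ A : Par U, Small κ A ∧ InvOver U A p

/-- the product `p ⊗ q`, computed in the monster model: `D ∈ p ⊗ q` iff `D` is definable over some
small `A` over which `p` is invariant, and for some realisation `b` of the restriction of `q` to `A`
the fibre `D(x, b)` is in `p` -/
def tensor (κ : Cardinal.{0}) (U : Str) {Γ Δ : List Srt} (p : Set (Set (Tup U.car Γ)))
    (q : Set (Set (Tup U.car Δ))) : Set (Set (Tup U.car (Γ ++ Δ))) :=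
  {D | ∃ A : Par U, Small κ A ∧ InvOver U A p ∧ DefOver U A (Γ ++ Δ) D ∧
    ∃ b : Tup U.car Δ, (∀ E ∈ q, DefOver U A Δ E → b ∈ E) ∧ {x | x.app b ∈ D} ∈ p}

/-- domination `p ≥ q`: a small `A` over which both are invariant and a type `r` over `A` in the
variables `x, y` extending the restrictions of `p(x)` and `q(y)` to `A`, with `p(x) ∪ r(x, y)`
implying `q(y)` -/
def Dominates (κ : Cardinal.{0}) (U : Str) {Γ Δ : List Srt} (p : Set (Set (Tup U.car Γ)))
    (q : Set (Set (Tup U.car Δ))) : Prop :=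
  ∃ A : Par U, Small κ A ∧ InvOver U A p ∧ InvOver U A q ∧ ∃ r : Typ U A (Γ ++ Δ),
    (∀ D ∈ p, DefOver U A Γ D → {z | ∃ x y, z = Tup.app x y ∧ x ∈ D} ∈ r.sets) ∧
    (∀ D ∈ q, DefOver U A Δ D → {z | ∃ x y, z = Tup.app x y ∧ y ∈ D} ∈ r.sets) ∧
    ∀ D ∈ q, ∃ E ∈ p, ∃ R ∈ r.sets, ∀ x y, x ∈ E → Tup.app x y ∈ R → y ∈ D

/-- `p` is idempotent up to domination: `p ~ p ⊗ p` -/
def Idem (κ : Cardinal.{0}) (U : Str) {Γ : List Srt} (p : Set (Set (Tup U.car Γ))) : Prop :=
  Dominates κ U p (tensor κ U p p) ∧ Dominates κ U (tensor κ U p p) p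

/-- the covering property (E) of an ultrafilter `𝒟` on `I`: some `ρ` with finite subsets of `I × I`
as values meets, almost everywhere, every member of `𝒟 ⊗ 𝒟` -/
@[reducible] def Cov {I : Type} (𝒟 : Ultrafilter I) : Prop :=
  ∃ ρ : I → Finset (I × I),
    ∀ Z : Set (I × I), (∀ᶠ j in (𝒟 : Filter I), ∀ᶠ i in (𝒟 : Filter I), (j, i) ∈ Z) →
      ∀ᶠ i in (𝒟 : Filter I), ∃ w ∈ ρ i, w ∈ Z

/-- the formula `R(x, y)` (with solution set `R` in `U`) has the independence property -/
def HasIP (U : Str) {Γ Δ : List Srt} (R : Set (Tup U.car (Γ ++ Δ))) : Prop :=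
  ∀ n : ℕ, ∃ (b : Fin n → Tup U.car Γ) (c : Set (Fin n) → Tup U.car Δ),
    ∀ i W, (b i).app (c W) ∈ R ↔ i ∈ W

/-- uniform ultrafilters -/
def UniformUf {I : Type} (𝒟 : Ultrafilter I) : Prop := ∀ X ∈ 𝒟, #X = #I

/-- regular ultrafilters: there are `#I` members such that every point is in finitely many -/
def RegularUf {I : Type} (𝒟 : Ultrafilter I) : Prop :=
  ∃ f : I → Finset I, ∀ j, ∀ᶠ i in (𝒟 : Filter I), j ∈ f i

end Pool.Agent.Lib_helper58.ID
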