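import Pool.Agent.Lib_helper58.ID.PR3
import Pool.Agent.Lib_helper58.ID.ST1

set_option autoImplicit false

namespace Pool.Agent.Lib_helper58.ID

open Cardinal

/-! ### Block ID (idempotency from (E)) -/

/-- a type all of whose members meet `N` comes from an ultrafilter on the `N`-points -/
theorem ID_trace {U : Str} {Γ : List Srt} (p : Typ U (allPar U) Γ) {N : Par U}
    (hp : ∀ D ∈ p.sets, ∃ v ∈ D, v.In N) :
    ∃ 𝒟 : Ultrafilter {v : Tup U.car Γ // v.In N},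
      ∀ D ∈ p.sets, ∀ᶠ i in (𝒟 : Filter {v : Tup U.car Γ // v.In N}), i.1 ∈ D := by
  have huniv : Set.univ ∈ p.sets := by
    rcases p.ultra Set.univ DefOver.univ with h | h
    · exact h
    · rw [Set.compl_univ] at h
      exact absurd h p.nempty
  let 𝓕 : Filter {v : Tup U.car Γ // v.In N} :=
    { sets := {S | ∃ D ∈ p.sets, ∀ i : {v : Tup U.car Γ // v.In N}, i.1 ∈ D → i ∈ S}
      univ_sets := ⟨Set.univ, huniv, fun _ _ => trivial⟩
      sets_of_superset := by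
        rintro S S' ⟨D, hD, h⟩ hSS
        exact ⟨D, hD, fun i hi => hSS (h i hi)⟩
      inter_sets := by
        rintro S S' ⟨D, hD, h⟩ ⟨D', hD', h'⟩
        exact ⟨D ∩ D', p.inter D hD D' hD', fun i hi => ⟨h i hi.1, h' i hi.2⟩⟩ }
  have hne : 𝓕.NeBot := by
    refine ⟨fun hbot => ?_⟩
    have h : (∅ : Set {v : Tup U.car Γ // v.In N}) ∈ 𝓕 := by rw [hbot]; trivial
    obtain ⟨D, hD, h⟩ := h
    obtain ⟨v, hv, hvN⟩ := hp D hD
    exact h ⟨v, hvN⟩ hv
  refine ⟨Ultrafilter.of 𝓕, fun D hD => ?_⟩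
  exact Ultrafilter.of_le 𝓕 ⟨D, hD, fun i hi => hi⟩

/-- the bounded quantifier -/
theorem ID_forall {U : Str} {Γ Δ : List Srt} {R : Set (Tup U.car (Γ ++ Δ))}
    {D : Set (Tup U.car Δ)} (hR : DefOver U (allPar U) (Γ ++ Δ) R)
    (hD : DefOver U (allPar U) Δ D) :
    DefOver U (allPar U) Γ {x | ∀ y : Tup U.car Δ, x.app y ∈ R → y ∈ D} := by
  obtain ⟨φ, hφ⟩ := hR
  obtain ⟨ψ, hψ⟩ := hD
  have h1 : Dfn (fun s => {x // x ∈ allPar U s}) Γ
      (fun M e x => ∀ y : Tup M.car Δ, Sat M e φ (x.app y) → Sat M e ψ y) :=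
    Dfn.allT (P := fun M e x y => Sat M e φ (x.app y) → Sat M e ψ y)
      (Dfn.imp (Dfn.substV (Dfn.sat φ) (IsTs.app (IsTs.snd IsTs.id) (IsTs.fst IsTs.id)))
        (Dfn.substV (Dfn.sat ψ) (IsTs.fst IsTs.id)))
  have h2 := DefOver.of_dfn (U := U) (A := allPar U) h1 (fun _ a => a.1) (fun s c => c.2)
  rw [hφ, hψ]
  exact h2

theorem ID_idem {κ μ : Cardinal.{0}} (hμ : ℵ₀ ≤ μ) (hμκ : 2 ^ μ < κ) {U : Str}
    (hU : IsModel U) (hs : Saturated κ U)
    (hE : ∀ (I : Type) (𝒟 : Ultrafilter I), #I ≤ μ → Cov 𝒟) {Γ : List Srt}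
    (p : Typ U (allPar U) Γ) {N : Par U} (hNμ : #(Σ s, {x // x ∈ N s}) ≤ μ)
    (hp : ∀ D ∈ p.sets, ∃ v ∈ D, v.In N) :
    Dominates κ U p.sets (tensor κ U p.sets p.sets) := by
  classical
  have hμκ' : μ < κ := (cantor μ).trans hμκ
  have hκ : ℵ₀ < κ := hμ.trans_lt hμκ'
  have hN : Small κ N := hNμ.trans_lt hμκ'
  have hpN : InvOver U N p.sets := PR_inv p hp
  obtain ⟨𝒟, h𝒟⟩ := ID_trace p hp
  have hI : #{v : Tup U.car Γ // v.In N} < κ := CT_inN hκ hN Γ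
  have hIμ : #{v : Tup U.car Γ // v.In N} ≤ μ := by
    rw [← Order.lt_succ_iff]
    exact CT_inN (Order.lt_succ_iff.2 hμ) (Order.lt_succ_iff.2 hNμ) Γ
  obtain ⟨ρ, hρ⟩ := hE _ 𝒟 hIμ
  obtain ⟨t, ht, htN⟩ := PR_typ hκ hs p p hN hpN hpN
  -- the traces of the members of the product
  have htr : ∀ D ∈ tensor κ U p.sets p.sets,
      ∀ᶠ j in (𝒟 : Filter {v : Tup U.car Γ // v.In N}),
        ∀ᶠ i in (𝒟 : Filter {v : Tup U.car Γ // v.In N}), (j.1.app i.1) ∈ D := by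
    intro D hD
    have hDd : DefOver U (allPar U) (Γ ++ Γ) D := by
      rw [← ht] at hD; exact t.dfn D hD
    obtain ⟨V, hV, h⟩ := (PR_coheir hκ hs p p hN hp hDd).1 hD
    refine (h𝒟 V hV).mono fun j hj => ?_
    exact h𝒟 _ (h j.1 hj j.2)
  -- the finite sets
  let S : Set ({v : Tup U.car Γ // v.In N} × {v : Tup U.car Γ // v.In N}) → Tup U.car Γ →
      Set (Tup U.car (Γ ++ Γ)) := fun Z v =>
    {y | ∃ (h : v.In N), ∃ w ∈ ρ ⟨v, h⟩, w ∈ Z ∧ y = w.1.1.app w.2.1}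
  have hSfin : ∀ Z v, (S Z v).Finite := by
    intro Z v
    by_cases h : v.In N
    · refine Set.Finite.subset ((ρ ⟨v, h⟩).finite_toSet.image fun w => w.1.1.app w.2.1) ?_
      rintro y ⟨_, w, hw, _, rfl⟩
      exact ⟨w, hw, rfl⟩
    · have : S Z v = ∅ := by
        ext y
        constructor
        · rintro ⟨h', _⟩; exact absurd h' h
        · intro h'; exact h'.elim
      rw [this]; exact Set.finite_empty
  choose R hRd hR using fun Z => ST_fam hκ hU hs (Γ := Γ) (Δ := Γ ++ Γ)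
    {v : Tup U.car Γ | v.In N} hI (S Z) (fun v _ => hSfin Z v)
  choose B hBA hBfin hBd using fun Z => CT_finpar (hRd Z)
  have hJ : #(Set ({v : Tup U.car Γ // v.In N} × {v : Tup U.car Γ // v.In N})) < κ := by
    rw [Cardinal.mk_set, Cardinal.mk_prod, Cardinal.lift_id]
    exact (Cardinal.power_le_power_left two_ne_zero
      (Cardinal.mul_le_of_le hμ hIμ hIμ)).trans_lt hμκ
  have hBU : Small κ (fun s => ⋃ Z, B Z s) := CT_union hκ hJ B hBfin
  set A : Par U := fun s => N s ∪ ⋃ Z, B Z s with hA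
  have hAs : Small κ A := CT_sup hκ hN hBU
  have hNA : ∀ s, N s ⊆ A s := fun s => Set.subset_union_left
  have hBA' : ∀ Z s, B Z s ⊆ A s := fun Z s => (Set.subset_iUnion (fun Z => B Z s) Z).trans
    Set.subset_union_right
  have hRA : ∀ Z, DefOver U A (Γ ++ (Γ ++ Γ)) (R Z) := fun Z => (hBd Z).mono (hBA' Z)
  -- the ultrafilter
  let 𝓕 : Filter ({v : Tup U.car Γ // v.In N} ×
      ({v : Tup U.car Γ // v.In N} × {v : Tup U.car Γ // v.In N})) :=
    { sets := {X | ∃ Z : Set ({v : Tup U.car Γ // v.In N} × {v : Tup U.car Γ // v.In N}),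
        (∀ᶠ j in (𝒟 : Filter {v : Tup U.car Γ // v.In N}),
          ∀ᶠ i in (𝒟 : Filter {v : Tup U.car Γ // v.In N}), (j, i) ∈ Z) ∧
        ∀ᶠ i in (𝒟 : Filter {v : Tup U.car Γ // v.In N}), ∀ w ∈ ρ i, w ∈ Z → (i, w) ∈ X}
      univ_sets := ⟨Set.univ, Filter.Eventually.of_forall fun _ =>
        Filter.Eventually.of_forall fun _ => trivial, Filter.Eventually.of_forall fun _ _ _ _ =>
          trivial⟩
      sets_of_superset := by
        rintro X X' ⟨Z, hZ, h⟩ hXX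
        exact ⟨Z, hZ, h.mono fun i hi w hw hwZ => hXX (hi w hw hwZ)⟩
      inter_sets := by
        rintro X X' ⟨Z, hZ, h⟩ ⟨Z', hZ', h'⟩
        refine ⟨Z ∩ Z', ?_, ?_⟩
        · exact (hZ.and hZ').mono fun j hj => (hj.1.and hj.2).mono fun i hi => hi
        · exact (h.and h').mono fun i hi w hw hwZ => ⟨hi.1 w hw hwZ.1, hi.2 w hw hwZ.2⟩ }
  have hne : 𝓕.NeBot := by
    refine ⟨fun hbot => ?_⟩
    have h : (∅ : Set ({v : Tup U.car Γ // v.In N} ×
      ({v : Tup U.car Γ // v.In N} × {v : Tup U.car Γ // v.In N}))) ∈ 𝓕 := by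
      rw [hbot]; trivial
    obtain ⟨Z, hZ, h⟩ := h
    obtain ⟨i, ⟨w, hw, hwZ⟩, hi⟩ := ((hρ Z hZ).and h).exists
    exact hi w hw hwZ
  obtain ⟨r, hr⟩ := PR_uf A ((Ultrafilter.of 𝓕).map fun z => Tup.app z.1.1 (z.2.1.1.app z.2.2.1))
  have hmem : ∀ X : Set (Tup U.car (Γ ++ (Γ ++ Γ))), DefOver U A _ X →
      (∃ Z : Set ({v : Tup U.car Γ // v.In N} × {v : Tup U.car Γ // v.In N}),
        (∀ᶠ j in (𝒟 : Filter {v : Tup U.car Γ // v.In N}),
          ∀ᶠ i in (𝒟 : Filter {v : Tup U.car Γ // v.In N}), (j, i) ∈ Z) ∧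
        ∀ᶠ i in (𝒟 : Filter {v : Tup U.car Γ // v.In N}), ∀ w ∈ ρ i, w ∈ Z →
          Tup.app i.1 (w.1.1.app w.2.1) ∈ X) → X ∈ r.sets := by
    intro X hX hZ
    rw [hr]
    refine ⟨hX, ?_⟩
    rw [Ultrafilter.mem_map]
    exact Ultrafilter.of_le 𝓕 hZ
  refine ⟨A, hAs, PR_invMono hpN hNA, ?_, r, ?_, ?_, ?_⟩
  · rw [← ht]; exact PR_invMono htN hNA
  · intro D hD hDA
    have e : {z : Tup U.car (Γ ++ (Γ ++ Γ)) | ∃ x y, z = Tup.app x y ∧ x ∈ D} =
        {z | z.fst ∈ D} := by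
      ext z
      constructor
      · rintro ⟨x, y, rfl, hx⟩
        show (x.app y).fst ∈ D
        rw [Tup.fst_app]; exact hx
      · intro hz
        exact ⟨z.fst, z.snd, (Tup.app_fst_snd z).symm, hz⟩
    rw [e]
    refine hmem _ (DefOver.pre hDA (IsTs.fst IsTs.id)) ⟨Set.univ, ?_, ?_⟩
    · exact Filter.Eventually.of_forall fun _ => Filter.Eventually.of_forall fun _ => trivial
    · refine (h𝒟 D hD).mono fun i hi w _ _ => ?_
      show (Tup.app i.1 (w.1.1.app w.2.1)).fst ∈ D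
      rw [Tup.fst_app]; exact hi
  · intro D hD hDA
    have e : {z : Tup U.car (Γ ++ (Γ ++ Γ)) | ∃ x y, z = Tup.app x y ∧ y ∈ D} =
        {z | z.snd ∈ D} := by
      ext z
      constructor
      · rintro ⟨x, y, rfl, hx⟩
        show (x.app y).snd ∈ D
        rw [Tup.snd_app]; exact hx
      · intro hz
        exact ⟨z.fst, z.snd, (Tup.app_fst_snd z).symm, hz⟩
    rw [e]
    refine hmem _ (DefOver.pre hDA (IsTs.snd IsTs.id))
      ⟨{w | w.1.1.app w.2.1 ∈ D}, htr D hD, ?_⟩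
    refine Filter.Eventually.of_forall fun i w _ hw => ?_
    show (Tup.app i.1 (w.1.1.app w.2.1)).snd ∈ D
    rw [Tup.snd_app]; exact hw
  · intro D hD
    have hDd : DefOver U (allPar U) (Γ ++ Γ) D := by
      rw [← ht] at hD; exact t.dfn D hD
    set Z : Set ({v : Tup U.car Γ // v.In N} × {v : Tup U.car Γ // v.In N}) :=
      {w | w.1.1.app w.2.1 ∈ D} with hZ
    have hEd := ID_forall (hRd Z) hDd
    have hEp : {x | ∀ y : Tup U.car (Γ ++ Γ), x.app y ∈ R Z → y ∈ D} ∈ p.sets := by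
      rcases p.ultra _ hEd with h | h
      · exact h
      · exfalso
        obtain ⟨v, hv, hvN⟩ := hp _ h
        apply hv
        intro y hy
        obtain ⟨_, w, _, hwZ, rfl⟩ := (hR Z v hvN y).1 hy
        exact hwZ
    refine ⟨_, hEp, R Z, ?_, fun x y hx hxy => hx y hxy⟩
    refine hmem _ (hRA Z) ⟨Z, htr D hD, ?_⟩
    refine Filter.Eventually.of_forall fun i w hw hwZ => ?_
    exact (hR Z i.1 i.2 _).2 ⟨i.2, w, hw, hwZ, rfl⟩

end Pool.Agent.Lib_helper58.ID
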