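import Pool.Agent.Lib_helper58.ID.Base

/-!
# MP_bc6371_lc, block MS1: the ultraproduct of the finite structures (theorem of Los)
-/

namespace Pool.Agent.Lib_helper58.ID

open Filter

/-- the ultrafilter of the ultraproduct -/
noncomputable abbrev MS1_D : Ultrafilter ℕ := Filter.hyperfilter ℕ

/-- equality almost everywhere -/
def MS1_set (s : Srt) : Setoid (∀ m, (F m).car s) where
  r f g := ∀ᶠ m in (MS1_D : Filter ℕ), f m = g m
  iseqv :=
    { refl := fun _ => Eventually.of_forall fun _ => rfl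
      symm := fun h => h.mono fun _ h => h.symm
      trans := fun h h' => (h.and h').mono fun _ h => h.1.trans h.2 }

/-- the ultraproduct -/
def MS1_U : Str where
  car := fun s => Quotient (MS1_set s)
  mem := fun a x X => ∃ (f : ∀ m, (F m).car a) (g : ∀ m, (F m).car (.pow a)),
    x = Quotient.mk (MS1_set a) f ∧ X = Quotient.mk (MS1_set (.pow a)) g ∧
    ∀ᶠ m in (MS1_D : Filter ℕ), (F m).mem a (f m) (g m)
  pair := fun a b x y z => ∃ (f : ∀ m, (F m).car a) (g : ∀ m, (F m).car b)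
    (h : ∀ m, (F m).car (.prod a b)),
    x = Quotient.mk (MS1_set a) f ∧ y = Quotient.mk (MS1_set b) g ∧
    z = Quotient.mk (MS1_set (.prod a b)) h ∧
    ∀ᶠ m in (MS1_D : Filter ℕ), (F m).pair a b (f m) (g m) (h m)

/-- the class of a sequence -/
def MS1_mk {s : Srt} (f : ∀ m, (F m).car s) : MS1_U.car s := Quotient.mk (MS1_set s) f

theorem MS1_mk_eq {s : Srt} {f g : ∀ m, (F m).car s} :
    MS1_mk f = MS1_mk g ↔ ∀ᶠ m in (MS1_D : Filter ℕ), f m = g m :=
  ⟨fun h => Quotient.exact h, fun h => Quotient.sound h⟩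

theorem MS1_mk_surj {s : Srt} (x : MS1_U.car s) : ∃ f, x = MS1_mk f := by
  obtain ⟨f, hf⟩ := Quotient.exists_rep (s := MS1_set s) x
  exact ⟨f, hf.symm⟩

theorem MS1_mem {a : Srt} {f : ∀ m, (F m).car a} {g : ∀ m, (F m).car (.pow a)} :
    MS1_U.mem a (MS1_mk f) (MS1_mk g) ↔
      ∀ᶠ m in (MS1_D : Filter ℕ), (F m).mem a (f m) (g m) := by
  constructor
  · rintro ⟨f', g', hf, hg, h⟩
    filter_upwards [h, MS1_mk_eq.1 hf, MS1_mk_eq.1 hg] with m h h1 h2
    rw [h1, h2]
    exact h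
  · intro h
    exact ⟨f, g, rfl, rfl, h⟩

theorem MS1_pair {a b : Srt} {f : ∀ m, (F m).car a} {g : ∀ m, (F m).car b}
    {h : ∀ m, (F m).car (.prod a b)} :
    MS1_U.pair a b (MS1_mk f) (MS1_mk g) (MS1_mk h) ↔
      ∀ᶠ m in (MS1_D : Filter ℕ), (F m).pair a b (f m) (g m) (h m) := by
  constructor
  · rintro ⟨f', g', h', hf, hg, hh, h0⟩
    filter_upwards [h0, MS1_mk_eq.1 hf, MS1_mk_eq.1 hg, MS1_mk_eq.1 hh] with m h0 h1 h2 h3
    rw [h1, h2, h3]
    exact h0
  · intro h0
    exact ⟨f, g, h, rfl, rfl, rfl, h0⟩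

/-- the class of a sequence of tuples -/
def MS1_tup : ∀ {Γ : List Srt}, (∀ m, Tup (F m).car Γ) → Tup MS1_U.car Γ
  | [], _ => ()
  | _ :: _, v => (MS1_mk fun m => (v m).1, MS1_tup fun m => (v m).2)

theorem MS1_get : ∀ {Γ : List Srt} {s : Srt} (x : Var Γ s) (v : ∀ m, Tup (F m).car Γ),
    (MS1_tup v).get x = MS1_mk fun m => (v m).get x
  | _, _, .z, _ => rfl
  | _, _, .s x, v => MS1_get x fun m => (v m).2

theorem MS1_val {Γ : List Srt} {s : Srt} (t : Tm NoC Γ s) (v : ∀ m, Tup (F m).car Γ) :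
    t.val (M := MS1_U.car) (fun _ c => c.elim) (MS1_tup v) =
      MS1_mk fun m => t.val (M := (F m).car) (fun _ c => c.elim) (v m) := by
  cases t with
  | cst c => exact c.elim
  | var x => exact MS1_get x v

theorem MS1_ne (m : ℕ) (s : Srt) : Nonempty ((F m).car s) := by
  induction s with
  | base => exact ⟨(0 : Fin (m + 1))⟩
  | prod a b ih ih' => exact ⟨((ih.some, ih'.some) : fcar m a × fcar m b)⟩
  | pow a _ => exact ⟨(∅ : Set (fcar m a))⟩

theorem MS1_false : ¬ ∀ᶠ _m in (MS1_D : Filter ℕ), False := fun h =>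
  h.exists.elim fun _ h => h

theorem MS1_los : ∀ {Γ : List Srt} (φ : Fml NoC Γ) (v : ∀ m, Tup (F m).car Γ),
    Sat MS1_U (fun _ c => c.elim) φ (MS1_tup v) ↔
      ∀ᶠ m in (MS1_D : Filter ℕ), Sat (F m) (fun _ c => c.elim) φ (v m) := by
  intro Γ φ
  induction φ with
  | bot =>
    intro v
    exact ⟨fun h => h.elim, fun h => MS1_false h⟩
  | eq t t' =>
    intro v
    show t.val _ _ = t'.val _ _ ↔ _
    rw [MS1_val t v, MS1_val t' v]
    exact MS1_mk_eq
  | mem t t' =>
    intro v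
    show MS1_U.mem _ (t.val _ _) (t'.val _ _) ↔ _
    rw [MS1_val t v, MS1_val t' v]
    exact MS1_mem
  | pair t t' t'' =>
    intro v
    show MS1_U.pair _ _ (t.val _ _) (t'.val _ _) (t''.val _ _) ↔ _
    rw [MS1_val t v, MS1_val t' v, MS1_val t'' v]
    exact MS1_pair
  | imp φ ψ ih ih' =>
    intro v
    show (Sat _ _ φ _ → Sat _ _ ψ _) ↔ _
    rw [ih v, ih' v]
    exact Ultrafilter.eventually_imp.symm
  | all s φ ih =>
    intro v
    show (∀ x : MS1_U.car s, Sat _ _ φ (x, MS1_tup v)) ↔ _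
    constructor
    · intro h
      by_contra hn
      rw [← Ultrafilter.eventually_not] at hn
      have h1 : ∀ m, ∃ x : (F m).car s, ¬ Sat (F m) (fun _ c => c.elim) (Fml.all s φ) (v m) →
          ¬ Sat (F m) (fun _ c => c.elim) φ (x, v m) := by
        intro m
        by_cases hm : Sat (F m) (fun _ c => c.elim) (Fml.all s φ) (v m)
        · exact ⟨(MS1_ne m s).some, fun h => (h hm).elim⟩
        · have hm' : ¬ ∀ x : (F m).car s, Sat (F m) (fun _ c => c.elim) φ (x, v m) := hm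
          rw [not_forall] at hm'
          obtain ⟨x, hx⟩ := hm'
          exact ⟨x, fun _ => hx⟩
      choose f hf using h1
      have h2 := (ih fun m => (f m, v m)).1 (h (MS1_mk f))
      exact MS1_false ((h2.and hn).mono fun m hm => hf m hm.2 hm.1)
    · intro h x
      obtain ⟨f, rfl⟩ := MS1_mk_surj x
      exact (ih fun m => (f m, v m)).2 (h.mono fun m hm => hm (f m))

theorem MS_model : ∃ U : Str, IsModel U ∧ Infinite (U.car .base) := by
  refine ⟨MS1_U, fun σ hσ => ?_, ?_⟩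
  · exact (MS1_los σ fun _ => ()).2 hσ
  · have hlt : ∀ n m : ℕ, min n m < m + 1 := fun n m => Nat.lt_succ_of_le (min_le_right _ _)
    refine Infinite.of_injective
      (fun n : ℕ => MS1_mk (s := .base) fun m => (⟨min n m, hlt n m⟩ : Fin (m + 1)))
      fun n n' h => ?_
    have h1 := MS1_mk_eq.1 h
    have h2 : ∀ᶠ m in (MS1_D : Filter ℕ), max n n' ≤ m :=
      (Nat.hyperfilter_le_atTop : (MS1_D : Filter ℕ) ≤ _) (eventually_ge_atTop (max n n'))
    obtain ⟨m, h3, h4⟩ := (h1.and h2).exists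
    have h5 : min n m = min n' m := congrArg Fin.val h3
    rwa [min_eq_left (le_trans (le_max_left _ _) h4),
      min_eq_left (le_trans (le_max_right _ _) h4)] at h5

end Pool.Agent.Lib_helper58.ID
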