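import Pool.Agent.Lib_helper58.ID.CT1
import Pool.Agent.Lib_helper58.ID.TR2

/-!
# MP_bc6371_lc: block MS2 (completeness, independence property, countability)
-/

namespace Pool.Agent.Lib_helper58.ID

open Cardinal

theorem MS_complete (σ : Snt) : σ ∈ T ∨ Fml.imp σ .bot ∈ T := by
  by_cases h : ∀ᶠ m in (Filter.hyperfilter ℕ : Filter ℕ), (F m).Models σ
  · exact Or.inl h
  · refine Or.inr ?_
    have h1 := Ultrafilter.eventually_not.2 h
    show ∀ᶠ m in (Filter.hyperfilter ℕ : Filter ℕ), (F m).Models (Fml.imp σ .bot)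
    refine h1.mono fun m hm => ?_
    exact hm

theorem MS_countable : Countable Snt := by
  rw [← mk_le_aleph0_iff]
  refine Pool.Agent.Lib_helper58.ID.H44.CT1_fml le_rfl (fun s => ?_) []
  exact mk_le_aleph0

theorem MS_ip {U : Str} (hU : IsModel U) :
    HasIP U (Γ := [.base]) (Δ := [.pow .base])
      {v : Tup U.car [.base, .pow .base] | U.mem .base v.1 v.2.1} := by
  intro n
  have := TR_base_inf hU
  obtain ⟨x, hx⟩ : ∃ x : Fin n → U.car .base, Function.Injective x :=
    ⟨fun i => Infinite.natEmbedding _ i.1, fun i j h =>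
      Fin.ext ((Infinite.natEmbedding (U.car .base)).injective h)⟩
  have hX : ∀ W : Set (Fin n), ∃ X : U.car (.pow .base), U.ext X = x '' W := by
    intro W
    apply TR_compr hU
    have h1 : {v : Tup U.car [.base] | v.1 ∈ x '' W} =
        {v : Tup U.car [.base] | ¬ ∀ i : Fin n, ¬ (i ∈ W ∧ v.1 = x i)} := by
      ext v
      simp only [Set.mem_image, Set.mem_ofPred_eq, not_forall, not_not]
      constructor
      · rintro ⟨i, hi, h⟩
        exact ⟨i, hi, h.symm⟩
      · rintro ⟨i, hi, h⟩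
        exact ⟨i, hi, h.symm⟩
    unfold Def1
    rw [h1]
    refine DefOver.of_dfn (C := fun s => {y // y ∈ allPar U s})
      (P := fun M e (v : Tup M.car [.base]) => ¬ ∀ i : Fin n, ¬ (i ∈ W ∧ v.1 = e .base ⟨x i, trivial⟩))
      (Dfn.not (Dfn.allFin fun i => Dfn.not (Dfn.and ?_ (Dfn.eq IsT.zero (IsT.cst _)))))
      (fun s a => a.1) fun s c => c.2
    by_cases hi : i ∈ W
    · simpa only [hi] using Dfn.true
    · simpa only [hi] using Dfn.false
  choose X hX using hX
  refine ⟨fun i => (x i, ()), fun W => (X W, ()), fun i W => ?_⟩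
  show U.mem .base (x i) (X W) ↔ i ∈ W
  have h1 : U.mem .base (x i) (X W) ↔ x i ∈ U.ext (X W) := Iff.rfl
  rw [h1, hX W]
  exact hx.mem_set_image

end Pool.Agent.Lib_helper58.ID
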