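import Pool.Agent.Lib_helper58.ID.Base

/-!
# MP_bc6371_lc, block MS3: ultrafilter combinatorics
-/

namespace Pool.Agent.Lib_helper58.ID

open Cardinal

theorem MS_regular {μ : Cardinal.{0}} (h : ∀ (I : Type) (𝒟 : Ultrafilter I), #I ≤ μ →
    UniformUf 𝒟 → RegularUf 𝒟) : ∀ (I : Type) (𝒟 : Ultrafilter I), #I ≤ μ → Cov 𝒟 := by
  classical
  intro I 𝒟 hI
  obtain ⟨m, ⟨X, hX, rfl⟩, hmin⟩ := WellFounded.has_min Cardinal.lt_wf
    {c : Cardinal.{0} | ∃ X ∈ 𝒟, #X = c} ⟨_, Set.univ, Filter.univ_mem, rfl⟩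
  have hr : Set.range (Subtype.val : X → I) ∈ 𝒟 := by
    rw [Subtype.range_coe]
    exact hX
  have hm : ∀ s : Set X, s ∈ Ultrafilter.comap 𝒟 Subtype.val_injective hr ↔ Subtype.val '' s ∈ 𝒟 :=
    fun s => Ultrafilter.mem_comap _ _ _
  obtain ⟨f, hf⟩ := h X (Ultrafilter.comap 𝒟 Subtype.val_injective hr)
    ((Cardinal.mk_set_le X).trans hI) (by
      intro Y hY
      rw [hm] at hY
      refine le_antisymm (Cardinal.mk_set_le Y) ?_
      have h1 := hmin _ ⟨_, hY, rfl⟩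
      rw [not_lt, Cardinal.mk_image_eq Subtype.val_injective] at h1
      exact h1)
  refine ⟨fun i => if hi : i ∈ X then (f ⟨i, hi⟩).image (fun j : X => ((j : I), i)) else ∅, ?_⟩
  intro Z hZ
  obtain ⟨j, hj, hjX⟩ := 𝒟.nonempty_of_mem (Filter.inter_mem hZ hX)
  have h1 : Subtype.val '' {i : X | (⟨j, hjX⟩ : X) ∈ f i} ∈ 𝒟 := (hm _).1 (hf ⟨j, hjX⟩)
  have h2 : ∀ᶠ i in (𝒟 : Filter I), (j, i) ∈ Z := hj
  filter_upwards [h1, h2] with i hi hi'
  obtain ⟨i', hi1, rfl⟩ := hi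
  refine ⟨(j, i'), ?_, hi'⟩
  rw [dif_pos i'.2]
  exact Finset.mem_image.2 ⟨⟨j, hjX⟩, hi1, rfl⟩

/-- every ultrafilter on a countable set has the covering property -/
theorem MS_cntCov : ∀ (I : Type) (𝒟 : Ultrafilter I), #I ≤ ℵ₀ → Cov 𝒟 := by
  classical
  refine MS_regular fun I 𝒟 hI hu => ?_
  haveI : Countable I := Cardinal.mk_le_aleph0_iff.1 hI
  rcases finite_or_infinite I with hf | hinf
  · haveI := Fintype.ofFinite I
    exact ⟨fun _ => Finset.univ, fun j => Filter.Eventually.of_forall fun i => Finset.mem_univ j⟩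
  · obtain ⟨e⟩ : Nonempty (I ≃ ℕ) := nonempty_equiv_of_countable
    refine ⟨fun i => (Finset.range (e i + 1)).image e.symm, fun j => ?_⟩
    have hfin : {i | ¬ e j ≤ e i}.Finite := by
      refine (Set.finite_lt_nat (e j)).preimage e.injective.injOn |>.subset fun i hi => ?_
      exact not_le.1 hi
    have h1 : {i | ¬ e j ≤ e i} ∉ 𝒟 := by
      intro h
      have h2 := hu _ h
      have h3 := Cardinal.mk_lt_aleph0_iff.2 hfin
      rw [h2] at h3
      exact absurd h3 (not_lt.2 (Cardinal.aleph0_le_mk I))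
    have h2 : {i | ¬ e j ≤ e i}ᶜ ∈ 𝒟 := Ultrafilter.compl_mem_iff_notMem.2 h1
    filter_upwards [h2] with i hi
    have hi' : e j ≤ e i := by
      by_contra hcon
      exact hi hcon
    exact Finset.mem_image.2 ⟨e j, Finset.mem_range.2 (by omega), e.symm_apply_apply j⟩

/-- two colours for an increasing map -/
theorem MS3_col {I : Type} [LinearOrder I] (f : I → I) (X : Set I) (hX : ∀ i ∈ X, i < f i) :
    ∃ c : I → Bool, ∀ i ∈ X, c (f i) ≠ c i := by
  classical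
  have hfin : ∀ S : Finset I, ∃ c : I → Bool, ∀ i ∈ S, i ∈ X → c (f i) ≠ c i := by
    intro S
    refine Finset.induction_on_min S ⟨fun _ => true, fun i hi => absurd hi (Finset.notMem_empty i)⟩ ?_
    intro a s ha ⟨c, hc⟩
    refine ⟨fun i => if i = a then !c (f a) else c i, fun i hi hiX => ?_⟩
    rcases Finset.mem_insert.1 hi with rfl | hi
    · have h1 : f i ≠ i := (hX i hiX).ne'
      simp only [if_neg h1, if_true]
      cases c (f i) <;> simp
    · have h1 : i ≠ a := (ha i hi).ne'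
      have h2 : f i ≠ a := ((ha i hi).trans (hX i hiX)).ne'
      simp only [if_neg h1, if_neg h2]
      exact hc i hi hiX
  have hne := IsCompact.nonempty_iInter_of_directed_nonempty_isCompact_isClosed
    (fun S : Finset I => {c : I → Bool | ∀ i ∈ S, i ∈ X → c (f i) ≠ c i}) ?_ hfin ?_ ?_
  · obtain ⟨c, hc⟩ := hne
    rw [Set.mem_iInter] at hc
    exact ⟨c, fun i hi => hc {i} i (Finset.mem_singleton_self i) hi⟩
  · intro S S'
    refine ⟨S ∪ S', fun c hc i hi => hc i (Finset.mem_union_left _ hi),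
      fun c hc i hi => hc i (Finset.mem_union_right _ hi)⟩
  · intro S
    refine IsClosed.isCompact ?_
    have h1 : {c : I → Bool | ∀ i ∈ S, i ∈ X → c (f i) ≠ c i} =
        ⋂ i ∈ S, ⋂ _ : i ∈ X, {c : I → Bool | c (f i) ≠ c i} := by
      ext c
      simp
    rw [h1]
    refine isClosed_iInter fun i => isClosed_iInter fun _ => isClosed_iInter fun _ => ?_
    have h2 : IsOpen {c : I → Bool | c (f i) = c i} := by
      have h3 : {c : I → Bool | c (f i) = c i} =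
          (fun c : I → Bool => (c (f i), c i)) ⁻¹' {p | p.1 = p.2} := rfl
      rw [h3]
      refine IsOpen.preimage ?_ (isOpen_discrete _)
      exact (continuous_apply (f i)).prodMk (continuous_apply i)
    exact h2.isClosed_compl
  · intro S
    have h1 : {c : I → Bool | ∀ i ∈ S, i ∈ X → c (f i) ≠ c i} =
        ⋂ i ∈ S, ⋂ _ : i ∈ X, {c : I → Bool | c (f i) ≠ c i} := by
      ext c
      simp
    rw [h1]
    refine isClosed_iInter fun i => isClosed_iInter fun _ => isClosed_iInter fun _ => ?_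
    have h2 : IsOpen {c : I → Bool | c (f i) = c i} := by
      have h3 : {c : I → Bool | c (f i) = c i} =
          (fun c : I → Bool => (c (f i), c i)) ⁻¹' {p | p.1 = p.2} := rfl
      rw [h3]
      refine IsOpen.preimage ?_ (isOpen_discrete _)
      exact (continuous_apply (f i)).prodMk (continuous_apply i)
    exact h2.isClosed_compl

theorem MS3_ncol {I : Type} (𝒟 : Ultrafilter I) (f : I → I) (hf : ∀ A ∈ 𝒟, f ⁻¹' A ∈ 𝒟)
    (X : Set I) (hX : X ∈ 𝒟) (c : I → Bool) (hc : ∀ i ∈ X, c (f i) ≠ c i) : False := by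
  rcases 𝒟.mem_or_compl_mem {i | c i = true} with h | h
  · obtain ⟨i, ⟨h1, h2⟩, h3⟩ := 𝒟.nonempty_of_mem (Filter.inter_mem (Filter.inter_mem hX h) (hf _ h))
    have e1 : c i = true := h2
    have e2 : c (f i) = true := h3
    exact hc i h1 (e2.trans e1.symm)
  · obtain ⟨i, ⟨h1, h2⟩, h3⟩ := 𝒟.nonempty_of_mem (Filter.inter_mem (Filter.inter_mem hX h) (hf _ h))
    have e1 : ¬ c i = true := h2
    have e2 : ¬ c (f i) = true := h3
    rw [Bool.not_eq_true] at e1 e2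
    exact hc i h1 (e2.trans e1.symm)

/-- a map which fixes an ultrafilter is the identity almost everywhere -/
theorem MS3_fix {I : Type} (𝒟 : Ultrafilter I) (f : I → I) (hf : ∀ A ∈ 𝒟, f ⁻¹' A ∈ 𝒟) :
    {i | f i = i} ∈ 𝒟 := by
  classical
  let _ : LinearOrder I := linearOrderOfSTO WellOrderingRel
  have h1 : ({i | i < f i} ∪ {i | f i < i}) ∪ {i | f i = i} ∈ 𝒟 := by
    refine Filter.mem_of_superset Filter.univ_mem fun i _ => ?_
    rcases lt_trichotomy i (f i) with h | h | h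
    · exact Or.inl (Or.inl h)
    · exact Or.inr h.symm
    · exact Or.inl (Or.inr h)
  rw [Ultrafilter.union_mem_iff, Ultrafilter.union_mem_iff] at h1
  rcases h1 with (h | h) | h
  · obtain ⟨c, hc⟩ := MS3_col f {i | i < f i} fun i hi => hi
    exact (MS3_ncol 𝒟 f hf _ h c hc).elim
  · obtain ⟨c, hc⟩ := MS3_col (I := Iᵒᵈ) f {i | f i < i} fun i hi => hi
    exact (MS3_ncol 𝒟 f hf _ h c hc).elim
  · exact h

/-- the product is not an image -/
theorem MS3_one {I : Type} (𝒟 : Ultrafilter I) (hn : ∀ i, {i}ᶜ ∈ 𝒟) (w : I → I × I) :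
    ∃ Z : Set (I × I), (∀ᶠ j in (𝒟 : Filter I), ∀ᶠ i in (𝒟 : Filter I), (j, i) ∈ Z) ∧
      ∀ᶠ i in (𝒟 : Filter I), w i ∉ Z := by
  by_contra hc
  rw [not_exists] at hc
  have h0 : ∀ Z : Set (I × I), (∀ᶠ j in (𝒟 : Filter I), ∀ᶠ i in (𝒟 : Filter I), (j, i) ∈ Z) →
      w ⁻¹' Z ∈ 𝒟 := by
    intro Z hZ
    rcases 𝒟.mem_or_compl_mem (w ⁻¹' Z) with h | h
    · exact h
    · exact absurd ⟨hZ, h⟩ (hc Z)
  have h1 := MS3_fix 𝒟 (fun i => (w i).1) fun A hA => h0 {p | p.1 ∈ A} (by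
    filter_upwards [hA] with j hj
    exact Filter.Eventually.of_forall fun i => hj)
  have h2 := MS3_fix 𝒟 (fun i => (w i).2) fun A hA => h0 {p | p.2 ∈ A} (by
    refine Filter.Eventually.of_forall fun j => ?_
    filter_upwards [hA] with i hi
    exact hi)
  have h3 := h0 {p | p.1 ≠ p.2} (by
    refine Filter.Eventually.of_forall fun j => ?_
    filter_upwards [hn j] with i hi
    exact fun h => hi h.symm)
  obtain ⟨i, ⟨e1, e2⟩, e3⟩ := 𝒟.nonempty_of_mem (Filter.inter_mem (Filter.inter_mem h1 h2) h3)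
  have e1' : (w i).1 = i := e1
  have e2' : (w i).2 = i := e2
  exact e3 (e1'.trans e2'.symm)

/-- nonprincipal countably complete ultrafilters fail (E) -/
theorem MS_meas {I : Type} (𝒟 : Ultrafilter I) (hn : ∀ i, {i}ᶜ ∈ 𝒟)
    (hc : ∀ X : ℕ → Set I, (∀ n, X n ∈ 𝒟) → ⋂ n, X n ∈ 𝒟) :
    ¬ Cov 𝒟 := by
  rintro ⟨ρ, hρ⟩
  obtain ⟨n, hcard⟩ : ∃ n : ℕ, {i | (ρ i).card = n} ∈ 𝒟 := by
    by_contra hcon
    push Not at hcon
    have h1 := hc (fun n => {i | (ρ i).card = n}ᶜ) fun n =>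
      (𝒟.mem_or_compl_mem _).resolve_left (hcon n)
    obtain ⟨i, hi⟩ := 𝒟.nonempty_of_mem h1
    rw [Set.mem_iInter] at hi
    exact hi (ρ i).card rfl
  choose Z hZ hZ' using fun k : ℕ => MS3_one 𝒟 hn (fun i => (ρ i).toList.getD k (i, i))
  have h1 : ∀ᶠ j in (𝒟 : Filter I), ∀ᶠ i in (𝒟 : Filter I), (j, i) ∈ {p | ∀ k : Fin n, p ∈ Z k} := by
    have h2 : ∀ᶠ j in (𝒟 : Filter I), ∀ k : Fin n, ∀ᶠ i in (𝒟 : Filter I), (j, i) ∈ Z k :=
      Filter.eventually_all.2 fun k => hZ k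
    filter_upwards [h2] with j hj
    exact Filter.eventually_all.2 hj
  have h3 : ∀ᶠ i in (𝒟 : Filter I), ∀ k : Fin n, (ρ i).toList.getD k (i, i) ∉ Z k :=
    Filter.eventually_all.2 fun k => hZ' k
  obtain ⟨i, ⟨⟨w, hw, hwZ⟩, h4⟩, h5⟩ := 𝒟.nonempty_of_mem
    (Filter.inter_mem (Filter.inter_mem (hρ _ h1) h3) hcard)
  have h5' : (ρ i).card = n := h5
  have hwl : w ∈ (ρ i).toList := Finset.mem_toList.2 hw
  obtain ⟨k, hk, hkw⟩ := List.mem_iff_getElem.1 hwl
  have hkn : k < n := by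
    rw [← h5', ← Finset.length_toList]
    exact hk
  have h6 := h4 ⟨k, hkn⟩
  have h7 : (ρ i).toList.getD k (i, i) = w := by
    rw [List.getD_eq_getElem _ _ hk, hkw]
  exact h6 (by
    rw [h7]
    exact hwZ ⟨k, hkn⟩)

end Pool.Agent.Lib_helper58.ID
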