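import Pool.Agent.Lib_helper58.ID.CO2
import Pool.Agent.Lib_helper58.ID.ID
import Pool.Agent.Lib_helper58.ID.CV
import Pool.Agent.Lib_helper58.ID.MS1
import Pool.Agent.Lib_helper58.ID.MS2
import Pool.Agent.Lib_helper58.ID.MS3

/-!
# MP_bc6371_lc: assembly
-/

namespace Pool.Agent.Lib_helper58.ID

open Cardinal

/-- the types invariant over a set of size at most `μ` are idempotent iff the ultrafilters on sets
of size at most `μ` have the covering property -/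
theorem main_iff {κ μ : Cardinal.{0}} (hμ : ℵ₀ ≤ μ) (hμκ : 2 ^ μ < κ) {U : Str}
    (hU : IsModel U) (hs : Saturated κ U) :
    (∀ (Γ : List Srt) (p : Typ U (allPar U) Γ),
      (∃ A : Par U, #(Σ s, {x // x ∈ A s}) ≤ μ ∧ InvOver U A p.sets) → Idem κ U p.sets) ↔
    ∀ (I : Type) (𝒟 : Ultrafilter I), #I ≤ μ → Cov 𝒟 := by
  have hμκ' : μ < κ := (cantor μ).trans hμκ
  have hκ : ℵ₀ < κ := hμ.trans_lt hμκ'
  constructor
  · intro h
    exact CV_conv hμ hμκ' hU hs (fun p hp => (h _ p hp).1)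
  · rintro hE Γ p ⟨A, hA, hpA⟩
    refine ⟨?_, PR_proj hκ hs p ⟨A, hA.trans_lt hμκ', hpA⟩⟩
    obtain ⟨N, hAN, hN, hc⟩ := CT_hull (Order.lt_succ_iff.2 hμ) (Order.lt_succ_iff.2 hA)
    have hNμ : #(Σ s, {x // x ∈ N s}) ≤ μ := Order.lt_succ_iff.1 hN
    have hpN : InvOver U N p.sets := PR_invMono hpA hAN
    exact ID_idem hμ hμκ hU hs hE p hNμ (CO_coheir hκ hU hs (hNμ.trans_lt hμκ') hc p hpN)

/-- all invariant types -/
theorem main_all {κ : Cardinal.{0}} (hκ : ℵ₀ < κ) (hlim : κ.IsStrongLimit) {U : Str}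
    (hU : IsModel U) (hs : Saturated κ U) :
    (∀ (Γ : List Srt) (p : Typ U (allPar U) Γ), Invar κ U p.sets → Idem κ U p.sets) ↔
    ∀ (I : Type) (𝒟 : Ultrafilter I), #I < κ → Cov 𝒟 := by
  constructor
  · intro h I 𝒟 hI
    have hm : max ℵ₀ #I < κ := max_lt hκ hI
    exact (main_iff (le_max_left _ _) (hlim.two_power_lt hm) hU hs).1
      (fun Γ p ⟨A, hA, hpA⟩ => h Γ p ⟨A, hA.trans_lt hm, hpA⟩) I 𝒟 (le_max_right _ _)
  · rintro h Γ p ⟨A, hA, hpA⟩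
    have hm : max ℵ₀ #(Σ s, {x // x ∈ A s}) < κ := max_lt hκ hA
    exact (main_iff (le_max_left _ _) (hlim.two_power_lt hm) hU hs).2
      (fun I 𝒟 hI => h I 𝒟 (hI.trans_lt hm)) Γ p ⟨A, le_max_right _ _, hpA⟩

end Pool.Agent.Lib_helper58.ID
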