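import Pool.Agent.Lib_helper58.ID.CT2

/-!
# MP_bc6371_lc: block PR1 (products of invariant types)
-/

namespace Pool.Agent.Lib_helper58.ID

open Cardinal

private theorem PR1_tp {U : Str} {A : Par U} {Δ Δ' : List Srt} {b b' : Tup U.car Δ}
    {c : Tup U.car Δ'} (hc : c.In A) (h : SameTp U A b b') :
    SameTp U A (b.app c) (b'.app c) := fun _ hD => h _ (hD.fibre c hc)

private theorem PR1_all {U : Str} {Γ : List Srt} (v : Tup U.car Γ) : v.In (allPar U) :=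
  fun _ _ => Set.mem_univ _

/-- invariance for relations with parameters in `A` -/
theorem PR_invA {U : Str} {A : Par U} {Γ Δ : List Srt} {p : Set (Set (Tup U.car Γ))}
    (hp : InvOver U A p) {R : Set (Tup U.car (Γ ++ Δ))} (hR : DefOver U A (Γ ++ Δ) R)
    {b b' : Tup U.car Δ} (h : SameTp U A b b') :
    {x | x.app b ∈ R} ∈ p ↔ {x | x.app b' ∈ R} ∈ p := by
  obtain ⟨Δ', R', c, hR', hc, rfl⟩ := hR.fin
  have hR'' : DefOver U (noPar U) (Γ ++ (Δ ++ Δ'))
      {v | ((Tup.fst (Γ := Γ) (Δ := Δ ++ Δ') v).app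
        (Tup.fst (Γ := Δ) (Δ := Δ') (Tup.snd (Γ := Γ) (Δ := Δ ++ Δ') v))).app
        (Tup.snd (Γ := Δ) (Δ := Δ') (Tup.snd (Γ := Γ) (Δ := Δ ++ Δ') v)) ∈ R'} :=
    hR'.pre (t := fun M _ v => ((Tup.fst (Γ := Γ) (Δ := Δ ++ Δ') v).app
        (Tup.fst (Γ := Δ) (Δ := Δ') (Tup.snd (Γ := Γ) (Δ := Δ ++ Δ') v))).app
        (Tup.snd (Γ := Δ) (Δ := Δ') (Tup.snd (Γ := Γ) (Δ := Δ ++ Δ') v)))
      (((IsTs.id.fst).app (IsTs.id.snd.fst)).app (IsTs.id.snd.snd))
  have key := hp _ _ hR'' _ _ (PR1_tp hc h)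
  have e : ∀ d : Tup U.car Δ, {x : Tup U.car Γ | x.app (d.app c) ∈
      {v | ((Tup.fst (Γ := Γ) (Δ := Δ ++ Δ') v).app
        (Tup.fst (Γ := Δ) (Δ := Δ') (Tup.snd (Γ := Γ) (Δ := Δ ++ Δ') v))).app
        (Tup.snd (Γ := Δ) (Δ := Δ') (Tup.snd (Γ := Γ) (Δ := Δ ++ Δ') v)) ∈ R'}} =
      {x : Tup U.car Γ | x.app d ∈ {v : Tup U.car (Γ ++ Δ) | v.app c ∈ R'}} := by
    intro d
    ext x
    simp only [Set.mem_setOf_eq, Tup.fst_app, Tup.snd_app]
  rw [e, e] at key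
  exact key

/-- monotonicity of invariance -/
theorem PR_invMono {U : Str} {A B : Par U} {Γ : List Srt} {p : Set (Set (Tup U.car Γ))}
    (hp : InvOver U A p) (hAB : ∀ s, A s ⊆ B s) : InvOver U B p :=
  fun Δ R hR b b' h => hp Δ R hR b b' fun D hD => h D (hD.mono hAB)

/-- coheirs are invariant -/
theorem PR_inv {U : Str} {Γ : List Srt} (p : Typ U (allPar U) Γ)
    {N : Par U} (hp : ∀ D ∈ p.sets, ∃ v ∈ D, v.In N) : InvOver U N p.sets := by
  have key : ∀ (Δ : List Srt) (R : Set (Tup U.car (Γ ++ Δ))), DefOver U (noPar U) (Γ ++ Δ) R →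
      ∀ b b' : Tup U.car Δ, SameTp U N b b' →
      {x | x.app b ∈ R} ∈ p.sets → {x | x.app b' ∈ R} ∈ p.sets := by
    intro Δ R hR b b' h hb
    have hRa : DefOver U (allPar U) (Γ ++ Δ) R := hR.mono fun _ => Set.empty_subset _
    have hRN : DefOver U N (Γ ++ Δ) R := hR.mono fun _ => Set.empty_subset _
    rcases p.ultra _ (hRa.fibre b' (PR1_all b')) with h1 | h1
    · exact h1
    · obtain ⟨v, hv, hvN⟩ := hp _ (p.inter _ hb _ h1)
      exact absurd ((h _ (hRN.fibre' v hvN)).1 hv.1) hv.2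
  exact fun Δ R hR b b' h => ⟨key Δ R hR b b' h,
    key Δ R hR b' b fun D hD => (h D hD).symm⟩

private theorem PR1_univ {U : Str} {A : Par U} {Γ : List Srt} (p : Typ U A Γ) :
    Set.univ ∈ p.sets := by
  rcases p.ultra Set.univ DefOver.univ with h | h
  · exact h
  · rw [Set.compl_univ] at h
    exact absurd h p.nempty

private theorem PR1_sInter {U : Str} {A : Par U} {Γ : List Srt} (p : Typ U A Γ)
    {𝓖 : Set (Set (Tup U.car Γ))} (hf : 𝓖.Finite) (h : ∀ D ∈ 𝓖, D ∈ p.sets) :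
    ⋂₀ 𝓖 ∈ p.sets := by
  induction 𝓖, hf using Set.Finite.induction_on with
  | empty =>
    rw [Set.sInter_empty]
    exact PR1_univ p
  | insert _ _ ih =>
    rw [Set.sInter_insert]
    exact p.inter _ (h _ (Set.mem_insert _ _)) _ (ih fun D hD => h D (Set.mem_insert_of_mem _ hD))

private theorem PR1_same {U : Str} {Γ : List Srt} (q : Typ U (allPar U) Γ) {A : Par U} {b b' : Tup U.car Γ}
    (hb : ∀ E ∈ q.sets, DefOver U A Γ E → b ∈ E)
    (hb' : ∀ E ∈ q.sets, DefOver U A Γ E → b' ∈ E) : SameTp U A b b' := by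
  intro D hD
  rcases q.ultra D (hD.mono fun _ => Set.subset_univ _) with h | h
  · exact ⟨fun _ => hb' D h hD, fun _ => hb D h hD⟩
  · exact ⟨fun h1 => absurd h1 (hb _ h hD.compl), fun h1 => absurd h1 (hb' _ h hD.compl)⟩

section PR
variable {κ : Cardinal.{0}} (hκ : ℵ₀ < κ) {U : Str} (hs : Saturated κ U)
include hκ hs

/-- restrictions to small sets are realised -/
theorem PR_real {Γ : List Srt} (p : Typ U (allPar U) Γ) {A : Par U} (hA : Small κ A) :
    ∃ b : Tup U.car Γ, ∀ E ∈ p.sets, DefOver U A Γ E → b ∈ E := by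
  obtain ⟨b, hb⟩ := hs A hA Γ {E | E ∈ p.sets ∧ DefOver U A Γ E} (fun D hD => hD.2)
    (fun 𝓖 h𝓖 hf => by
      rw [Set.nonempty_iff_ne_empty]
      intro he
      have h1 := PR1_sInter p hf fun D hD => (h𝓖 hD).1
      rw [he] at h1
      exact p.nempty h1)
  exact ⟨b, fun E hE hd => hb E ⟨hE, hd⟩⟩

/-- the product does not depend on the choices -/
theorem PR_iff {Γ Δ : List Srt} (p : Typ U (allPar U) Γ) (q : Typ U (allPar U) Δ)
    {A : Par U} (hA : Small κ A) (hp : InvOver U A p.sets)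
    {D : Set (Tup U.car (Γ ++ Δ))} (hD : DefOver U A (Γ ++ Δ) D) {b : Tup U.car Δ}
    (hb : ∀ E ∈ q.sets, DefOver U A Δ E → b ∈ E) :
    D ∈ tensor κ U p.sets q.sets ↔ {x | x.app b ∈ D} ∈ p.sets := by
  constructor
  · rintro ⟨A', hA', hp', hD', b', hb', h⟩
    obtain ⟨b'', hb''⟩ := PR_real hκ hs q (CT_sup hκ hA hA')
    have h1 : SameTp U A' b' b'' := PR1_same q hb' fun E hE hd =>
      hb'' E hE (hd.mono fun _ => Set.subset_union_right)
    have h2 : SameTp U A b b'' := PR1_same q hb fun E hE hd =>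
      hb'' E hE (hd.mono fun _ => Set.subset_union_left)
    exact (PR_invA hp hD h2).2 ((PR_invA hp' hD' h1).1 h)
  · intro h
    exact ⟨A, hA, hp, hD, b, hb, h⟩

end PR

/-- types from ultrafilters -/
theorem PR_uf {U : Str} (A : Par U) {Γ : List Srt} (𝓤 : Ultrafilter (Tup U.car Γ)) :
    ∃ p : Typ U A Γ, p.sets = {D | DefOver U A Γ D ∧ D ∈ 𝓤} :=
  ⟨{ sets := {D | DefOver U A Γ D ∧ D ∈ 𝓤}
     dfn := fun D hD => hD.1
     inter := fun D hD D' hD' => ⟨hD.1.inter hD'.1, Filter.inter_mem hD.2 hD'.2⟩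
     mono := fun D hD D' hd h => ⟨hd, Filter.mem_of_superset hD.2 h⟩
     nempty := fun h => 𝓤.empty_notMem h.2
     ultra := fun D hd => by
       rcases 𝓤.mem_or_compl_mem D with h | h
       · exact Or.inl ⟨hd, h⟩
       · exact Or.inr ⟨hd.compl, h⟩ }, rfl⟩

end Pool.Agent.Lib_helper58.ID
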