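import Pool.Agent.Lib_helper58.ID.PR1

/-!
# MP_bc6371_lc, block PR2: the product is a type
-/

namespace Pool.Agent.Lib_helper58.ID

open Cardinal

/-- a finite parameter set is small -/
private theorem PR2_finSmall {κ : Cardinal.{0}} (hκ : ℵ₀ < κ) {U : Str} {A : Par U}
    (h : Finite (Σ s, {x // x ∈ A s})) : Small κ A :=
  (Cardinal.lt_aleph0_iff_finite.2 h).trans hκ

/-- entries of a tuple as a parameter set -/
private theorem PR2_tup {κ : Cardinal.{0}} (hκ : ℵ₀ < κ) {U : Str} {Γ : List Srt}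
    (v : Tup U.car Γ) : ∃ A : Par U, Small κ A ∧ v.In A := by
  obtain ⟨A, hA, h⟩ := CT_tup hκ ({v} : Set (Tup U.car Γ))
    (by rw [Cardinal.mk_singleton]; exact Cardinal.one_lt_aleph0.trans hκ)
  exact ⟨A, hA, h v rfl⟩

private theorem PR2_inMono {U : Str} {A B : Par U} {Γ : List Srt} {v : Tup U.car Γ}
    (h : v.In A) (hAB : ∀ s, A s ⊆ B s) : v.In B := fun s x => hAB s (h s x)

private theorem PR2_inAll {U : Str} {Γ : List Srt} (v : Tup U.car Γ) : v.In (allPar U) :=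
  fun _ _ => trivial

/-- membership in a type of the sets definable over the base of a realisation -/
private theorem PR2_real_iff {U : Str} {Δ : List Srt} (q : Typ U (allPar U) Δ) {B : Par U}
    {b : Tup U.car Δ} (hb : ∀ E ∈ q.sets, DefOver U B Δ E → b ∈ E) {E : Set (Tup U.car Δ)}
    (hE : DefOver U B Δ E) : b ∈ E ↔ E ∈ q.sets := by
  constructor
  · intro h
    rcases q.ultra E (hE.mono fun _ => Set.subset_univ _) with h1 | h1
    · exact h1
    · exact absurd h (hb _ h1 hE.compl)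
  · exact fun h => hb _ h hE

section PR
variable {κ : Cardinal.{0}} (hκ : ℵ₀ < κ) {U : Str} (hs : Saturated κ U)
include hκ hs

/-- a common base for two definable sets -/
private theorem PR2_common {Γ Δ Θ : List Srt} (p : Typ U (allPar U) Γ) (q : Typ U (allPar U) Δ)
    {A : Par U} (hA : Small κ A) (hp : InvOver U A p.sets) {D D' : Set (Tup U.car Θ)}
    (hD : DefOver U (allPar U) Θ D) (hD' : DefOver U (allPar U) Θ D') :
    ∃ (B : Par U) (b : Tup U.car Δ), (∀ s, A s ⊆ B s) ∧ Small κ B ∧ InvOver U B p.sets ∧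
      DefOver U B Θ D ∧ DefOver U B Θ D' ∧ ∀ E ∈ q.sets, DefOver U B Δ E → b ∈ E := by
  obtain ⟨A₀, -, h₀, d₀⟩ := CT_finpar hD
  obtain ⟨A₁, -, h₁, d₁⟩ := CT_finpar hD'
  have hB : Small κ (fun s => A s ∪ (A₀ s ∪ A₁ s)) :=
    CT_sup hκ hA (CT_sup hκ (PR2_finSmall hκ h₀) (PR2_finSmall hκ h₁))
  obtain ⟨b, hb⟩ := PR_real hκ hs q hB
  exact ⟨_, b, fun s => Set.subset_union_left, hB, PR_invMono hp fun s => Set.subset_union_left,
    d₀.mono fun s => Set.subset_union_left.trans Set.subset_union_right,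
    d₁.mono fun s => Set.subset_union_right.trans Set.subset_union_right, hb⟩

theorem PR_typ {Γ Δ : List Srt} (p : Typ U (allPar U) Γ) (q : Typ U (allPar U) Δ)
    {A : Par U} (hA : Small κ A) (hp : InvOver U A p.sets) (hq : InvOver U A q.sets) :
    ∃ t : Typ U (allPar U) (Γ ++ Δ), t.sets = tensor κ U p.sets q.sets ∧
      InvOver U A t.sets := by
  have hdfn : ∀ D ∈ tensor κ U p.sets q.sets, DefOver U (allPar U) (Γ ++ Δ) D := by
    rintro D ⟨A', -, -, hD, -⟩
    exact hD.mono fun _ => Set.subset_univ _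
  have hfib : ∀ (D : Set (Tup U.car (Γ ++ Δ))) (b : Tup U.car Δ),
      DefOver U (allPar U) (Γ ++ Δ) D → DefOver U (allPar U) Γ {x | x.app b ∈ D} :=
    fun D b hD => hD.fibre b (PR2_inAll b)
  let t : Typ U (allPar U) (Γ ++ Δ) :=
    { sets := tensor κ U p.sets q.sets
      dfn := hdfn
      inter := by
        intro D hD D' hD'
        obtain ⟨B, b, -, hB, hpB, d, d', hb⟩ := PR2_common hκ hs p q hA hp (hdfn D hD) (hdfn D' hD')
        rw [PR_iff hκ hs p q hB hpB d hb] at hD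
        rw [PR_iff hκ hs p q hB hpB d' hb] at hD'
        rw [PR_iff hκ hs p q hB hpB (d.inter d') hb]
        exact p.inter _ hD _ hD'
      mono := by
        intro D hD D' hD' hsub
        obtain ⟨B, b, -, hB, hpB, d, d', hb⟩ := PR2_common hκ hs p q hA hp (hdfn D hD) hD'
        rw [PR_iff hκ hs p q hB hpB d hb] at hD
        rw [PR_iff hκ hs p q hB hpB d' hb]
        exact p.mono _ hD _ (hfib D' b hD') fun x hx => hsub hx
      nempty := by
        intro h
        obtain ⟨B, b, -, hB, hpB, d, -, hb⟩ := PR2_common hκ hs p q hA hp (hdfn ∅ h) (hdfn ∅ h)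
        rw [PR_iff hκ hs p q hB hpB d hb] at h
        exact p.nempty h
      ultra := by
        intro D hD
        obtain ⟨B, b, -, hB, hpB, d, -, hb⟩ := PR2_common hκ hs p q hA hp hD hD
        rw [PR_iff hκ hs p q hB hpB d hb, PR_iff hκ hs p q hB hpB d.compl hb]
        exact p.ultra _ (hfib D b hD) }
  refine ⟨t, rfl, ?_⟩
  intro Θ R hR c c' hcc
  obtain ⟨A₀, hA₀, hc⟩ := PR2_tup hκ c
  obtain ⟨A₁, hA₁, hc'⟩ := PR2_tup hκ c'
  have hB : Small κ (fun s => A s ∪ (A₀ s ∪ A₁ s)) := CT_sup hκ hA (CT_sup hκ hA₀ hA₁)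
  obtain ⟨B, hBd⟩ : ∃ B : Par U, B = fun s => A s ∪ (A₀ s ∪ A₁ s) := ⟨_, rfl⟩
  rw [← hBd] at hB
  have hAB : ∀ s, A s ⊆ B s := fun s => by rw [hBd]; exact Set.subset_union_left
  have hcB : c.In B := PR2_inMono hc fun s => by
    rw [hBd]; exact Set.subset_union_left.trans Set.subset_union_right
  have hcB' : c'.In B := PR2_inMono hc' fun s => by
    rw [hBd]; exact Set.subset_union_right.trans Set.subset_union_right
  obtain ⟨b, hb⟩ := PR_real hκ hs q hB
  have hpB : InvOver U B p.sets := PR_invMono hp hAB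
  have hRB : DefOver U B ((Γ ++ Δ) ++ Θ) R := hR.mono fun s => Set.empty_subset _
  show _ ∈ tensor κ U p.sets q.sets ↔ _ ∈ tensor κ U p.sets q.sets
  rw [PR_iff hκ hs p q hB hpB (hRB.fibre c hcB) hb, PR_iff hκ hs p q hB hpB (hRB.fibre c' hcB') hb]
  have hst : SameTp U A (b.app c) (b.app c') := by
    intro E hE
    have hEB : DefOver U B (Δ ++ Θ) E := hE.mono hAB
    have e1 := PR2_real_iff q hb (hEB.fibre c hcB)
    have e2 := PR2_real_iff q hb (hEB.fibre c' hcB')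
    exact e1.trans ((PR_invA hq hE hcc).trans e2.symm)
  have hR' : DefOver U (noPar U) (Γ ++ (Δ ++ Θ))
      {w | (Tup.app (Tup.app (Tup.fst (Γ := Γ) (Δ := Δ ++ Θ) w)
        (Tup.fst (Γ := Δ) (Δ := Θ) (Tup.snd (Γ := Γ) (Δ := Δ ++ Θ) w)))
        (Tup.snd (Γ := Δ) (Δ := Θ) (Tup.snd (Γ := Γ) (Δ := Δ ++ Θ) w))) ∈ R} :=
    hR.pre (t := fun M _ w => (Tup.app (Tup.app (Tup.fst (Γ := Γ) (Δ := Δ ++ Θ) w)
        (Tup.fst (Γ := Δ) (Δ := Θ) (Tup.snd (Γ := Γ) (Δ := Δ ++ Θ) w)))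
        (Tup.snd (Γ := Δ) (Δ := Θ) (Tup.snd (Γ := Γ) (Δ := Δ ++ Θ) w))))
      (IsTs.app (IsTs.app (IsTs.fst IsTs.id) (IsTs.fst (IsTs.snd IsTs.id)))
        (IsTs.snd (IsTs.snd IsTs.id)))
  have h1 := hp (Δ ++ Θ) _ hR' (b.app c) (b.app c') hst
  simp only [Set.mem_ofPred_eq, Tup.fst_app, Tup.snd_app] at h1
  exact h1

end PR

end Pool.Agent.Lib_helper58.ID
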