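import Pool.Agent.Lib_helper58.ID.PR2

/-!
# MP_bc6371_lc: block PR3 (the trivial domination; products of coheirs)
-/

namespace Pool.Agent.Lib_helper58.ID

open Cardinal

private theorem PR3_all {U : Str} {Γ : List Srt} (v : Tup U.car Γ) : v.In (allPar U) :=
  fun _ _ => Set.mem_univ _

private theorem PR3_in {U : Str} {Γ : List Srt} {A B : Par U} (hAB : ∀ s, A s ⊆ B s)
    {v : Tup U.car Γ} (h : v.In A) : v.In B := fun s x => hAB s (h s x)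

/-- equality of tuples is first order -/
private theorem PR3_eq {C : Srt → Type} {Γ : List Srt} : ∀ (Δ : List Srt)
    (t t' : ∀ M : Str, (∀ s, C s → M.car s) → Tup M.car Γ → Tup M.car Δ),
    IsTs C Γ Δ t → IsTs C Γ Δ t' → Dfn C Γ (fun M e v => t M e v = t' M e v)
  | [], t, t', _, _ => by
    obtain ⟨φ, hφ⟩ := Dfn.true (C := C) (Γ := Γ)
    exact ⟨φ, fun M e v => ⟨fun _ => (hφ M e v).1 trivial, fun _ => rfl⟩⟩
  | s :: Δ, t, t', h, h' => by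
    have h1 : Dfn C Γ (fun M e v => (t M e v).get .z = (t' M e v).get .z) :=
      Dfn.eq (h s .z) (h' s .z)
    have h2 : Dfn C Γ (fun M e v => (t M e v).2 = (t' M e v).2) :=
      PR3_eq Δ (fun M e v => (t M e v).2) (fun M e v => (t' M e v).2)
        (fun s' x => h s' (.s x)) (fun s' x => h' s' (.s x))
    obtain ⟨φ, hφ⟩ := h1.and h2
    refine ⟨φ, fun M e v => Iff.trans ?_ (hφ M e v)⟩
    constructor
    · intro h3
      have h4 : t M e v = t' M e v := h3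
      exact ⟨congrArg (fun w => Tup.get w Var.z) h4,
        congrArg (fun w : Tup M.car (s :: Δ) => w.2) h4⟩
    · rintro ⟨h3, h4⟩
      exact Prod.ext h3 h4

private theorem PR3_eqDef {U : Str} {A : Par U} (Γ : List Srt) :
    DefOver U A ((Γ ++ Γ) ++ Γ)
      {z | Tup.fst (Γ := Γ) (Δ := Γ) (Tup.fst (Γ := Γ ++ Γ) (Δ := Γ) z) =
        Tup.snd (Γ := Γ ++ Γ) (Δ := Γ) z} :=
  DefOver.of_dfn (C := NoC) (PR3_eq Γ
    (fun _ _ z => Tup.fst (Γ := Γ) (Δ := Γ) (Tup.fst (Γ := Γ ++ Γ) (Δ := Γ) z))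
    (fun _ _ z => Tup.snd (Γ := Γ ++ Γ) (Δ := Γ) z) (IsTs.id.fst.fst) (IsTs.id.snd))
    (fun _ c => c.elim) (fun _ c => c.elim)

private theorem PR3_small {κ : Cardinal.{0}} (hκ : ℵ₀ < κ) {U : Str} {A : Par U}
    (h : Finite (Σ s, {x // x ∈ A s})) : Small κ A :=
  (Cardinal.lt_aleph0_of_finite _).trans hκ

section PR
variable {κ : Cardinal.{0}} (hκ : ℵ₀ < κ) {U : Str} (hs : Saturated κ U)
include hκ hs

private theorem PR3_fst {Γ Δ : List Srt} (p : Typ U (allPar U) Γ) (q : Typ U (allPar U) Δ)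
    (hp : Invar κ U p.sets) (D : Set (Tup U.car Γ)) (hD : D ∈ p.sets) :
    {z | Tup.fst (Γ := Γ) (Δ := Δ) z ∈ D} ∈ tensor κ U p.sets q.sets := by
  obtain ⟨A, hA, hpA⟩ := hp
  obtain ⟨A₀, -, hA₀, hD₀⟩ := CT_finpar (p.dfn D hD)
  have hB := CT_sup hκ hA (PR3_small hκ hA₀)
  obtain ⟨b, hb⟩ := PR_real hκ hs q hB
  have hDB : DefOver U (fun s => A s ∪ A₀ s) Γ D := hD₀.mono fun _ => Set.subset_union_right
  have hE : DefOver U (fun s => A s ∪ A₀ s) (Γ ++ Δ)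
      {z | Tup.fst (Γ := Γ) (Δ := Δ) z ∈ D} :=
    hDB.pre (t := fun M _ z => Tup.fst (Γ := Γ) (Δ := Δ) z) (IsTs.id.fst)
  refine ⟨_, hB, PR_invMono hpA fun _ => Set.subset_union_left, hE, b, hb, ?_⟩
  have e : {x : Tup U.car Γ | x.app b ∈ {z | Tup.fst (Γ := Γ) (Δ := Δ) z ∈ D}} = D := by
    ext x
    show (x.app b).fst ∈ D ↔ _
    rw [Tup.fst_app]
  rw [e]
  exact hD

/-- the trivial domination -/
theorem PR_proj {Γ : List Srt} (p : Typ U (allPar U) Γ) (hp : Invar κ U p.sets) :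
    Dominates κ U (tensor κ U p.sets p.sets) p.sets := by
  have hfst := PR3_fst hκ hs p p hp
  obtain ⟨A, hA, hpA⟩ := hp
  obtain ⟨t, ht, htA⟩ := PR_typ hκ hs p p hA hpA hpA
  rw [← ht] at hfst ⊢
  have hpre : ∀ {B : Par U} {D : Set (Tup U.car ((Γ ++ Γ) ++ Γ))}, DefOver U B _ D →
      DefOver U B (Γ ++ Γ) {x | Tup.app (Γ := Γ ++ Γ) (Δ := Γ) x
        (Tup.fst (Γ := Γ) (Δ := Γ) x) ∈ D} := fun hD =>
    hD.pre (t := fun M _ x => Tup.app (Γ := Γ ++ Γ) (Δ := Γ) x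
        (Tup.fst (Γ := Γ) (Δ := Γ) x)) (IsTs.id.app IsTs.id.fst)
  have hall : ∀ {Θ : List Srt} {D : Set (Tup U.car Θ)}, DefOver U A Θ D →
      DefOver U (allPar U) Θ D := fun hD => hD.mono fun _ => Set.subset_univ _
  let r : Typ U A ((Γ ++ Γ) ++ Γ) :=
    { sets := {R | DefOver U A ((Γ ++ Γ) ++ Γ) R ∧
        {x | Tup.app (Γ := Γ ++ Γ) (Δ := Γ) x (Tup.fst (Γ := Γ) (Δ := Γ) x) ∈ R} ∈ t.sets}
      dfn := fun D hD => hD.1
      inter := fun D hD D' hD' => ⟨hD.1.inter hD'.1, t.inter _ hD.2 _ hD'.2⟩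
      mono := fun D hD D' hD' h => ⟨hD', t.mono _ hD.2 _ (hpre (hall hD')) fun x hx => h hx⟩
      nempty := fun h => t.nempty h.2
      ultra := fun D hD => by
        rcases t.ultra _ (hpre (hall hD)) with h | h
        · exact Or.inl ⟨hD, h⟩
        · exact Or.inr ⟨hD.compl, h⟩ }
  have e1 : ∀ D : Set (Tup U.car (Γ ++ Γ)), {z | ∃ (x : Tup U.car (Γ ++ Γ)) (y : Tup U.car Γ),
      z = Tup.app x y ∧ x ∈ D} = {z | Tup.fst (Γ := Γ ++ Γ) (Δ := Γ) z ∈ D} := by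
    intro D
    ext z
    constructor
    · rintro ⟨x, y, rfl, hx⟩
      show (Tup.app x y).fst ∈ D
      rw [Tup.fst_app]
      exact hx
    · intro hz
      exact ⟨Tup.fst (Γ := Γ ++ Γ) (Δ := Γ) z, Tup.snd (Γ := Γ ++ Γ) (Δ := Γ) z,
        (Tup.app_fst_snd z).symm, hz⟩
  have e2 : ∀ D : Set (Tup U.car Γ), {z | ∃ (x : Tup U.car (Γ ++ Γ)) (y : Tup U.car Γ),
      z = Tup.app x y ∧ y ∈ D} = {z | Tup.snd (Γ := Γ ++ Γ) (Δ := Γ) z ∈ D} := by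
    intro D
    ext z
    constructor
    · rintro ⟨x, y, rfl, hy⟩
      show (Tup.app x y).snd ∈ D
      rw [Tup.snd_app]
      exact hy
    · intro hz
      exact ⟨Tup.fst (Γ := Γ ++ Γ) (Δ := Γ) z, Tup.snd (Γ := Γ ++ Γ) (Δ := Γ) z,
        (Tup.app_fst_snd z).symm, hz⟩
  refine ⟨A, hA, htA, hpA, r, fun D hD hDA => ?_, fun D hD hDA => ?_, fun D hD => ?_⟩
  · rw [e1]
    refine ⟨hDA.pre (t := fun M _ z => Tup.fst (Γ := Γ ++ Γ) (Δ := Γ) z) IsTs.id.fst, ?_⟩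
    have e : {x | Tup.app (Γ := Γ ++ Γ) (Δ := Γ) x (Tup.fst (Γ := Γ) (Δ := Γ) x) ∈
        {z | Tup.fst (Γ := Γ ++ Γ) (Δ := Γ) z ∈ D}} = D := by
      ext x
      show (Tup.app (Γ := Γ ++ Γ) (Δ := Γ) x _).fst ∈ D ↔ _
      rw [Tup.fst_app]
    rw [e]
    exact hD
  · rw [e2]
    refine ⟨hDA.pre (t := fun M _ z => Tup.snd (Γ := Γ ++ Γ) (Δ := Γ) z) IsTs.id.snd, ?_⟩
    have e : {x | Tup.app (Γ := Γ ++ Γ) (Δ := Γ) x (Tup.fst (Γ := Γ) (Δ := Γ) x) ∈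
        {z | Tup.snd (Γ := Γ ++ Γ) (Δ := Γ) z ∈ D}} =
        {x | Tup.fst (Γ := Γ) (Δ := Γ) x ∈ D} := by
      ext x
      show (Tup.app (Γ := Γ ++ Γ) (Δ := Γ) x _).snd ∈ D ↔ _
      rw [Tup.snd_app]
      rfl
    rw [e]
    exact hfst D hD
  · refine ⟨{z | Tup.fst (Γ := Γ) (Δ := Γ) z ∈ D}, hfst D hD,
      {z | Tup.fst (Γ := Γ) (Δ := Γ) (Tup.fst (Γ := Γ ++ Γ) (Δ := Γ) z) =
        Tup.snd (Γ := Γ ++ Γ) (Δ := Γ) z}, ⟨PR3_eqDef Γ, ?_⟩, fun x y hx hxy => ?_⟩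
    · have e : {x : Tup U.car (Γ ++ Γ) | Tup.app (Γ := Γ ++ Γ) (Δ := Γ) x
          (Tup.fst (Γ := Γ) (Δ := Γ) x) ∈ {z : Tup U.car ((Γ ++ Γ) ++ Γ) |
            Tup.fst (Γ := Γ) (Δ := Γ) (Tup.fst (Γ := Γ ++ Γ) (Δ := Γ) z) =
            Tup.snd (Γ := Γ ++ Γ) (Δ := Γ) z}} = Set.univ := by
        rw [Set.eq_univ_iff_forall]
        intro x
        show (Tup.app (Γ := Γ ++ Γ) (Δ := Γ) x _).fst.fst = (Tup.app (Γ := Γ ++ Γ) (Δ := Γ) x _).snd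
        rw [Tup.fst_app, Tup.snd_app]
      rw [e]
      rcases t.ultra Set.univ DefOver.univ with h | h
      · exact h
      · rw [Set.compl_univ] at h
        exact absurd h t.nempty
    · have h1 : (Tup.app (Γ := Γ ++ Γ) (Δ := Γ) x y).fst.fst =
        (Tup.app (Γ := Γ ++ Γ) (Δ := Γ) x y).snd := hxy
      rw [Tup.fst_app, Tup.snd_app] at h1
      rw [← h1]
      exact hx

/-- products of coheirs -/
theorem PR_coheir {Γ Δ : List Srt} (p : Typ U (allPar U) Γ) (q : Typ U (allPar U) Δ)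
    {N : Par U} (hN : Small κ N) (hp : ∀ D ∈ p.sets, ∃ v ∈ D, v.In N)
    {D : Set (Tup U.car (Γ ++ Δ))} (hD : DefOver U (allPar U) (Γ ++ Δ) D) :
    D ∈ tensor κ U p.sets q.sets ↔
      ∃ V ∈ p.sets, ∀ j ∈ V, j.In N → {y | j.app y ∈ D} ∈ q.sets := by
  obtain ⟨A₀, -, hA₀, hD₀⟩ := CT_finpar hD
  have hB := CT_sup hκ hN (PR3_small hκ hA₀)
  have hpB : InvOver U (fun s => N s ∪ A₀ s) p.sets :=
    PR_invMono (PR_inv p hp) fun _ => Set.subset_union_left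
  have hDB : DefOver U (fun s => N s ∪ A₀ s) (Γ ++ Δ) D := hD₀.mono fun _ =>
    Set.subset_union_right
  obtain ⟨b, hb⟩ := PR_real hκ hs q hB
  rw [PR_iff hκ hs p q hB hpB hDB hb]
  have hf : ∀ j : Tup U.car Γ, j.In N →
      DefOver U (fun s => N s ∪ A₀ s) Δ {y | j.app y ∈ D} := fun j hj =>
    hDB.fibre' j (PR3_in (fun _ => Set.subset_union_left) hj)
  constructor
  · intro h
    refine ⟨_, h, fun j hj hjN => ?_⟩
    rcases q.ultra _ ((hf j hjN).mono fun _ => Set.subset_univ _) with h1 | h1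
    · exact h1
    · exact absurd hj (hb _ h1 (hf j hjN).compl)
  · rintro ⟨V, hV, h⟩
    rcases p.ultra _ (hD.fibre b (PR3_all b)) with h1 | h1
    · exact h1
    · obtain ⟨j, hj, hjN⟩ := hp _ (p.inter _ hV _ h1)
      exact absurd (hb _ (h j hj.1 hjN) (hf j hjN)) hj.2

end PR

end Pool.Agent.Lib_helper58.ID
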