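import Pool.Agent.Lib_helper58.ID.SY
import Pool.Agent.Lib_helper58.ID.MS1

/-!
# MP_bc6371_lc, block SAT: existence of saturated models

A saturated model elementarily equivalent to a given structure `M`.  Names for the elements are
trees (`SAT_Node`): a node carries a context `Γ`, few constants which are entries of earlier nodes,
and a set `F` of formulas in the context `Γ` with these constants; the node names a tuple which
realises `F` if `F` is finitely satisfiable.  On the set `Ω` of all interpretations of the names in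
`M` an ultrafilter is built (Zorn) for which this is true almost everywhere.  The model consists of
the names modulo almost sure equality.
-/

namespace Pool.Agent.Lib_helper58.ID

open Cardinal Filter

/-- nodes: names of tuples -/
inductive SAT_Node (K : Type) : List Srt → Type
  | mk (Γ : List Srt) (J : Srt → Set K) (Δ : ∀ s, J s → List Srt)
      (x : ∀ (s : Srt) (j : J s), Var (Δ s j) s) (f : ∀ (s : Srt) (j : J s), SAT_Node K (Δ s j))
      (F : Set (Fml (fun s => J s) Γ)) : SAT_Node K Γ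

/-- all nodes -/
abbrev SAT_Nd (K : Type) : Type := Σ Γ, SAT_Node K Γ

/-- interpretations of the nodes in `M` -/
abbrev SAT_Om (K : Type) (M : Str) : Type := ∀ p : SAT_Nd K, Tup M.car p.1

/-- names of elements -/
abbrev SAT_Nm (K : Type) (s : Srt) : Type := Σ Γ, SAT_Node K Γ × Var Γ s

section
variable {K : Type} {M : Str}

/-- value of a name -/
def SAT_ev (e : SAT_Om K M) (s : Srt) (n : SAT_Nm K s) : M.car s := (e ⟨n.1, n.2.1⟩).get n.2.2

/-- value of the constants of a node -/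
def SAT_c {J : Srt → Set K} {Δ : ∀ s, J s → List Srt} (x : ∀ (s : Srt) (j : J s), Var (Δ s j) s)
    (f : ∀ (s : Srt) (j : J s), SAT_Node K (Δ s j)) (e : SAT_Om K M) : ∀ s, J s → M.car s :=
  fun s j => (e ⟨Δ s j, f s j⟩).get (x s j)

/-- the requirement of a node -/
def SAT_HK (V : Ultrafilter (SAT_Om K M)) (Γ : List Srt) (J : Srt → Set K)
    (Δ : ∀ s, J s → List Srt) (x : ∀ (s : Srt) (j : J s), Var (Δ s j) s)
    (f : ∀ (s : Srt) (j : J s), SAT_Node K (Δ s j)) (F : Set (Fml (fun s => J s) Γ)) : Prop :=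
  (∀ G ⊆ F, G.Finite → ∀ᶠ e in (V : Filter (SAT_Om K M)), ∃ v : Tup M.car Γ, ∀ φ ∈ G,
    Sat M (SAT_c x f e) φ v) →
  ∀ φ ∈ F, ∀ᶠ e in (V : Filter (SAT_Om K M)), Sat M (SAT_c x f e) φ (e ⟨Γ, .mk Γ J Δ x f F⟩)

/-- sets of interpretations depending on the nodes in `W` only -/
def SAT_Det (W : Set (SAT_Nd K)) (X : Set (SAT_Om K M)) : Prop :=
  ∀ e e' : SAT_Om K M, (∀ n ∈ W, e n = e' n) → (e ∈ X ↔ e' ∈ X)

theorem SAT_Det.compl {W : Set (SAT_Nd K)} {X : Set (SAT_Om K M)} (h : SAT_Det W X) :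
    SAT_Det W Xᶜ := fun e e' he => not_congr (h e e' he)

theorem SAT_Det.inter {W : Set (SAT_Nd K)} {X Y : Set (SAT_Om K M)} (h : SAT_Det W X)
    (h' : SAT_Det W Y) : SAT_Det W (X ∩ Y) := fun e e' he => and_congr (h e e' he) (h' e e' he)

theorem SAT_Det.mono {W W' : Set (SAT_Nd K)} {X : Set (SAT_Om K M)} (h : SAT_Det W X)
    (hW : W ⊆ W') : SAT_Det W' X := fun e e' he => h e e' (fun n hn => he n (hW hn))

/-- the sets of `V` depending on `W` only generate a filter -/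
def SAT_H (W : Set (SAT_Nd K)) (V : Ultrafilter (SAT_Om K M)) : Filter (SAT_Om K M) where
  sets := {X | ∃ Y, SAT_Det W Y ∧ Y ∈ V ∧ Y ⊆ X}
  univ_sets := ⟨Set.univ, fun _ _ _ => Iff.rfl, Filter.univ_mem, subset_rfl⟩
  sets_of_superset := fun ⟨Y, h1, h2, h3⟩ h => ⟨Y, h1, h2, h3.trans h⟩
  inter_sets := fun ⟨Y, h1, h2, h3⟩ ⟨Y', h1', h2', h3'⟩ =>
    ⟨Y ∩ Y', h1.inter h1', Filter.inter_mem h2 h2', Set.inter_subset_inter h3 h3'⟩

/-- the approximate solutions -/
def SAT_Good (p : Set (SAT_Nd K) × Ultrafilter (SAT_Om K M)) : Prop :=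
  ∀ Γ J Δ x f F, (⟨Γ, .mk Γ J Δ x f F⟩ : SAT_Nd K) ∈ p.1 →
    (∀ s j, (⟨Δ s j, f s j⟩ : SAT_Nd K) ∈ p.1) ∧ SAT_HK p.2 Γ J Δ x f F

/-- the order of the approximate solutions -/
def SAT_le (p q : Set (SAT_Nd K) × Ultrafilter (SAT_Om K M)) : Prop :=
  p.1 ⊆ q.1 ∧ ∀ X, SAT_Det p.1 X → X ∈ p.2 → X ∈ q.2

theorem SAT_le_iff {p q : Set (SAT_Nd K) × Ultrafilter (SAT_Om K M)} (h : SAT_le p q)
    {X : Set (SAT_Om K M)} (hX : SAT_Det p.1 X) : X ∈ p.2 ↔ X ∈ q.2 := by
  refine ⟨h.2 X hX, fun h1 => ?_⟩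
  by_contra h2
  have h3 := h.2 _ hX.compl (Ultrafilter.compl_mem_iff_notMem.2 h2)
  exact (Ultrafilter.compl_mem_iff_notMem.1 h3) h1

theorem SAT_c_congr {W : Set (SAT_Nd K)} {J : Srt → Set K} {Δ : ∀ s, J s → List Srt}
    (x : ∀ (s : Srt) (j : J s), Var (Δ s j) s) (f : ∀ (s : Srt) (j : J s), SAT_Node K (Δ s j))
    (hW : ∀ s j, (⟨Δ s j, f s j⟩ : SAT_Nd K) ∈ W) {e e' : SAT_Om K M}
    (h : ∀ n ∈ W, e n = e' n) : SAT_c x f e = SAT_c x f e' := by
  funext s j
  unfold SAT_c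
  rw [h _ (hW s j)]

theorem SAT_HK_mono {p q : Set (SAT_Nd K) × Ultrafilter (SAT_Om K M)} (h : SAT_le p q)
    {Γ : List Srt} {J : Srt → Set K} {Δ : ∀ s, J s → List Srt}
    (x : ∀ (s : Srt) (j : J s), Var (Δ s j) s) (f : ∀ (s : Srt) (j : J s), SAT_Node K (Δ s j))
    (F : Set (Fml (fun s => J s) Γ)) (hW : ∀ s j, (⟨Δ s j, f s j⟩ : SAT_Nd K) ∈ p.1)
    (hn : (⟨Γ, .mk Γ J Δ x f F⟩ : SAT_Nd K) ∈ p.1) (hp : SAT_HK p.2 Γ J Δ x f F) :
    SAT_HK q.2 Γ J Δ x f F := by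
  intro h1 φ hφ
  refine (SAT_le_iff h (X := {e | Sat M (SAT_c x f e) φ (e ⟨Γ, .mk Γ J Δ x f F⟩)}) ?_).1
    (hp (fun G hG hGf => ?_) φ hφ)
  · intro e e' he
    show Sat M (SAT_c x f e) φ (e ⟨Γ, .mk Γ J Δ x f F⟩) ↔
      Sat M (SAT_c x f e') φ (e' ⟨Γ, .mk Γ J Δ x f F⟩)
    rw [SAT_c_congr x f hW he, he _ hn]
  · refine (SAT_le_iff h (X := {e | ∃ v : Tup M.car Γ, ∀ φ ∈ G, Sat M (SAT_c x f e) φ v}) ?_).2
      (h1 G hG hGf)
    intro e e' he
    show (∃ v : Tup M.car Γ, ∀ φ ∈ G, Sat M (SAT_c x f e) φ v) ↔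
      (∃ v : Tup M.car Γ, ∀ φ ∈ G, Sat M (SAT_c x f e') φ v)
    rw [SAT_c_congr x f hW he]

theorem SAT_H_neBot (W : Set (SAT_Nd K)) (V : Ultrafilter (SAT_Om K M)) : (SAT_H W V).NeBot := by
  refine ⟨fun h => ?_⟩
  have h1 : (∅ : Set (SAT_Om K M)) ∈ SAT_H W V := by rw [h]; exact Filter.mem_bot
  obtain ⟨Y, -, h2, h3⟩ := h1
  exact Filter.NeBot.ne V.neBot (Filter.empty_mem_iff_bot.1 (Filter.mem_of_superset h2 h3))

/-- the whole tower: an ultrafilter satisfying the requirements of all the nodes -/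
theorem SAT_zorn [Nonempty (SAT_Om K M)] : ∃ V : Ultrafilter (SAT_Om K M),
    ∀ Γ J Δ x f F, SAT_HK V Γ J Δ x f F := by
  classical
  let P := {p : Set (SAT_Nd K) × Ultrafilter (SAT_Om K M) // SAT_Good p}
  obtain ⟨m, hm⟩ := exists_maximal_of_chains_bounded (α := P) (r := fun p q => SAT_le p.1 q.1)
    (fun c hc => by
      have hd : Directed (· ≥ ·) (fun p : c => SAT_H p.1.1.1 p.1.1.2) := by
        have key : ∀ p q : P, SAT_le p.1 q.1 → SAT_H q.1.1 q.1.2 ≤ SAT_H p.1.1 p.1.2 := by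
          rintro p q hpq X ⟨Y, h1, h2, h3⟩
          exact ⟨Y, h1.mono hpq.1, hpq.2 Y h1 h2, h3⟩
        intro p q
        by_cases hpq : (p : P) = q
        · refine ⟨p, le_refl _, ?_⟩
          show SAT_H p.1.1.1 p.1.1.2 ≤ SAT_H q.1.1.1 q.1.1.2
          rw [hpq]
        · rcases hc p.2 q.2 hpq with h | h
          · exact ⟨q, key _ _ h, le_refl _⟩
          · exact ⟨p, le_refl _, key _ _ h⟩
      have : (⨅ p : c, SAT_H p.1.1.1 p.1.1.2).NeBot :=
        Filter.iInf_neBot_of_directed hd (fun p => SAT_H_neBot _ _)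
      let V : Ultrafilter (SAT_Om K M) := Ultrafilter.of (⨅ p : c, SAT_H p.1.1.1 p.1.1.2)
      have hle : ∀ p ∈ c, SAT_le p.1 (⋃ q : c, q.1.1.1, V) := by
        intro p hp
        refine ⟨Set.subset_iUnion (fun q : c => q.1.1.1) ⟨p, hp⟩, fun X hX hXp => ?_⟩
        have h1 : X ∈ SAT_H p.1.1 p.1.2 := ⟨X, hX, hXp, subset_rfl⟩
        have h2 : (V : Filter (SAT_Om K M)) ≤ SAT_H p.1.1 p.1.2 :=
          (Ultrafilter.of_le _).trans (iInf_le (fun p : c => SAT_H p.1.1.1 p.1.1.2) ⟨p, hp⟩)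
        exact h2 h1
      refine ⟨⟨(⋃ q : c, q.1.1.1, V), ?_⟩, hle⟩
      intro Γ J Δ x f F hn
      obtain ⟨q, hq⟩ := Set.mem_iUnion.1 hn
      obtain ⟨h1, h2⟩ := q.1.2 Γ J Δ x f F hq
      refine ⟨fun s j => Set.mem_iUnion.2 ⟨q, h1 s j⟩, ?_⟩
      exact SAT_HK_mono (hle q.1 q.2) x f F h1 hq h2)
    (fun {a b c} hab hbc => ⟨hab.1.trans hbc.1, fun X hX h =>
      hbc.2 X (hX.mono hab.1) (hab.2 X hX h)⟩)
  have hall : ∀ (Γ : List Srt) (n : SAT_Node K Γ), (⟨Γ, n⟩ : SAT_Nd K) ∈ m.1.1 := by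
    intro Γ n
    induction n with
    | mk Γ J Δ x f F ih =>
      by_contra hn
      set W := m.1.1 with hW
      set V := m.1.2 with hV
      -- it is enough to find a good ultrafilter
      have main : ∀ V' : Ultrafilter (SAT_Om K M), (V' : Filter (SAT_Om K M)) ≤ SAT_H W V →
          SAT_HK V' Γ J Δ x f F → False := by
        intro V' h1 h2
        have hle : SAT_le m.1 (insert ⟨Γ, .mk Γ J Δ x f F⟩ W, V') :=
          ⟨Set.subset_insert _ _, fun X hX hXm => h1 ⟨X, hX, hXm, subset_rfl⟩⟩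
        have hg : SAT_Good (insert ⟨Γ, .mk Γ J Δ x f F⟩ W, V') := by
          intro Γ' J' Δ' x' f' F' hn'
          rcases hn' with hn' | hn'
          · cases hn'
            exact ⟨fun s j => Set.mem_insert_of_mem _ (ih s j), h2⟩
          · obtain ⟨h3, h4⟩ := m.2 Γ' J' Δ' x' f' F' hn'
            exact ⟨fun s j => Set.mem_insert_of_mem _ (h3 s j), SAT_HK_mono hle x' f' F' h3 hn' h4⟩
        exact hn ((hm ⟨_, hg⟩ hle).1 (Set.mem_insert _ _))
      by_cases hfs : ∀ G ⊆ F, G.Finite → ∀ᶠ e in (V : Filter (SAT_Om K M)),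
          ∃ v : Tup M.car Γ, ∀ φ ∈ G, Sat M (SAT_c x f e) φ v
      · let A : {G : Set (Fml (fun s => J s) Γ) // G ⊆ F ∧ G.Finite} → Filter (SAT_Om K M) :=
          fun G => SAT_H W V ⊓ 𝓟 {e | ∀ φ ∈ G.1, Sat M (SAT_c x f e) φ (e ⟨Γ, .mk Γ J Δ x f F⟩)}
        have hd : Directed (· ≥ ·) A := by
          intro G G'
          refine ⟨⟨G.1 ∪ G'.1, Set.union_subset G.2.1 G'.2.1, G.2.2.union G'.2.2⟩, ?_, ?_⟩
          · exact inf_le_inf_left _ (Filter.principal_mono.2 fun e he φ hφ => he φ (Or.inl hφ))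
          · exact inf_le_inf_left _ (Filter.principal_mono.2 fun e he φ hφ => he φ (Or.inr hφ))
        have hne : ∀ G, (A G).NeBot := by
          intro G
          rw [Filter.inf_principal_neBot_iff]
          rintro X ⟨Y, hY, hYV, hYX⟩
          have h1 := hfs G.1 G.2.1 G.2.2
          obtain ⟨e, heY, v, hv⟩ := (Filter.Eventually.and (show ∀ᶠ e in (V : Filter _), e ∈ Y
            from hYV) h1).exists
          let e' : SAT_Om K M := Function.update e ⟨Γ, .mk Γ J Δ x f F⟩ v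
          have hee : ∀ n ∈ W, e n = e' n := by
            intro n hn'
            have : n ≠ ⟨Γ, .mk Γ J Δ x f F⟩ := fun h => hn (h ▸ hn')
            exact (Function.update_of_ne this _ _).symm
          refine ⟨e', hYX ((hY e e' hee).1 heY), fun φ hφ => ?_⟩
          have h2 : e' ⟨Γ, .mk Γ J Δ x f F⟩ = v := Function.update_self _ _ _
          rw [h2, ← SAT_c_congr x f ih hee]
          exact hv φ hφ
        have : Nonempty {G : Set (Fml (fun s => J s) Γ) // G ⊆ F ∧ G.Finite} :=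
          ⟨⟨∅, Set.empty_subset _, Set.finite_empty⟩⟩
        have : (⨅ G, A G).NeBot := Filter.iInf_neBot_of_directed hd hne
        refine main (Ultrafilter.of (⨅ G, A G)) ?_ ?_
        · exact (Ultrafilter.of_le _).trans ((iInf_le A ⟨∅, Set.empty_subset _,
            Set.finite_empty⟩).trans inf_le_left)
        · intro _ φ hφ
          have h1 : ((Ultrafilter.of (⨅ G, A G) : Ultrafilter (SAT_Om K M)) :
              Filter (SAT_Om K M)) ≤ 𝓟 {e | ∀ ψ ∈ ({φ} : Set (Fml (fun s => J s) Γ)),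
                Sat M (SAT_c x f e) ψ (e ⟨Γ, .mk Γ J Δ x f F⟩)} :=
            (Ultrafilter.of_le _).trans ((iInf_le A ⟨{φ}, Set.singleton_subset_iff.2 hφ,
              Set.finite_singleton φ⟩).trans inf_le_right)
          exact Filter.mem_of_superset (Filter.le_principal_iff.1 h1)
            (fun e he => he φ (Set.mem_singleton φ))
      · refine main V ?_ ?_
        · rintro X ⟨Y, -, h2, h3⟩
          exact Filter.mem_of_superset h2 h3
        · exact fun h => (hfs h).elim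
  refine ⟨m.1.2, fun Γ J Δ x f F => (m.2 Γ J Δ x f F (hall _ _)).2⟩

/-- renaming the entries of a tuple -/
def SAT_map {A B : Srt → Type} (g : ∀ s, A s → B s) : ∀ {Γ : List Srt}, Tup A Γ → Tup B Γ
  | [], _ => ()
  | _ :: Γ, v => (g _ v.1, SAT_map g (Γ := Γ) v.2)

theorem SAT_get_map {A B : Srt → Type} (g : ∀ s, A s → B s) : ∀ {Γ : List Srt} {s : Srt}
    (v : Tup A Γ) (x : Var Γ s), (SAT_map g v).get x = g s (v.get x)
  | _, _, _, .z => rfl
  | _ :: Γ, _, v, .s x => SAT_get_map g (Γ := Γ) v.2 x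

theorem SAT_map_surj {A B : Srt → Type} (g : ∀ s, A s → B s) (hg : ∀ s, Function.Surjective (g s)) :
    ∀ {Γ : List Srt} (w : Tup B Γ), ∃ v : Tup A Γ, SAT_map g v = w
  | [], _ => ⟨(), rfl⟩
  | s :: Γ, w => by
      obtain ⟨a, ha⟩ := hg s w.1
      obtain ⟨v, hv⟩ := SAT_map_surj g hg (Γ := Γ) w.2
      exact ⟨(a, v), Prod.ext ha hv⟩

theorem SAT_val {C A B : Srt → Type} (g : ∀ s, A s → B s) (k : ∀ s, C s → A s) {Γ : List Srt}
    {s : Srt} (t : Tm C Γ s) (v : Tup A Γ) :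
    t.val (fun s c => g s (k s c)) (SAT_map g v) = g s (t.val k v) := by
  cases t with
  | cst c => rfl
  | var x => exact SAT_get_map g v x

/-- the position of a variable -/
def SAT_idx : ∀ {Γ : List Srt} {s : Srt}, Var Γ s → ℕ
  | _, _, .z => 0
  | _, _, .s x => SAT_idx x + 1

theorem SAT_idx_inj : ∀ {Γ : List Srt} {s : Srt} (x y : Var Γ s), SAT_idx x = SAT_idx y → x = y
  | _, _, .z, .z, _ => rfl
  | _, _, .z, .s y, h => by simp [SAT_idx] at h
  | _, _, .s x, .z, h => by simp [SAT_idx] at h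
  | _, _, .s x, .s y, h => by
      have h' : SAT_idx x = SAT_idx y := by simpa [SAT_idx] using h
      rw [SAT_idx_inj x y h']

theorem SAT_mkVar (Γ : List Srt) (s : Srt) : #(Var Γ s) ≤ ℵ₀ := by
  have : Countable (Var Γ s) := Function.Injective.countable
    (f := fun x : Var Γ s => SAT_idx x) (fun x y h => SAT_idx_inj x y h)
  exact Cardinal.mk_le_aleph0

section
variable (V : Ultrafilter (SAT_Om K M))

/-- almost sure equality of names -/
def SAT_set (s : Srt) : Setoid (SAT_Nm K s) where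
  r n n' := ∀ᶠ e in (V : Filter (SAT_Om K M)), SAT_ev e s n = SAT_ev e s n'
  iseqv :=
    { refl := fun _ => Eventually.of_forall fun _ => rfl
      symm := fun h => h.mono fun _ h => h.symm
      trans := fun h h' => (h.and h').mono fun _ h => h.1.trans h.2 }

/-- the model -/
def SAT_U : Str where
  car := fun s => Quotient (SAT_set V s)
  mem := fun a x X => ∃ (n : SAT_Nm K a) (n' : SAT_Nm K (.pow a)),
    x = Quotient.mk (SAT_set V a) n ∧ X = Quotient.mk (SAT_set V (.pow a)) n' ∧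
    ∀ᶠ e in (V : Filter (SAT_Om K M)), M.mem a (SAT_ev e _ n) (SAT_ev e _ n')
  pair := fun a b x y z => ∃ (n : SAT_Nm K a) (n' : SAT_Nm K b) (n'' : SAT_Nm K (.prod a b)),
    x = Quotient.mk (SAT_set V a) n ∧ y = Quotient.mk (SAT_set V b) n' ∧
    z = Quotient.mk (SAT_set V (.prod a b)) n'' ∧
    ∀ᶠ e in (V : Filter (SAT_Om K M)), M.pair a b (SAT_ev e _ n) (SAT_ev e _ n') (SAT_ev e _ n'')

/-- the class of a name -/
def SAT_cl (s : Srt) (n : SAT_Nm K s) : (SAT_U V).car s := Quotient.mk (SAT_set V s) n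

theorem SAT_cl_eq {s : Srt} {n n' : SAT_Nm K s} : SAT_cl V s n = SAT_cl V s n' ↔
    ∀ᶠ e in (V : Filter (SAT_Om K M)), SAT_ev e s n = SAT_ev e s n' :=
  ⟨fun h => Quotient.exact h, fun h => Quotient.sound h⟩

theorem SAT_cl_surj (s : Srt) : Function.Surjective (SAT_cl V s) := fun x => by
  obtain ⟨n, hn⟩ := Quotient.exists_rep (s := SAT_set V s) x
  exact ⟨n, hn⟩

theorem SAT_mem {a : Srt} {n : SAT_Nm K a} {n' : SAT_Nm K (.pow a)} :
    (SAT_U V).mem a (SAT_cl V _ n) (SAT_cl V _ n') ↔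
      ∀ᶠ e in (V : Filter (SAT_Om K M)), M.mem a (SAT_ev e _ n) (SAT_ev e _ n') := by
  constructor
  · rintro ⟨m, m', h1, h2, h⟩
    filter_upwards [h, (SAT_cl_eq V).1 h1, (SAT_cl_eq V).1 h2] with e h h1 h2
    rw [h1, h2]
    exact h
  · intro h
    exact ⟨n, n', rfl, rfl, h⟩

theorem SAT_pair {a b : Srt} {n : SAT_Nm K a} {n' : SAT_Nm K b} {n'' : SAT_Nm K (.prod a b)} :
    (SAT_U V).pair a b (SAT_cl V _ n) (SAT_cl V _ n') (SAT_cl V _ n'') ↔
      ∀ᶠ e in (V : Filter (SAT_Om K M)),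
        M.pair a b (SAT_ev e _ n) (SAT_ev e _ n') (SAT_ev e _ n'') := by
  constructor
  · rintro ⟨m, m', m'', h1, h2, h3, h⟩
    filter_upwards [h, (SAT_cl_eq V).1 h1, (SAT_cl_eq V).1 h2, (SAT_cl_eq V).1 h3]
      with e h h1 h2 h3
    rw [h1, h2, h3]
    exact h
  · intro h
    exact ⟨n, n', n'', rfl, rfl, rfl, h⟩

/-- almost surely finitely satisfiable sets of formulas with few constants are realised -/
theorem SAT_real (hV : ∀ Γ J Δ x f F, SAT_HK V Γ J Δ x f F) {C : Srt → Type}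
    (hC : ∀ s, #(C s) ≤ #K) (k : ∀ s, C s → SAT_Nm K s) {Γ : List Srt} (F : Set (Fml C Γ))
    (hF : ∀ G ⊆ F, G.Finite → ∀ᶠ e in (V : Filter (SAT_Om K M)), ∃ v : Tup M.car Γ, ∀ φ ∈ G,
      Sat M (fun s c => SAT_ev e s (k s c)) φ v) :
    ∃ n : SAT_Node K Γ, ∀ φ ∈ F, ∀ᶠ e in (V : Filter (SAT_Om K M)),
      Sat M (fun s c => SAT_ev e s (k s c)) φ (e ⟨Γ, n⟩) := by
  have h1 : ∀ s, Nonempty (C s ↪ K) := fun s => hC s
  let ι : ∀ s, C s ↪ K := fun s => (h1 s).some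
  let J : Srt → Set K := fun s => Set.range (ι s)
  let E : ∀ s, C s ≃ J s := fun s => Equiv.ofInjective (ι s) (ι s).injective
  let k' : ∀ s, J s → SAT_Nm K s := fun s j => k s ((E s).symm j)
  let Δ : ∀ s, J s → List Srt := fun s j => (k' s j).1
  let x : ∀ (s : Srt) (j : J s), Var (Δ s j) s := fun s j => (k' s j).2.2
  let f : ∀ (s : Srt) (j : J s), SAT_Node K (Δ s j) := fun s j => (k' s j).2.1
  let tr : Fml C Γ → Fml (fun s => J s) Γ := fun φ =>
    φ.sub (fun s c => .cst (E s c)) (fun s y => .var y)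
  have htr : ∀ (φ : Fml C Γ) (e : SAT_Om K M) (v : Tup M.car Γ),
      Sat M (SAT_c x f e) (tr φ) v ↔ Sat M (fun s c => SAT_ev e s (k s c)) φ v := by
    intro φ e v
    refine Sat_sub M _ _ φ _ _ v v ?_ (fun _ _ => rfl)
    intro s c
    show SAT_ev e s (k s ((E s).symm (E s c))) = _
    rw [Equiv.symm_apply_apply]
  refine ⟨.mk Γ J Δ x f (tr '' F), fun φ hφ => ?_⟩
  have h2 := hV Γ J Δ x f (tr '' F) ?_ (tr φ) ⟨φ, hφ, rfl⟩
  · exact h2.mono fun e he => (htr φ e _).1 he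
  · intro G hG hGf
    obtain ⟨G', hG', hGf', rfl⟩ := Set.exists_subset_image_finite_and.1 ⟨G, hG, hGf, rfl⟩
    refine (hF G' hG' hGf').mono fun e he => ?_
    obtain ⟨v, hv⟩ := he
    refine ⟨v, ?_⟩
    rintro _ ⟨φ, hφ, rfl⟩
    exact (htr φ e v).2 (hv φ hφ)

/-- truth in the model is almost sure truth in `M` -/
theorem SAT_truth (hV : ∀ Γ J Δ x f F, SAT_HK V Γ J Δ x f F) (hK : ℵ₀ ≤ #K) {C : Srt → Type}
    (hC : ∀ s, #(C s) ≤ #K) (k : ∀ s, C s → SAT_Nm K s) {Γ : List Srt} (φ : Fml C Γ)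
    (v : Tup (SAT_Nm K) Γ) :
    Sat (SAT_U V) (fun s c => SAT_cl V s (k s c)) φ (SAT_map (SAT_cl V) v) ↔
      ∀ᶠ e in (V : Filter (SAT_Om K M)),
        Sat M (fun s c => SAT_ev e s (k s c)) φ (SAT_map (SAT_ev e) v) := by
  induction φ with
  | bot =>
    exact ⟨fun h => h.elim, fun h => (h.exists.elim fun _ h => h)⟩
  | eq t t' =>
    simp only [Sat, SAT_val (SAT_cl V) k, SAT_val (SAT_ev _) k]
    exact SAT_cl_eq V
  | mem t t' =>
    simp only [Sat, SAT_val (SAT_cl V) k, SAT_val (SAT_ev _) k]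
    exact SAT_mem V
  | pair t t' t'' =>
    simp only [Sat, SAT_val (SAT_cl V) k, SAT_val (SAT_ev _) k]
    exact SAT_pair V
  | imp φ ψ ih ih' =>
    show (Sat _ _ φ _ → Sat _ _ ψ _) ↔ _
    rw [ih v, ih' v]
    exact Ultrafilter.eventually_imp.symm
  | @all Γ s φ ih =>
    show (∀ x : (SAT_U V).car s, Sat _ _ φ (x, SAT_map (SAT_cl V) v)) ↔ _
    constructor
    · intro h
      by_contra hn
      rw [← Ultrafilter.eventually_not] at hn
      let C' : Srt → Type := fun t => C t ⊕ Var Γ t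
      have hC' : ∀ t, #(C' t) ≤ #K := fun t => by
        show #(C t ⊕ Var Γ t) ≤ #K
        rw [Cardinal.mk_sum, Cardinal.lift_id, Cardinal.lift_id]
        exact Cardinal.add_le_of_le hK (hC t) ((SAT_mkVar Γ t).trans hK)
      let k' : ∀ t, C' t → SAT_Nm K t := fun t => Sum.elim (k t) (fun y => v.get y)
      let θ : ∀ t, Var (s :: Γ) t → Tm C' [s] t := fun t y => match y with
        | .z => .var .z
        | .s y => .cst (Sum.inr y)
      let φ' : Fml C' [s] := φ.sub (fun t c => .cst (Sum.inl c)) θ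
      have hφ' : ∀ (e : SAT_Om K M) (w : Tup M.car [s]),
          Sat M (fun t c => SAT_ev e t (k' t c)) φ' w ↔
            Sat M (fun t c => SAT_ev e t (k t c)) φ (w.1, SAT_map (SAT_ev e) v) := by
        intro e w
        refine Sat_sub M _ _ φ _ _ _ w (fun _ _ => rfl) ?_
        intro t y
        cases y with
        | z => rfl
        | s y => exact (SAT_get_map (SAT_ev e) v y).symm
      obtain ⟨n, hn'⟩ := SAT_real V hV hC' k' {Fml.imp φ' .bot} (fun G hG _ => by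
        refine hn.mono fun e he => ?_
        have he' : ¬ ∀ x : M.car s, Sat M (fun t c => SAT_ev e t (k t c)) φ
          (x, SAT_map (SAT_ev e) v) := he
        rw [not_forall] at he'
        obtain ⟨x, hx⟩ := he'
        refine ⟨(x, ()), fun ψ hψ => ?_⟩
        rw [Set.mem_singleton_iff.1 (hG hψ)]
        exact fun h1 => hx ((hφ' e (x, ())).1 h1))
      have h1 := hn' _ (Set.mem_singleton _)
      have h2 := (ih ((⟨[s], n, .z⟩, v) : Tup (SAT_Nm K) (s :: Γ))).1 (h _)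
      obtain ⟨e, h3, h4⟩ := (h1.and h2).exists
      exact h3 ((hφ' e _).2 h4)
    · intro h x
      obtain ⟨n, rfl⟩ := SAT_cl_surj V s x
      exact (ih ((n, v) : Tup (SAT_Nm K) (s :: Γ))).2 (h.mono fun e he => he (SAT_ev e s n))

/-- the entries of a node as a tuple of names -/
def SAT_nt {Γ : List Srt} (n : SAT_Node K Γ) : Tup (SAT_Nm K) Γ := Tup.mk' (fun _ x => ⟨Γ, n, x⟩)

theorem SAT_nt_ev {Γ : List Srt} (n : SAT_Node K Γ) (e : SAT_Om K M) :
    SAT_map (SAT_ev e) (SAT_nt n) = e ⟨Γ, n⟩ := by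
  refine Tup.ext_get fun s x => ?_
  rw [SAT_get_map, SAT_nt, Tup.get_mk']
  rfl

/-- the model is saturated -/
theorem SAT_sat (hV : ∀ Γ J Δ x f F, SAT_HK V Γ J Δ x f F) (hK : ℵ₀ ≤ #K) (κ : Cardinal.{0})
    (hκ : κ ≤ #K) : Saturated κ (SAT_U V) := by
  intro A hA Γ 𝓕 h𝓕 hfin
  let C : Srt → Type := fun s => {x // x ∈ A s}
  have hC : ∀ s, #(C s) ≤ #K := fun s =>
    (Cardinal.mk_le_of_injective (f := fun c : C s => (⟨s, c⟩ : Σ s, {x // x ∈ A s}))
      (fun c c' h => by simpa using h)).trans ((le_of_lt hA).trans hκ)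
  choose k hk using fun (s : Srt) (c : C s) => SAT_cl_surj V s c.1
  have hk' : (fun s (c : C s) => SAT_cl V s (k s c)) = fun s (c : C s) => c.1 := by
    funext s c
    exact hk s c
  have htr := fun (φ : Fml C Γ) (v : Tup (SAT_Nm K) Γ) => SAT_truth V hV hK hC k φ v
  rw [hk'] at htr
  obtain ⟨n, hn⟩ := SAT_real V hV hC k
    {φ : Fml C Γ | {v | Sat (SAT_U V) (fun _ c => c.1) φ v} ∈ 𝓕} (fun G hG hGf => by
      obtain ⟨w, hw⟩ := hfin ((fun φ : Fml C Γ => {v | Sat (SAT_U V) (fun _ c => c.1) φ v}) '' G)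
        (by rintro _ ⟨φ, hφ, rfl⟩; exact hG hφ) (hGf.image _)
      obtain ⟨v, rfl⟩ := SAT_map_surj (SAT_cl V) (SAT_cl_surj V) w
      have h1 : ∀ᶠ e in (V : Filter (SAT_Om K M)), ∀ φ ∈ G,
          Sat M (fun s c => SAT_ev e s (k s c)) φ (SAT_map (SAT_ev e) v) := by
        rw [Filter.eventually_all_finite hGf]
        intro φ hφ
        exact (htr φ v).1 (hw _ ⟨φ, hφ, rfl⟩)
      exact h1.mono fun e he => ⟨_, he⟩)
  refine ⟨SAT_map (SAT_cl V) (SAT_nt n), ?_⟩
  intro D hD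
  obtain ⟨φ, rfl⟩ := h𝓕 D hD
  refine (htr φ (SAT_nt n)).2 ((hn φ hD).mono fun e he => ?_)
  rw [SAT_nt_ev]
  exact he

end

end

/-- every structure with nonempty sorts has saturated elementarily equivalent structures -/
theorem SAT_main (M : Str) (hM : ∀ s, Nonempty (M.car s)) (κ : Cardinal.{0}) :
    ∃ U : Str, (∀ σ : Snt, U.Models σ ↔ M.Models σ) ∧ Saturated κ U := by
  let K : Type := (max κ ℵ₀).out
  have hK' : #K = max κ ℵ₀ := Cardinal.mk_out _
  have hK : ℵ₀ ≤ #K := by rw [hK']; exact le_max_right _ _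
  have hκ : κ ≤ #K := by rw [hK']; exact le_max_left _ _
  have hΩ : Nonempty (SAT_Om K M) := ⟨fun p => Tup.mk' (fun s _ => (hM s).some)⟩
  obtain ⟨V, hV⟩ := SAT_zorn (K := K) (M := M)
  refine ⟨SAT_U V, fun σ => ?_, SAT_sat V hV hK κ hκ⟩
  have h1 : ∀ s, #(NoC s) ≤ #K := fun s => by
    show #Empty ≤ #K
    rw [Cardinal.mk_eq_zero]
    exact zero_le
  have h2 := SAT_truth V hV hK h1 (fun _ c => c.elim) σ ()
  have e1 : (fun s (c : NoC s) => SAT_cl V s (c.elim)) = fun _ c => c.elim := by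
    funext s c; exact c.elim
  have e2 : ∀ e : SAT_Om K M, (fun s (c : NoC s) => SAT_ev e s (c.elim)) = fun _ c => c.elim :=
    fun e => by funext s c; exact c.elim
  rw [e1] at h2
  simp only [e2] at h2
  refine Iff.trans h2 ⟨fun h => ?_, fun h => Eventually.of_forall fun _ => h⟩
  obtain ⟨e, he⟩ := h.exists
  exact he

theorem SAT_ne (U : Str) (hU : IsModel U) (s : Srt) : Nonempty (U.car s) := by
  have h : (Fml.imp (.all s .bot) .bot : Snt) ∈ T := by
    refine Eventually.of_forall fun m => ?_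
    intro h
    exact h (MS1_ne m s).some
  have h1 := hU _ h
  by_contra hn
  exact h1 (fun x => (hn ⟨x⟩).elim)

/-- saturated models of `T` exist -/
theorem SAT_exists (κ : Cardinal.{0}) : ∃ U : Str, IsModel U ∧ Saturated κ U := by
  obtain ⟨M, hM, -⟩ := MS_model
  obtain ⟨U, h1, h2⟩ := SAT_main M (SAT_ne M hM) κ
  exact ⟨U, fun σ hσ => (h1 σ).2 (hM σ hσ), h2⟩

end Pool.Agent.Lib_helper58.ID
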