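import Pool.Agent.Lib_helper58.ID.Base

/-!
# MP_bc6371_lc, block SY: syntax
-/

namespace Pool.Agent.Lib_helper58.ID

open Cardinal

section SY
variable {C C' : Srt → Type} {Γ Δ : List Srt} {s : Srt}

/-! ### tuples -/

theorem Tup.ext_get {M : Srt → Type} : ∀ {Γ : List Srt} {v w : Tup M Γ},
    (∀ (s : Srt) (x : Var Γ s), v.get x = w.get x) → v = w
  | [], _, _, _ => rfl
  | _ :: _, v, w, h => by
      have h1 : v.1 = w.1 := h _ .z
      have h2 : v.2 = w.2 := Tup.ext_get (fun s x => h s (.s x))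
      exact Prod.ext h1 h2

theorem Tup.fst_app {M : Srt → Type} : ∀ {Γ Δ : List Srt} (v : Tup M Γ) (w : Tup M Δ),
    (v.app w).fst = v
  | [], _, _, _ => rfl
  | _ :: Γ, Δ, v, w => Prod.ext rfl (Tup.fst_app (Γ := Γ) (Δ := Δ) v.2 w)

theorem Tup.snd_app {M : Srt → Type} : ∀ {Γ Δ : List Srt} (v : Tup M Γ) (w : Tup M Δ),
    (v.app w).snd = w
  | [], _, _, _ => rfl
  | _ :: Γ, Δ, v, w => Tup.snd_app (Γ := Γ) (Δ := Δ) v.2 w

theorem Tup.app_fst_snd {M : Srt → Type} : ∀ {Γ Δ : List Srt} (z : Tup M (Γ ++ Δ)),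
    Tup.app (Γ := Γ) (Δ := Δ) z.fst z.snd = z
  | [], _, _ => rfl
  | _ :: Γ, Δ, z => Prod.ext rfl (Tup.app_fst_snd (Γ := Γ) (Δ := Δ) z.2)

/-- variables of the first part -/
def Var.inl : ∀ {Γ Δ : List Srt} {s : Srt}, Var Γ s → Var (Γ ++ Δ) s
  | _ :: _, _, _, .z => .z
  | _ :: _, _, _, .s x => .s x.inl

/-- variables of the second part -/
def Var.inr : ∀ {Γ Δ : List Srt} {s : Srt}, Var Δ s → Var (Γ ++ Δ) s
  | [], _, _, x => x
  | _ :: Γ, _, _, x => .s (Var.inr (Γ := Γ) x)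

theorem Tup.get_inl {M : Srt → Type} : ∀ {Γ Δ : List Srt} {s : Srt} (v : Tup M Γ) (w : Tup M Δ)
    (x : Var Γ s), (v.app w).get x.inl = v.get x
  | _ :: _, _, _, _, _, .z => rfl
  | _ :: Γ, Δ, _, v, w, .s x => Tup.get_inl (Γ := Γ) (Δ := Δ) v.2 w x

theorem Tup.get_inr {M : Srt → Type} : ∀ {Γ Δ : List Srt} {s : Srt} (v : Tup M Γ) (w : Tup M Δ)
    (x : Var Δ s), (v.app w).get (Var.inr (Γ := Γ) x) = w.get x
  | [], _, _, _, _, _ => rfl
  | _ :: Γ, Δ, _, v, w, x => Tup.get_inr (Γ := Γ) (Δ := Δ) v.2 w x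

theorem Tup.get_fst {M : Srt → Type} {s : Srt} (z : Tup M (Γ ++ Δ))
    (x : Var Γ s) : z.fst.get x = z.get x.inl := by
  conv_rhs => rw [← Tup.app_fst_snd z]
  rw [Tup.get_inl]

theorem Tup.get_snd {M : Srt → Type} {s : Srt} (z : Tup M (Γ ++ Δ))
    (x : Var Δ s) : z.snd.get x = z.get (Var.inr (Γ := Γ) x) := by
  conv_rhs => rw [← Tup.app_fst_snd z]
  rw [Tup.get_inr]

/-- a variable of a concatenation is in the first or in the second part -/
theorem Var.app_cases {s : Srt} : ∀ {Γ Δ : List Srt} (x : Var (Γ ++ Δ) s),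
    (∃ y : Var Γ s, x = y.inl) ∨ (∃ y : Var Δ s, x = Var.inr (Γ := Γ) y)
  | [], _, x => Or.inr ⟨x, rfl⟩
  | _ :: Γ, Δ, x => by
      cases x with
      | z => exact Or.inl ⟨.z, rfl⟩
      | s x =>
        rcases Var.app_cases (Γ := Γ) (Δ := Δ) x with ⟨y, hy⟩ | ⟨y, hy⟩
        · exact Or.inl ⟨.s y, by rw [hy]; rfl⟩
        · exact Or.inr ⟨y, by rw [hy]; rfl⟩

theorem Tup.in_app {U : Str} {A : Par U} {v : Tup U.car Γ} {w : Tup U.car Δ} (hv : v.In A)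
    (hw : w.In A) : (v.app w).In A := by
  intro s x
  rcases Var.app_cases x with ⟨y, rfl⟩ | ⟨y, rfl⟩
  · rw [Tup.get_inl]; exact hv s y
  · rw [Tup.get_inr]; exact hw s y

/-- a tuple from its entries -/
def Tup.mk' {M : Srt → Type} : ∀ {Γ : List Srt}, (∀ s, Var Γ s → M s) → Tup M Γ
  | [], _ => ()
  | _ :: Γ, f => (f _ .z, Tup.mk' (Γ := Γ) (fun s x => f s (.s x)))

theorem Tup.get_mk' {M : Srt → Type} : ∀ {Γ : List Srt} {s : Srt} (f : ∀ s, Var Γ s → M s)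
    (x : Var Γ s), (Tup.mk' f).get x = f s x
  | _ :: _, _, _, .z => rfl
  | _ :: _, _, f, .s x => Tup.get_mk' (fun s x => f s (.s x)) x

/-! ### substitution -/

/-- weakening of a term -/
def Tm.wk {t : Srt} : Tm C Γ s → Tm C (t :: Γ) s
  | .cst c => .cst c
  | .var x => .var (.s x)

theorem Tm.val_wk {M : Srt → Type} {t : Srt} (e : ∀ s, C s → M s) (v : Tup M Γ) (x : M t)
    (τ : Tm C Γ s) : τ.wk.val e ((x, v) : Tup M (t :: Γ)) = τ.val e v := by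
  cases τ <;> rfl

/-- lifting of a substitution of the variables under a quantifier -/
def liftV {t : Srt} (θ : ∀ s, Var Γ s → Tm C' Δ s) : ∀ s, Var (t :: Γ) s → Tm C' (t :: Δ) s
  | _, .z => .var .z
  | _, .s x => (θ _ x).wk

/-- substitution in a term -/
def Tm.sub (k : ∀ s, C s → Tm C' Δ s) (θ : ∀ s, Var Γ s → Tm C' Δ s) : Tm C Γ s → Tm C' Δ s
  | .cst c => k _ c
  | .var x => θ _ x

/-- substitution in a formula -/
def Fml.sub : ∀ {Γ Δ : List Srt}, (∀ s, C s → Tm C' Δ s) → (∀ s, Var Γ s → Tm C' Δ s) →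
    Fml C Γ → Fml C' Δ
  | _, _, _, _, .bot => .bot
  | _, _, k, θ, .eq t t' => .eq (t.sub k θ) (t'.sub k θ)
  | _, _, k, θ, .mem t t' => .mem (t.sub k θ) (t'.sub k θ)
  | _, _, k, θ, .pair t t' t'' => .pair (t.sub k θ) (t'.sub k θ) (t''.sub k θ)
  | _, _, k, θ, .imp φ ψ => .imp (φ.sub k θ) (ψ.sub k θ)
  | _, _, k, θ, .all s φ => .all s (φ.sub (fun s c => (k s c).wk) (liftV θ))

theorem Tm.val_sub {M : Srt → Type} {e : ∀ s, C s → M s} {e' : ∀ s, C' s → M s}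
    {v : Tup M Γ} {w : Tup M Δ} (k : ∀ s, C s → Tm C' Δ s) (θ : ∀ s, Var Γ s → Tm C' Δ s)
    (hk : ∀ s c, (k s c).val e' w = e s c) (hθ : ∀ s x, (θ s x).val e' w = v.get x)
    (τ : Tm C Γ s) : (τ.sub k θ).val e' w = τ.val e v := by
  cases τ with
  | cst c => exact hk s c
  | var x => exact hθ s x

theorem Sat_sub (M : Str) (e : ∀ s, C s → M.car s) (e' : ∀ s, C' s → M.car s) :
    ∀ {Γ Δ : List Srt} (φ : Fml C Γ) (k : ∀ s, C s → Tm C' Δ s) (θ : ∀ s, Var Γ s → Tm C' Δ s)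
      (v : Tup M.car Γ) (w : Tup M.car Δ),
      (∀ s c, (k s c).val e' w = e s c) → (∀ s x, (θ s x).val e' w = v.get x) →
      (Sat M e' (φ.sub k θ) w ↔ Sat M e φ v)
  | _, _, .bot, _, _, _, _, _, _ => Iff.rfl
  | _, _, .eq t t', k, θ, v, w, hk, hθ => by
      simp only [Fml.sub, Sat, Tm.val_sub k θ hk hθ]
  | _, _, .mem t t', k, θ, v, w, hk, hθ => by
      simp only [Fml.sub, Sat, Tm.val_sub k θ hk hθ]
  | _, _, .pair t t' t'', k, θ, v, w, hk, hθ => by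
      simp only [Fml.sub, Sat, Tm.val_sub k θ hk hθ]
  | _, _, .imp φ ψ, k, θ, v, w, hk, hθ => by
      simp only [Fml.sub, Sat, Sat_sub M e e' φ k θ v w hk hθ, Sat_sub M e e' ψ k θ v w hk hθ]
  | _, _, .all s φ, k, θ, v, w, hk, hθ => by
      simp only [Fml.sub, Sat]
      refine forall_congr' fun x => ?_
      refine Sat_sub M e e' (Γ := s :: _) (Δ := s :: _) φ _ _ (x, v) (x, w) ?_ ?_
      · intro t c
        rw [Tm.val_wk]; exact hk t c
      · intro t y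
        cases y with
        | z => rfl
        | s y =>
          show Tm.val e' _ (Tm.wk (θ t y)) = _
          rw [Tm.val_wk]; exact hθ t y

/-! ### uniform definability -/

theorem Dfn.sat (φ : Fml C Γ) : Dfn C Γ (fun M e v => Sat M e φ v) := ⟨φ, fun _ _ _ => Iff.rfl⟩

theorem Dfn.congr {P Q : ∀ M : Str, (∀ s, C s → M.car s) → Tup M.car Γ → Prop}
    (hP : Dfn C Γ P) (h : ∀ M e v, Q M e v ↔ P M e v) : Dfn C Γ Q := by
  obtain ⟨φ, hφ⟩ := hP
  exact ⟨φ, fun M e v => (h M e v).trans (hφ M e v)⟩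

theorem Dfn.false : Dfn C Γ (fun _ _ _ => False) := ⟨.bot, fun _ _ _ => Iff.rfl⟩

theorem Dfn.imp {P Q : ∀ M : Str, (∀ s, C s → M.car s) → Tup M.car Γ → Prop}
    (hP : Dfn C Γ P) (hQ : Dfn C Γ Q) : Dfn C Γ (fun M e v => P M e v → Q M e v) := by
  obtain ⟨φ, hφ⟩ := hP
  obtain ⟨ψ, hψ⟩ := hQ
  refine ⟨.imp φ ψ, fun M e v => ?_⟩
  simp only [Sat, hφ M e v, hψ M e v]

theorem Dfn.true : Dfn C Γ (fun _ _ _ => True) :=
  (Dfn.imp Dfn.false Dfn.false).congr (fun _ _ _ => by simp)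

theorem Dfn.not {P : ∀ M : Str, (∀ s, C s → M.car s) → Tup M.car Γ → Prop}
    (hP : Dfn C Γ P) : Dfn C Γ (fun M e v => ¬ P M e v) := hP.imp Dfn.false

theorem Dfn.and {P Q : ∀ M : Str, (∀ s, C s → M.car s) → Tup M.car Γ → Prop}
    (hP : Dfn C Γ P) (hQ : Dfn C Γ Q) : Dfn C Γ (fun M e v => P M e v ∧ Q M e v) :=
  (Dfn.not (Dfn.imp hP (Dfn.not hQ))).congr (fun _ _ _ => by tauto)

theorem Dfn.or {P Q : ∀ M : Str, (∀ s, C s → M.car s) → Tup M.car Γ → Prop}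
    (hP : Dfn C Γ P) (hQ : Dfn C Γ Q) : Dfn C Γ (fun M e v => P M e v ∨ Q M e v) :=
  (Dfn.imp (Dfn.not hP) hQ).congr (fun _ _ _ => by tauto)

theorem Dfn.iff {P Q : ∀ M : Str, (∀ s, C s → M.car s) → Tup M.car Γ → Prop}
    (hP : Dfn C Γ P) (hQ : Dfn C Γ Q) : Dfn C Γ (fun M e v => (P M e v ↔ Q M e v)) :=
  (Dfn.and (Dfn.imp hP hQ) (Dfn.imp hQ hP)).congr (fun _ _ _ => by tauto)

theorem Dfn.all {P : ∀ M : Str, (∀ s, C s → M.car s) → Tup M.car Γ → M.car s → Prop}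
    (hP : Dfn C (s :: Γ) (fun M e v => P M e v.2 v.1)) :
    Dfn C Γ (fun M e v => ∀ x, P M e v x) := by
  obtain ⟨φ, hφ⟩ := hP
  refine ⟨.all s φ, fun M e v => ?_⟩
  simp only [Sat]
  exact forall_congr' fun x => hφ M e (x, v)

theorem Dfn.ex {P : ∀ M : Str, (∀ s, C s → M.car s) → Tup M.car Γ → M.car s → Prop}
    (hP : Dfn C (s :: Γ) (fun M e v => P M e v.2 v.1)) :
    Dfn C Γ (fun M e v => ∃ x, P M e v x) :=
  (Dfn.not (Dfn.all (P := fun M e v x => ¬ P M e v x) (Dfn.not hP))).congr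
    (fun _ _ _ => by simp)

theorem Dfn.allFin : ∀ {n : ℕ} {P : Fin n → ∀ M : Str, (∀ s, C s → M.car s) →
    Tup M.car Γ → Prop}, (∀ i, Dfn C Γ (P i)) → Dfn C Γ (fun M e v => ∀ i, P i M e v)
  | 0, _, _ => Dfn.true.congr (fun _ _ _ => by simp)
  | _ + 1, _, hP => (Dfn.and (hP 0) (Dfn.allFin (fun i => hP i.succ))).congr
      (fun _ _ _ => by rw [Fin.forall_fin_succ])

theorem IsT.cst (c : C s) : IsT C Γ s (fun _ e _ => e s c) := ⟨.cst c, fun _ _ _ => rfl⟩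

theorem IsT.get (x : Var Γ s) : IsT C Γ s (fun _ _ v => v.get x) :=
  ⟨.var x, fun _ _ _ => rfl⟩

theorem IsT.zero : IsT C (s :: Γ) s (fun _ _ v => v.1) := ⟨.var .z, fun _ _ _ => rfl⟩

theorem IsT.succ {t : ∀ M : Str, (∀ s, C s → M.car s) → Tup M.car Γ → M.car s} {u : Srt}
    (h : IsT C Γ s t) : IsT C (u :: Γ) s (fun M e v => t M e v.2) := by
  obtain ⟨τ, hτ⟩ := h
  refine ⟨τ.wk, fun M e v => ?_⟩
  show t M e v.2 = _
  rw [hτ]
  exact (Tm.val_wk e v.2 v.1 τ).symm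

theorem Dfn.eq {t t' : ∀ M : Str, (∀ s, C s → M.car s) → Tup M.car Γ → M.car s}
    (h : IsT C Γ s t) (h' : IsT C Γ s t') : Dfn C Γ (fun M e v => t M e v = t' M e v) := by
  obtain ⟨τ, hτ⟩ := h
  obtain ⟨τ', hτ'⟩ := h'
  exact ⟨.eq τ τ', fun M e v => by simp only [Sat, hτ, hτ']⟩

theorem Dfn.mem {a : Srt} {t : ∀ M : Str, (∀ s, C s → M.car s) → Tup M.car Γ → M.car a}
    {t' : ∀ M : Str, (∀ s, C s → M.car s) → Tup M.car Γ → M.car (.pow a)}
    (h : IsT C Γ a t) (h' : IsT C Γ (.pow a) t') :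
    Dfn C Γ (fun M e v => M.mem a (t M e v) (t' M e v)) := by
  obtain ⟨τ, hτ⟩ := h
  obtain ⟨τ', hτ'⟩ := h'
  exact ⟨.mem τ τ', fun M e v => by simp only [Sat, hτ, hτ']⟩

theorem Dfn.pair {a b : Srt} {t : ∀ M : Str, (∀ s, C s → M.car s) → Tup M.car Γ → M.car a}
    {t' : ∀ M : Str, (∀ s, C s → M.car s) → Tup M.car Γ → M.car b}
    {t'' : ∀ M : Str, (∀ s, C s → M.car s) → Tup M.car Γ → M.car (.prod a b)}
    (h : IsT C Γ a t) (h' : IsT C Γ b t') (h'' : IsT C Γ (.prod a b) t'') :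
    Dfn C Γ (fun M e v => M.pair a b (t M e v) (t' M e v) (t'' M e v)) := by
  obtain ⟨τ, hτ⟩ := h
  obtain ⟨τ', hτ'⟩ := h'
  obtain ⟨τ'', hτ''⟩ := h''
  exact ⟨.pair τ τ' τ'', fun M e v => by simp only [Sat, hτ, hτ', hτ'']⟩

/-- substitution of terms for the constants and the variables -/
theorem Dfn.subst {P : ∀ M : Str, (∀ s, C s → M.car s) → Tup M.car Γ → Prop}
    (hP : Dfn C Γ P)
    {k : ∀ M : Str, (∀ s, C' s → M.car s) → Tup M.car Δ → ∀ s, C s → M.car s}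
    (hk : ∀ (s : Srt) (c : C s), IsT C' Δ s (fun M e v => k M e v s c))
    {t : ∀ M : Str, (∀ s, C' s → M.car s) → Tup M.car Δ → Tup M.car Γ} (ht : IsTs C' Δ Γ t) :
    Dfn C' Δ (fun M e v => P M (k M e v) (t M e v)) := by
  obtain ⟨φ, hφ⟩ := hP
  choose κ hκ using hk
  choose θ hθ using ht
  refine ⟨φ.sub κ θ, fun M e v => ?_⟩
  show P M (k M e v) (t M e v) ↔ _
  rw [hφ]
  exact (Sat_sub M (k M e v) e φ κ θ (t M e v) v (fun s c => (hκ s c M e v).symm)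
    (fun s x => (hθ s x M e v).symm)).symm

/-- the same with fixed constants -/
theorem Dfn.substV {P : ∀ M : Str, (∀ s, C s → M.car s) → Tup M.car Γ → Prop}
    (hP : Dfn C Γ P)
    {t : ∀ M : Str, (∀ s, C s → M.car s) → Tup M.car Δ → Tup M.car Γ} (ht : IsTs C Δ Γ t) :
    Dfn C Δ (fun M e v => P M e (t M e v)) :=
  Dfn.subst hP (k := fun _ e _ => e) (fun _ c => IsT.cst c) ht

theorem IsTs.nil : IsTs C Γ [] (fun _ _ _ => ()) := fun _ x => nomatch x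

theorem IsTs.cons {t : ∀ M : Str, (∀ s, C s → M.car s) → Tup M.car Γ → M.car s}
    {t' : ∀ M : Str, (∀ s, C s → M.car s) → Tup M.car Γ → Tup M.car Δ}
    (h : IsT C Γ s t) (h' : IsTs C Γ Δ t') :
    IsTs C Γ (s :: Δ) (fun M e v => ((t M e v, t' M e v) : Tup M.car (s :: Δ))) := by
  intro u x
  cases x with
  | z => exact h
  | s x => exact h' u x

theorem IsTs.id : IsTs C Γ Γ (fun _ _ v => v) := fun _ x => IsT.get x

theorem IsTs.succ {t : ∀ M : Str, (∀ s, C s → M.car s) → Tup M.car Γ → Tup M.car Δ} {u : Srt}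
    (h : IsTs C Γ Δ t) : IsTs C (u :: Γ) Δ (fun M e v => t M e v.2) :=
  fun s x => (h s x).succ

theorem IsTs.app {Δ' : List Srt} {t : ∀ M : Str, (∀ s, C s → M.car s) → Tup M.car Γ → Tup M.car Δ}
    {t' : ∀ M : Str, (∀ s, C s → M.car s) → Tup M.car Γ → Tup M.car Δ'}
    (h : IsTs C Γ Δ t) (h' : IsTs C Γ Δ' t') :
    IsTs C Γ (Δ ++ Δ') (fun M e v => (t M e v).app (t' M e v)) := by
  intro s x
  rcases Var.app_cases x with ⟨y, rfl⟩ | ⟨y, rfl⟩
  · obtain ⟨τ, hτ⟩ := h s y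
    exact ⟨τ, fun M e v => (Tup.get_inl _ _ _).trans (hτ M e v)⟩
  · obtain ⟨τ, hτ⟩ := h' s y
    exact ⟨τ, fun M e v => (Tup.get_inr _ _ _).trans (hτ M e v)⟩

theorem IsTs.fst {Δ' : List Srt}
    {t : ∀ M : Str, (∀ s, C s → M.car s) → Tup M.car Γ → Tup M.car (Δ ++ Δ')}
    (h : IsTs C Γ (Δ ++ Δ') t) : IsTs C Γ Δ (fun M e v => (t M e v).fst) := by
  intro s x
  obtain ⟨τ, hτ⟩ := h s x.inl
  exact ⟨τ, fun M e v => (Tup.get_fst _ _).trans (hτ M e v)⟩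

theorem IsTs.snd {Δ' : List Srt}
    {t : ∀ M : Str, (∀ s, C s → M.car s) → Tup M.car Γ → Tup M.car (Δ ++ Δ')}
    (h : IsTs C Γ (Δ ++ Δ') t) : IsTs C Γ Δ' (fun M e v => (t M e v).snd) := by
  intro s x
  obtain ⟨τ, hτ⟩ := h s (Var.inr x)
  exact ⟨τ, fun M e v => (Tup.get_snd _ _).trans (hτ M e v)⟩

/-- quantification over a tuple -/
theorem Dfn.allT : ∀ {Δ Γ : List Srt}
    {P : ∀ M : Str, (∀ s, C s → M.car s) → Tup M.car Γ → Tup M.car Δ → Prop},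
    Dfn C (Δ ++ Γ) (fun M e v => P M e v.snd v.fst) →
    Dfn C Γ (fun M e v => ∀ x : Tup M.car Δ, P M e v x)
  | [], Γ, P, hP => by
      refine Dfn.congr (P := fun M e v => P M e v ()) hP ?_
      intro M e v
      exact ⟨fun h => h (), fun h x => h⟩
  | s :: Δ, Γ, P, hP => by
      have h1 : Dfn C (Δ ++ Γ) (fun M e v => ∀ a : M.car s, P M e v.snd (a, v.fst)) :=
        Dfn.all (P := fun M e v a => P M e v.snd (a, v.fst)) hP
      have h2 := Dfn.allT (Δ := Δ) (Γ := Γ) (P := fun M e v x => ∀ a : M.car s, P M e v (a, x)) h1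
      refine h2.congr ?_
      intro M e v
      exact ⟨fun h x a => h (a, x), fun h x => h x.2 x.1⟩

theorem Dfn.exT {P : ∀ M : Str, (∀ s, C s → M.car s) → Tup M.car Γ → Tup M.car Δ → Prop}
    (hP : Dfn C (Δ ++ Γ) (fun M e v => P M e v.snd v.fst)) :
    Dfn C Γ (fun M e v => ∃ x : Tup M.car Δ, P M e v x) :=
  (Dfn.not (Dfn.allT (P := fun M e v x => ¬ P M e v x) (Dfn.not hP))).congr
    (fun _ _ _ => by simp)

theorem Dfn.rel {a b : Srt}
    {f : ∀ M : Str, (∀ s, C s → M.car s) → Tup M.car Γ → M.car (.pow (.prod a b))}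
    {t : ∀ M : Str, (∀ s, C s → M.car s) → Tup M.car Γ → M.car a}
    {t' : ∀ M : Str, (∀ s, C s → M.car s) → Tup M.car Γ → M.car b}
    (hf : IsT C Γ _ f) (h : IsT C Γ a t) (h' : IsT C Γ b t') :
    Dfn C Γ (fun M e v => M.rel (f M e v) (t M e v) (t' M e v)) := by
  unfold Str.rel
  refine Dfn.ex ?_
  exact Dfn.and (Dfn.pair h.succ h'.succ IsT.zero) (Dfn.mem IsT.zero hf.succ)

theorem Dfn.le {a b : Srt} {t : ∀ M : Str, (∀ s, C s → M.car s) → Tup M.car Γ → M.car (.pow a)}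
    {t' : ∀ M : Str, (∀ s, C s → M.car s) → Tup M.car Γ → M.car (.pow b)}
    (h : IsT C Γ _ t) (h' : IsT C Γ _ t') :
    Dfn C Γ (fun M e v => M.le (t M e v) (t' M e v)) := by
  unfold Str.le
  refine Dfn.ex (Dfn.and ?_ ?_)
  · refine Dfn.all (Dfn.imp (Dfn.mem IsT.zero h.succ.succ) ?_)
    refine Dfn.ex ?_
    exact Dfn.and (Dfn.mem IsT.zero h'.succ.succ.succ)
      (Dfn.rel IsT.zero.succ.succ IsT.zero.succ IsT.zero)
  · refine Dfn.all (Dfn.all (Dfn.all ?_))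
    exact Dfn.imp (Dfn.rel IsT.zero.succ.succ.succ IsT.zero.succ.succ IsT.zero)
      (Dfn.imp (Dfn.rel IsT.zero.succ.succ.succ IsT.zero.succ IsT.zero)
        (Dfn.eq IsT.zero.succ.succ IsT.zero.succ))

theorem Dfn.big {a : Srt} {t : ∀ M : Str, (∀ s, C s → M.car s) → Tup M.car Γ → M.car (.pow a)}
    (n : ℕ) (h : IsT C Γ _ t) : Dfn C Γ (fun M e v => M.Big n (t M e v)) := by
  induction n generalizing Γ with
  | zero => exact Dfn.true.congr (fun _ _ _ => Iff.rfl)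
  | succ n ih =>
    show Dfn C Γ (fun M e v => ∃ x, M.mem a x (t M e v) ∧ ∃ Y : M.car (.pow a),
      (∀ y, M.mem a y Y ↔ M.mem a y (t M e v) ∧ ¬ y = x) ∧ M.Big n Y)
    refine Dfn.ex (Dfn.and (Dfn.mem IsT.zero h.succ) ?_)
    refine Dfn.ex (Dfn.and ?_ (ih IsT.zero))
    refine Dfn.all ?_
    exact Dfn.iff (Dfn.mem IsT.zero IsT.zero.succ)
      (Dfn.and (Dfn.mem IsT.zero h.succ.succ.succ) (Dfn.not (Dfn.eq IsT.zero IsT.zero.succ.succ)))

theorem Dfn.isCode : ∀ {Δ Γ : List Srt}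
    {t : ∀ M : Str, (∀ s, C s → M.car s) → Tup M.car Γ → Tup M.car Δ}
    {t' : ∀ M : Str, (∀ s, C s → M.car s) → Tup M.car Γ → M.car (cd Δ)},
    IsTs C Γ Δ t → IsT C Γ _ t' →
    Dfn C Γ (fun M e v => M.IsCode (t M e v) (t' M e v))
  | [], Γ, t, t', h, h' => by
      show Dfn C Γ (fun M e v => ∀ x : M.car .base, ¬ M.mem .base x (t' M e v))
      exact Dfn.all (Dfn.not (Dfn.mem IsT.zero h'.succ))
  | s :: Δ, Γ, t, t', h, h' => by
      show Dfn C Γ (fun M e v => ∃ d : M.car (cd Δ), M.IsCode (Γ := Δ) (t M e v).2 d ∧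
        M.pair s (cd Δ) (t M e v).1 d (t' M e v))
      refine Dfn.ex (Dfn.and ?_ ?_)
      · exact Dfn.isCode (Δ := Δ) (Γ := cd Δ :: Γ) (t := fun M e v => (t M e v.2).2)
          (t' := fun M e v => v.1) (fun u x => (h u (.s x)).succ) IsT.zero
      · exact Dfn.pair (Γ := cd Δ :: Γ) (t := fun M e v => (t M e v.2).1) (h s .z).succ
          IsT.zero h'.succ

/-! ### finite support and transfer -/

/-- every formula with constants comes from a formula without, by moving finitely many constants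
into extra variables -/
theorem fin_supp : ∀ {Γ : List Srt} (φ : Fml C Γ), ∃ (Δ : List Srt) (c : Tup C Δ)
    (ψ : Fml NoC (Γ ++ Δ)), ∀ (M : Str) (e : ∀ s, C s → M.car s) (v : Tup M.car Γ)
      (w : Tup M.car Δ), (∀ s (x : Var Δ s), w.get x = e s (c.get x)) →
      (Sat M e φ v ↔ Sat M (fun _ c => c.elim) ψ (v.app w)) := by
  have tm : ∀ {Γ : List Srt} {s : Srt} (τ : Tm C Γ s), ∃ (Δ : List Srt) (c : Tup C Δ)
      (τ' : Tm NoC (Γ ++ Δ) s), ∀ (M : Str) (e : ∀ s, C s → M.car s) (v : Tup M.car Γ)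
      (w : Tup M.car Δ), (∀ s (x : Var Δ s), w.get x = e s (c.get x)) →
      τ.val e v = τ'.val (fun _ c => c.elim) (v.app w) := by
    intro Γ s τ
    cases τ with
    | cst c =>
      refine ⟨[s], (c, ()), .var (Var.inr .z), fun M e v w hw => ?_⟩
      have := hw s .z
      show e s c = (v.app w).get _
      rw [Tup.get_inr, this]
      rfl
    | var x =>
      refine ⟨[], (), .var x.inl, fun M e v w hw => ?_⟩
      show v.get x = (v.app w).get _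
      rw [Tup.get_inl]
  -- renaming along `Γ ++ Δ → Γ ++ (Δ ++ Δ')` and `Γ ++ Δ' → Γ ++ (Δ ++ Δ')`
  have spl : ∀ {Γ Δ Δ' : List Srt} (c : Tup C Δ) (c' : Tup C Δ') (M : Str)
      (e : ∀ s, C s → M.car s) (w : Tup M.car (Δ ++ Δ')),
      (∀ s (x : Var (Δ ++ Δ') s), w.get x = e s ((c.app c').get x)) →
      (∀ s (x : Var Δ s), w.fst.get x = e s (c.get x)) ∧
      (∀ s (x : Var Δ' s), w.snd.get x = e s (c'.get x)) := by
    intro Γ Δ Δ' c c' M e w h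
    refine ⟨fun s x => ?_, fun s x => ?_⟩
    · rw [Tup.get_fst, h, Tup.get_inl]
    · rw [Tup.get_snd, h, Tup.get_inr]
  have ren : ∀ {Γ Δ Δ' : List Srt} (P : ∀ M : Str, (∀ s, NoC s → M.car s) →
      Tup M.car (Γ ++ Δ) → Prop), Dfn NoC (Γ ++ Δ) P →
      Dfn NoC (Γ ++ (Δ ++ Δ')) (fun M e v => P M e (v.fst.app v.snd.fst)) := by
    intro Γ Δ Δ' P hP
    exact hP.substV (IsTs.app (IsTs.fst IsTs.id) (IsTs.fst (IsTs.snd IsTs.id)))
  have ren' : ∀ {Γ Δ Δ' : List Srt} (P : ∀ M : Str, (∀ s, NoC s → M.car s) →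
      Tup M.car (Γ ++ Δ') → Prop), Dfn NoC (Γ ++ Δ') P →
      Dfn NoC (Γ ++ (Δ ++ Δ')) (fun M e v => P M e (v.fst.app v.snd.snd)) := by
    intro Γ Δ Δ' P hP
    exact hP.substV (IsTs.app (IsTs.fst IsTs.id) (IsTs.snd (IsTs.snd IsTs.id)))
  intro Γ φ
  induction φ with
  | bot => exact ⟨[], (), .bot, fun M e v w _ => Iff.rfl⟩
  | @eq Γ s t t' =>
    obtain ⟨Δ, c, τ, h⟩ := tm t
    obtain ⟨Δ', c', τ', h'⟩ := tm t'
    have hd : Dfn NoC (Γ ++ (Δ ++ Δ')) (fun M e v =>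
        τ.val e (v.fst.app v.snd.fst) = τ'.val e (v.fst.app v.snd.snd)) := by
      have h1 := Dfn.eq (C := NoC) (Γ := (Γ ++ Δ) ++ (Γ ++ Δ'))
        (t := fun M e v => τ.val e v.fst) (t' := fun M e v => τ'.val e v.snd)
        (by
          cases τ with
          | cst c => exact c.elim
          | var x => exact IsTs.fst IsTs.id s x)
        (by
          cases τ' with
          | cst c => exact c.elim
          | var x => exact IsTs.snd IsTs.id s x)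
      have h2 := h1.substV (Δ := Γ ++ (Δ ++ Δ')) (IsTs.app
        (IsTs.app (IsTs.fst (Δ := Γ) (Δ' := Δ ++ Δ') IsTs.id) (IsTs.fst (IsTs.snd IsTs.id)))
        (IsTs.app (IsTs.fst (Δ := Γ) (Δ' := Δ ++ Δ') IsTs.id) (IsTs.snd (IsTs.snd IsTs.id))))
      refine h2.congr fun M e v => ?_
      rw [Tup.fst_app, Tup.snd_app]
    obtain ⟨ψ, hψ⟩ := hd
    refine ⟨Δ ++ Δ', c.app c', ψ, fun M e v w hw => ?_⟩
    obtain ⟨h1, h2⟩ := spl (Γ := Γ) c c' M e w hw
    refine Iff.trans ?_ (hψ _ _ _)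
    show _ = _ ↔ τ.val _ ((v.app w).fst.app (v.app w).snd.fst) =
      τ'.val _ ((v.app w).fst.app (v.app w).snd.snd)
    rw [Tup.fst_app, Tup.snd_app, h M e v _ h1, h' M e v _ h2]
  | @mem Γ a t t' =>
    obtain ⟨Δ, c, τ, h⟩ := tm t
    obtain ⟨Δ', c', τ', h'⟩ := tm t'
    have hd : Dfn NoC (Γ ++ (Δ ++ Δ')) (fun M e v =>
        M.mem a (τ.val e (v.fst.app v.snd.fst)) (τ'.val e (v.fst.app v.snd.snd))) := by
      have h1 := Dfn.mem (C := NoC) (Γ := (Γ ++ Δ) ++ (Γ ++ Δ'))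
        (t := fun M e v => τ.val e v.fst) (t' := fun M e v => τ'.val e v.snd)
        (by
          cases τ with
          | cst c => exact c.elim
          | var x => exact IsTs.fst IsTs.id _ x)
        (by
          cases τ' with
          | cst c => exact c.elim
          | var x => exact IsTs.snd IsTs.id _ x)
      have h2 := h1.substV (Δ := Γ ++ (Δ ++ Δ')) (IsTs.app
        (IsTs.app (IsTs.fst (Δ := Γ) (Δ' := Δ ++ Δ') IsTs.id) (IsTs.fst (IsTs.snd IsTs.id)))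
        (IsTs.app (IsTs.fst (Δ := Γ) (Δ' := Δ ++ Δ') IsTs.id) (IsTs.snd (IsTs.snd IsTs.id))))
      refine h2.congr fun M e v => ?_
      rw [Tup.fst_app, Tup.snd_app]
    obtain ⟨ψ, hψ⟩ := hd
    refine ⟨Δ ++ Δ', c.app c', ψ, fun M e v w hw => ?_⟩
    obtain ⟨h1, h2⟩ := spl (Γ := Γ) c c' M e w hw
    refine Iff.trans ?_ (hψ _ _ _)
    show M.mem a _ _ ↔ M.mem a (τ.val _ ((v.app w).fst.app (v.app w).snd.fst))
      (τ'.val _ ((v.app w).fst.app (v.app w).snd.snd))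
    rw [Tup.fst_app, Tup.snd_app, h M e v _ h1, h' M e v _ h2]
  | @pair Γ a b t t' t'' =>
    obtain ⟨Δ, c, τ, h⟩ := tm t
    obtain ⟨Δ', c', τ', h'⟩ := tm t'
    obtain ⟨Δ'', c'', τ'', h''⟩ := tm t''
    have hd : Dfn NoC (Γ ++ ((Δ ++ Δ') ++ Δ'')) (fun M e v =>
        M.pair a b (τ.val e (v.fst.app v.snd.fst.fst)) (τ'.val e (v.fst.app v.snd.fst.snd))
          (τ''.val e (v.fst.app v.snd.snd))) := by
      have h1 := Dfn.pair (C := NoC) (Γ := ((Γ ++ Δ) ++ (Γ ++ Δ')) ++ (Γ ++ Δ''))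
        (t := fun M e v => τ.val e v.fst.fst) (t' := fun M e v => τ'.val e v.fst.snd)
        (t'' := fun M e v => τ''.val e v.snd)
        (by
          cases τ with
          | cst c => exact c.elim
          | var x => exact IsTs.fst (IsTs.fst IsTs.id) _ x)
        (by
          cases τ' with
          | cst c => exact c.elim
          | var x => exact IsTs.snd (IsTs.fst IsTs.id) _ x)
        (by
          cases τ'' with
          | cst c => exact c.elim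
          | var x => exact IsTs.snd IsTs.id _ x)
      have h2 := h1.substV (Δ := Γ ++ ((Δ ++ Δ') ++ Δ'')) (IsTs.app (IsTs.app
        (IsTs.app (IsTs.fst (Δ := Γ) (Δ' := (Δ ++ Δ') ++ Δ'') IsTs.id)
          (IsTs.fst (IsTs.fst (IsTs.snd IsTs.id))))
        (IsTs.app (IsTs.fst (Δ := Γ) (Δ' := (Δ ++ Δ') ++ Δ'') IsTs.id)
          (IsTs.snd (IsTs.fst (IsTs.snd IsTs.id)))))
        (IsTs.app (IsTs.fst (Δ := Γ) (Δ' := (Δ ++ Δ') ++ Δ'') IsTs.id)
          (IsTs.snd (IsTs.snd IsTs.id))))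
      refine h2.congr fun M e v => ?_
      rw [Tup.fst_app, Tup.snd_app, Tup.fst_app, Tup.snd_app]
    obtain ⟨ψ, hψ⟩ := hd
    refine ⟨(Δ ++ Δ') ++ Δ'', (c.app c').app c'', ψ, fun M e v w hw => ?_⟩
    obtain ⟨h12, h3⟩ := spl (Γ := Γ) (c.app c') c'' M e w hw
    obtain ⟨h1, h2⟩ := spl (Γ := Γ) c c' M e w.fst h12
    refine Iff.trans ?_ (hψ _ _ _)
    show M.pair a b _ _ _ ↔ M.pair a b (τ.val _ ((v.app w).fst.app (v.app w).snd.fst.fst))
      (τ'.val _ ((v.app w).fst.app (v.app w).snd.fst.snd))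
      (τ''.val _ ((v.app w).fst.app (v.app w).snd.snd))
    rw [Tup.fst_app, Tup.snd_app, h M e v _ h1, h' M e v _ h2, h'' M e v _ h3]
  | @imp Γ φ ψ ihφ ihψ =>
    obtain ⟨Δ, c, φ', h⟩ := ihφ
    obtain ⟨Δ', c', ψ', h'⟩ := ihψ
    obtain ⟨χ, hχ⟩ := Dfn.imp (ren (Δ' := Δ') _ (Dfn.sat φ')) (ren' (Δ := Δ) _ (Dfn.sat ψ'))
    refine ⟨Δ ++ Δ', c.app c', χ, fun M e v w hw => ?_⟩
    obtain ⟨h1, h2⟩ := spl (Γ := Γ) c c' M e w hw
    refine Iff.trans ?_ (hχ _ _ _)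
    show (Sat M e φ v → Sat M e ψ v) ↔ (Sat M _ φ' ((v.app w).fst.app (v.app w).snd.fst) →
      Sat M _ ψ' ((v.app w).fst.app (v.app w).snd.snd))
    rw [Tup.fst_app, Tup.snd_app, h M e v _ h1, h' M e v _ h2]
  | @all Γ s φ ih =>
    obtain ⟨Δ, c, ψ, h⟩ := ih
    refine ⟨Δ, c, .all s ψ, fun M e v w hw => ?_⟩
    simp only [Sat]
    exact forall_congr' fun x => h M e (x, v) w hw

/-- universal closure -/
def Fml.close : ∀ {Δ : List Srt}, Fml NoC Δ → Snt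
  | [], φ => φ
  | _ :: _, φ => Fml.close (.all _ φ)

theorem models_close (M : Str) : ∀ {Δ : List Srt} (φ : Fml NoC Δ),
    M.Models φ.close ↔ ∀ v : Tup M.car Δ, Sat M (fun _ c => c.elim) φ v
  | [], φ => ⟨fun h _ => h, fun h => h ()⟩
  | s :: Δ, φ => by
      rw [Fml.close, models_close M (Fml.all s φ)]
      simp only [Sat]
      exact ⟨fun h v => h v.2 v.1, fun h v x => h (x, v)⟩

theorem finite_var : ∀ Δ : List Srt, Finite (Σ s, Var Δ s)
  | [] => by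
      have : IsEmpty (Σ s, Var [] s) := ⟨fun x => nomatch x.2⟩
      infer_instance
  | t :: Δ => by
      have := finite_var Δ
      refine Finite.of_surjective (fun o : Option (Σ s, Var Δ s) => match o with
        | none => (⟨t, .z⟩ : Σ s, Var (t :: Δ) s)
        | some x => ⟨x.1, .s x.2⟩) ?_
      rintro ⟨s, x⟩
      cases x with
      | z => exact ⟨none, rfl⟩
      | s x => exact ⟨some ⟨s, x⟩, rfl⟩

theorem Dfn.allF {J : Type} [Finite J] {P : J → ∀ M : Str, (∀ s, C s → M.car s) →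
    Tup M.car Γ → Prop} (hP : ∀ j, Dfn C Γ (P j)) : Dfn C Γ (fun M e v => ∀ j, P j M e v) := by
  obtain ⟨n, ⟨f⟩⟩ := Finite.exists_equiv_fin J
  refine (Dfn.allFin (P := fun i => P (f.symm i)) (fun i => hP _)).congr fun M e v => ?_
  exact ⟨fun h i => h _, fun h j => by simpa using h (f j)⟩

theorem nonempty_fcar (m : ℕ) : ∀ s, Nonempty (fcar m s)
  | .base => ⟨(0 : Fin (m + 1))⟩
  | .prod a b => ⟨((nonempty_fcar m a).some, (nonempty_fcar m b).some)⟩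
  | .pow a => ⟨(∅ : Set (fcar m a))⟩

/-- TRANSFER from the finite structures to models of `T` -/
theorem transfer {U : Str} (hU : IsModel U) {P : ∀ M : Str, (∀ s, C s → M.car s) → Prop}
    (hP : Dfn C [] (fun M e _ => P M e))
    (h : ∀ᶠ m in (Filter.hyperfilter ℕ : Filter ℕ), ∀ e, P (F m) e) : ∀ e, P U e := by
  classical
  obtain ⟨φ, hφ⟩ := hP
  obtain ⟨Δ, c, ψ, hψ⟩ := fin_supp φ
  have hne : ∀ (M : Str) (w : Tup M.car Δ), (∀ s, Nonempty (M.car s)) →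
      (∀ (s : Srt) (x y : Var Δ s), c.get x = c.get y → w.get x = w.get y) →
      ∃ e : ∀ s, C s → M.car s, ∀ s (x : Var Δ s), w.get x = e s (c.get x) := by
    intro M w hM hw
    refine ⟨fun s a => if h : ∃ x : Var Δ s, c.get x = a then w.get h.choose
      else (hM s).some, fun s x => ?_⟩
    have hx : ∃ y : Var Δ s, c.get y = c.get x := ⟨x, rfl⟩
    simp only [dif_pos hx]
    exact hw s _ _ hx.choose_spec.symm
  have hcong : Dfn NoC Δ (fun M _ w => ∀ (s : Srt) (x y : Var Δ s),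
      c.get x = c.get y → w.get x = w.get y) := by
    have := finite_var Δ
    have : Finite (Σ s, Var Δ s × Var Δ s) := by
      refine Finite.of_injective (fun x : (Σ s, Var Δ s × Var Δ s) =>
        ((⟨x.1, x.2.1⟩, ⟨x.1, x.2.2⟩) : (Σ s, Var Δ s) × (Σ s, Var Δ s))) ?_
      rintro ⟨s, x, y⟩ ⟨s', x', y'⟩ hxy
      simp only [Prod.mk.injEq, Sigma.mk.injEq] at hxy
      obtain ⟨⟨h1, h2⟩, -, h3⟩ := hxy
      subst h1
      rw [eq_of_heq h2, eq_of_heq h3]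
    refine (Dfn.allF (J := {j : Σ s, Var Δ s × Var Δ s // c.get j.2.1 = c.get j.2.2})
      (P := fun j M _ w => w.get j.1.2.1 = w.get j.1.2.2)
      (fun j => Dfn.eq (IsT.get _) (IsT.get _))).congr fun M e w => ?_
    exact ⟨fun h j => h _ _ _ j.2, fun h s x y hxy => h ⟨⟨s, x, y⟩, hxy⟩⟩
  obtain ⟨χ, hχ⟩ := Dfn.imp hcong (Dfn.sat (show Fml NoC Δ from ψ))
  have hT : χ.close ∈ T := by
    show ∀ᶠ m in (Filter.hyperfilter ℕ : Filter ℕ), (F m).Models χ.close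
    refine h.mono fun m hm => ?_
    rw [models_close]
    intro w
    rw [← hχ]
    intro hw
    obtain ⟨e, he⟩ := hne (F m) w (nonempty_fcar m) hw
    exact (hψ (F m) e () w he).1 ((hφ (F m) e ()).1 (hm e))
  have hUm := hU _ hT
  rw [models_close] at hUm
  intro e
  have h1 := hUm (Tup.mk' (fun s x => e s (c.get x)))
  rw [← hχ] at h1
  have h2 := h1 (fun s x y hxy => by rw [Tup.get_mk', Tup.get_mk', hxy])
  exact (hφ U e ()).2 ((hψ U e () _ (fun s x => Tup.get_mk' _ x)).2 h2)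

variable {U : Str} {A B : Par U}

theorem DefOver.of_dfn {P : ∀ M : Str, (∀ s, C s → M.car s) → Tup M.car Γ → Prop}
    (hP : Dfn C Γ P) (e : ∀ s, C s → U.car s) (he : ∀ s c, e s c ∈ A s) :
    DefOver U A Γ {v | P U e v} := by
  obtain ⟨φ, hφ⟩ := Dfn.subst (C' := fun s => {x // x ∈ A s}) hP
    (k := fun _ e' _ s c => e' s ⟨e s c, he s c⟩) (fun s c => IsT.cst _) IsTs.id
  refine ⟨φ, ?_⟩
  ext v
  exact hφ U (fun _ a => a.1) v

theorem DefOver.mono {D : Set (Tup U.car Γ)} (h : DefOver U A Γ D) (hAB : ∀ s, A s ⊆ B s) :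
    DefOver U B Γ D := by
  obtain ⟨φ, rfl⟩ := h
  exact DefOver.of_dfn (Dfn.sat φ) (fun _ a => a.1) (fun s a => hAB s a.2)

theorem DefOver.inter {D D' : Set (Tup U.car Γ)} (h : DefOver U A Γ D) (h' : DefOver U A Γ D') :
    DefOver U A Γ (D ∩ D') := by
  obtain ⟨φ, rfl⟩ := h
  obtain ⟨ψ, rfl⟩ := h'
  exact DefOver.of_dfn (Dfn.and (Dfn.sat φ) (Dfn.sat ψ)) (fun _ a => a.1) (fun s a => a.2)

theorem DefOver.union {D D' : Set (Tup U.car Γ)} (h : DefOver U A Γ D) (h' : DefOver U A Γ D') :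
    DefOver U A Γ (D ∪ D') := by
  obtain ⟨φ, rfl⟩ := h
  obtain ⟨ψ, rfl⟩ := h'
  exact DefOver.of_dfn (Dfn.or (Dfn.sat φ) (Dfn.sat ψ)) (fun _ a => a.1) (fun s a => a.2)

theorem DefOver.compl {D : Set (Tup U.car Γ)} (h : DefOver U A Γ D) : DefOver U A Γ Dᶜ := by
  obtain ⟨φ, rfl⟩ := h
  exact DefOver.of_dfn (Dfn.not (Dfn.sat φ)) (fun _ a => a.1) (fun s a => a.2)

theorem DefOver.empty : DefOver U A Γ ∅ := ⟨.bot, rfl⟩

theorem DefOver.univ : DefOver U A Γ Set.univ := by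
  have := (DefOver.empty (U := U) (A := A) (Γ := Γ)).compl
  rwa [Set.compl_empty] at this

/-- finitely many parameters suffice; they can be moved into a tuple -/
theorem DefOver.fin {D : Set (Tup U.car Γ)} (h : DefOver U A Γ D) :
    ∃ (Δ : List Srt) (R : Set (Tup U.car (Γ ++ Δ))) (b : Tup U.car Δ),
      DefOver U (noPar U) (Γ ++ Δ) R ∧ b.In A ∧ D = {v | v.app b ∈ R} := by
  obtain ⟨φ, rfl⟩ := h
  obtain ⟨Δ, c, ψ, hψ⟩ := fin_supp φ
  refine ⟨Δ, {z | Sat U (fun _ c => c.elim) ψ z}, Tup.mk' (fun s x => (c.get x).1), ?_, ?_, ?_⟩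
  · exact DefOver.of_dfn (Dfn.sat ψ) (fun _ c => c.elim) (fun _ c => c.elim)
  · intro s x
    rw [Tup.get_mk']
    exact (c.get x).2
  · ext v
    exact hψ U (fun _ a => a.1) v _ (fun s x => Tup.get_mk' _ x)

/-- preimages under a tuple of variables and constants -/
theorem DefOver.pre {D : Set (Tup U.car Γ)} (h : DefOver U A Γ D)
    {t : ∀ M : Str, (∀ s, {x // x ∈ A s} → M.car s) → Tup M.car Δ → Tup M.car Γ}
    (ht : IsTs (fun s => {x // x ∈ A s}) Δ Γ t) :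
    DefOver U A Δ {v | t U (fun _ a => a.1) v ∈ D} := by
  obtain ⟨φ, rfl⟩ := h
  exact DefOver.of_dfn ((Dfn.sat φ).substV ht) (fun _ a => a.1) (fun s a => a.2)

theorem IsTs.const {A : Par U} (b : Tup U.car Δ) (hb : b.In A) :
    IsTs (fun s => {x // x ∈ A s}) Γ Δ
      (fun M e _ => (Tup.mk' (fun s x => e s ⟨b.get x, hb s x⟩) : Tup M.car Δ)) := by
  intro s x
  exact ⟨.cst ⟨b.get x, hb s x⟩, fun M e v => Tup.get_mk' _ x⟩

theorem Tup.mk'_get (b : Tup U.car Δ) : (Tup.mk' (fun _ x => b.get x) : Tup U.car Δ) = b :=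
  Tup.ext_get fun _ x => Tup.get_mk' _ x

/-- fibres at a tuple with entries in `A` -/
theorem DefOver.fibre {D : Set (Tup U.car (Γ ++ Δ))} (h : DefOver U A (Γ ++ Δ) D)
    (b : Tup U.car Δ) (hb : b.In A) : DefOver U A Γ {v | v.app b ∈ D} := by
  have h1 := h.pre (IsTs.app (Γ := Γ) IsTs.id (IsTs.const b hb))
  simpa only [Tup.mk'_get] using h1

theorem DefOver.fibre' {D : Set (Tup U.car (Γ ++ Δ))} (h : DefOver U A (Γ ++ Δ) D)
    (b : Tup U.car Γ) (hb : b.In A) : DefOver U A Δ {v | b.app v ∈ D} := by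
  have h1 := h.pre (IsTs.app (Γ := Δ) (IsTs.const b hb) IsTs.id)
  simpa only [Tup.mk'_get] using h1

end SY

end Pool.Agent.Lib_helper58.ID
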